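import Mathlib
import Pool.Agent.Lib_helper96.Des.Defs

/-!
# Project HCR (MP_eb773b_co, High concurrence): definitions

`v` treatments, `b` blocks of size `k`, replication `r`. For a design `N` we look at the integer
matrix `E = N Nᵀ - lam J - (D0 - lam) I` (`Ex` below) and at `tr1 M E = tr (M - E)⁻¹`.
-/

set_option autoImplicit false

namespace HCR

open Finset Matrix

/-! ## Notions of the problem -/

/-- `N` is the incidence matrix of a `(v,b,k,r)`-design -/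
def IsDes {v b : ℕ} (k r : ℕ) (N : Matrix (Fin v) (Fin b) ℕ) : Prop :=
  (∀ j, ∑ i, N i j = k) ∧ (∀ i, ∑ j, N i j = r)

/-- the information matrix -/
noncomputable def Info {v b : ℕ} (k r : ℕ) (N : Matrix (Fin v) (Fin b) ℕ) :
    Matrix (Fin v) (Fin v) ℝ :=
  (r : ℝ) • (1 : Matrix (Fin v) (Fin v) ℝ)
    - (1 / (k : ℝ)) • ((N.map (fun x : ℕ => (x : ℝ))) *
        Matrix.transpose (N.map (fun x : ℕ => (x : ℝ))))

/-- information matrix plus the projection onto the constants -/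
noncomputable def InfoJ {v b : ℕ} (k r : ℕ) (N : Matrix (Fin v) (Fin b) ℕ) :
    Matrix (Fin v) (Fin v) ℝ :=
  Info k r N + (1 / (v : ℝ)) • Matrix.of (fun (_ : Fin v) (_ : Fin v) => (1 : ℝ))

/-- `N` is connected: all `v - 1` eigenvalues are nonzero -/
def Conn {v b : ℕ} (k r : ℕ) (N : Matrix (Fin v) (Fin b) ℕ) : Prop :=
  Matrix.det (InfoJ k r N) ≠ 0

/-- `Φ_A` (plus the constant `1`) -/
noncomputable def PhiA {v b : ℕ} (k r : ℕ) (N : Matrix (Fin v) (Fin b) ℕ) : ℝ :=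
  Matrix.trace ((InfoJ k r N)⁻¹)

/-- `(M,S)`-optimal -/
def MSopt {v b : ℕ} (k r : ℕ) (N : Matrix (Fin v) (Fin b) ℕ) : Prop :=
  IsDes k r N ∧
    (∀ N' : Matrix (Fin v) (Fin b) ℕ, IsDes k r N' →
      Matrix.trace (Info k r N') ≤ Matrix.trace (Info k r N)) ∧
    (∀ N' : Matrix (Fin v) (Fin b) ℕ, IsDes k r N' →
      Matrix.trace (Info k r N') = Matrix.trace (Info k r N) →
      Matrix.trace (Info k r N * Info k r N) ≤ Matrix.trace (Info k r N' * Info k r N'))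

/-- `A`-optimal -/
def Aopt {v b : ℕ} (k r : ℕ) (N : Matrix (Fin v) (Fin b) ℕ) : Prop :=
  IsDes k r N ∧ Conn k r N ∧
    ∀ N' : Matrix (Fin v) (Fin b) ℕ, IsDes k r N' → Conn k r N' → PhiA k r N ≤ PhiA k r N'

/-- question Q1 for the parameters `v, b, k, r` -/
def Q1 (v b k r : ℕ) : Prop :=
  ∀ N : Matrix (Fin v) (Fin b) ℕ, MSopt k r N → Conn k r N →
    (∀ N' : Matrix (Fin v) (Fin b) ℕ, MSopt k r N' → Conn k r N' → PhiA k r N ≤ PhiA k r N') →
    ∀ N' : Matrix (Fin v) (Fin b) ℕ, IsDes k r N' → Conn k r N' → PhiA k r N ≤ PhiA k r N'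

/-! ## Matrices -/

section Mat

variable {v : ℕ}

/-- real matrix of an integer matrix -/
def rl (E : Matrix (Fin v) (Fin v) ℤ) : Matrix (Fin v) (Fin v) ℝ := E.map (fun x => (x : ℝ))

/-- sum of the squares of the entries -/
def fro (X : Matrix (Fin v) (Fin v) ℝ) : ℝ := ∑ i, ∑ j, X i j ^ 2

/-- sum of the squares of the entries -/
def sq (E : Matrix (Fin v) (Fin v) ℤ) : ℤ := ∑ i, ∑ j, E i j ^ 2

/-- `M - X` -/
def WM (M : ℝ) (X : Matrix (Fin v) (Fin v) ℝ) : Matrix (Fin v) (Fin v) ℝ :=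
  M • (1 : Matrix (Fin v) (Fin v) ℝ) - X

/-- `tr (M - X)⁻¹` -/
noncomputable def tr1 (M : ℝ) (X : Matrix (Fin v) (Fin v) ℝ) : ℝ :=
  Matrix.trace ((WM M X)⁻¹)

/-- `X` is symmetric and `a ≤ X ≤ b` as quadratic forms -/
def Btw (a b : ℝ) (X : Matrix (Fin v) (Fin v) ℝ) : Prop :=
  X.IsSymm ∧ (∀ x : Fin v → ℝ, a * (x ⬝ᵥ x) ≤ x ⬝ᵥ (X *ᵥ x)) ∧
    (∀ x : Fin v → ℝ, x ⬝ᵥ (X *ᵥ x) ≤ b * (x ⬝ᵥ x))

/-- integer symmetric matrices with row sums `d` and even nonnegative diagonal -/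
structure Cls (d : ℕ) (E : Matrix (Fin v) (Fin v) ℤ) : Prop where
  symm : E.IsSymm
  row : ∀ i, ∑ j, E i j = (d : ℤ)
  nn : ∀ i, 0 ≤ E i i
  ev : ∀ i, Even (E i i)

/-- adjacency matrices of `d`-regular graphs -/
structure Reg (d : ℕ) (G : Matrix (Fin v) (Fin v) ℤ) : Prop where
  symm : G.IsSymm
  row : ∀ i, ∑ j, G i j = (d : ℤ)
  diag : ∀ i, G i i = 0
  zo : ∀ i j, G i j = 0 ∨ G i j = 1

/-- the symmetric unit at `{x, y}` -/
def uni (x y : Fin v) : Matrix (Fin v) (Fin v) ℤ :=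
  fun i j => if (i = x ∧ j = y) ∨ (i = y ∧ j = x) then 1 else 0

/-- the switch at `x y w u` : `+1` at `yw`, `ux`, `-1` at `xy`, `wu` -/
def swi (x y w u : Fin v) : Matrix (Fin v) (Fin v) ℤ :=
  uni y w + uni u x - uni x y - uni w u

/-- `(a - b)(a - c)ᵀ + (a - c)(a - b)ᵀ` for the unit vectors `a, b, c` at `i, j, l` -/
def dmat (i j l : Fin v) : Matrix (Fin v) (Fin v) ℤ :=
  fun p q => ((if p = i then 1 else 0) - (if p = j then 1 else 0)) *
      ((if q = i then 1 else 0) - (if q = l then 1 else 0)) +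
    ((if p = i then 1 else 0) - (if p = l then 1 else 0)) *
      ((if q = i then 1 else 0) - (if q = j then 1 else 0))

end Mat

/-! ## Designs -/

/-- the least possible value of `∑ j, n i j ^ 2` : `(2q+1) r - q (q+1) b`, `q = k / v` -/
def D0 (v b k r : ℕ) : ℤ :=
  (2 * ((k / v : ℕ) : ℤ) + 1) * r - ((k / v : ℕ) : ℤ) * (((k / v : ℕ) : ℤ) + 1) * b

/-- `N Nᵀ - lam J - e I` -/
def Ex {v b : ℕ} (lam e : ℤ) (N : Matrix (Fin v) (Fin b) ℕ) : Matrix (Fin v) (Fin v) ℤ :=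
  fun i j => (∑ l, (N i l : ℤ) * (N j l : ℤ)) - lam - if i = j then e else 0

/-- there is a family of `k`-sets in which every pair `x ≠ y` occurs `μ x y` times -/
def Real {v : ℕ} (k : ℕ) (μ : Fin v → Fin v → ℤ) : Prop :=
  ∃ (n : ℕ) (B : Fin n → Finset (Fin v)), (∀ j, (B j).card = k) ∧
    ∀ x y, x ≠ y → (((Finset.univ.filter (fun j => x ∈ B j ∧ y ∈ B j)).card : ℕ) : ℤ) = μ x y

/-- the cells missing in the blow-up at a pair with fix cell `(a0, b0)` and pattern size `h` -/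
def Cell (s h : ℕ) (a0 b0 a b : Fin s) : Prop :=
  (a = a0 ∧ b = b0) ∨
    (a.val < h ∧ b.val < h ∧
      (a.val + b.val) % h = if (a0.val + b0.val) % h = 0 then 1 else 0)

instance (s h : ℕ) (a0 b0 a b : Fin s) : Decidable (Cell s h a0 b0 a b) := by
  unfold Cell; infer_instance

/-- the graph of the blow-up: all pairs in different fibres except the cells; `h x y` is the pattern
size at the pair `x, y` and `(f x y, f y x)` its fix cell -/
noncomputable def Gam (v s : ℕ) (h : Fin v → Fin v → ℕ) (f : Fin v → Fin v → Fin s) :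
    Finset (Finset (Fin v × Fin s)) :=
  (Finset.univ.filter (fun p : (Fin v × Fin s) × (Fin v × Fin s) =>
    p.1.1 ≠ p.2.1 ∧
      ¬ Cell s (h p.1.1 p.2.1) (f p.1.1 p.2.1) (f p.2.1 p.1.1) p.1.2 p.2.2)).image
    (fun p => {p.1, p.2})

end HCR
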