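import Mathlib
import Pool.Agent.Lib_helper88.HCR.Defs

set_option autoImplicit false

namespace HCR

open Finset Matrix

theorem de_col {v : ℕ} (W : Matrix (Fin v) (Fin v) ℝ) (hW : W.IsSymm) (t : ℝ)
    (hrow : ∀ i, ∑ j, W i j = t) : ∀ j, ∑ i, W i j = t := by
  intro j
  rw [← hrow j]
  refine Finset.sum_congr rfl fun i _ => ?_
  exact hW.apply j i

theorem de_mulVec {v : ℕ} (W : Matrix (Fin v) (Fin v) ℝ) (c : ℝ) (x : Fin v → ℝ) (i : Fin v) :
    ((W + c • Matrix.of (fun (_ : Fin v) (_ : Fin v) => (1 : ℝ))) *ᵥ x) i =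
      (W *ᵥ x) i + c * ∑ j, x j := by
  rw [Matrix.add_mulVec, Matrix.smul_mulVec]
  simp [Matrix.mulVec, dotProduct]

theorem de_sum {v : ℕ} (W : Matrix (Fin v) (Fin v) ℝ) (hW : W.IsSymm) (t : ℝ)
    (hrow : ∀ i, ∑ j, W i j = t) (x : Fin v → ℝ) : ∑ i, (W *ᵥ x) i = t * ∑ j, x j := by
  simp only [Matrix.mulVec, dotProduct]
  rw [Finset.sum_comm, Finset.mul_sum]
  refine Finset.sum_congr rfl fun j _ => ?_
  rw [← Finset.sum_mul, de_col W hW t hrow j]

/-- adding a multiple of `J` to a symmetric matrix with constant row sums: determinant -/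
theorem rank_one_det {v : ℕ} (W : Matrix (Fin v) (Fin v) ℝ) (hW : W.IsSymm) (t c : ℝ)
    (hrow : ∀ i, ∑ j, W i j = t) (ht : t ≠ 0) (htc : t + c * v ≠ 0) :
    (W + c • Matrix.of (fun (_ : Fin v) (_ : Fin v) => (1 : ℝ))).det ≠ 0 ↔ W.det ≠ 0 := by
  rw [not_iff_not, ← Matrix.exists_mulVec_eq_zero_iff, ← Matrix.exists_mulVec_eq_zero_iff]
  refine exists_congr fun x => and_congr_right fun _ => ?_
  constructor
  · intro h
    have h1 : ∀ i, (W *ᵥ x) i + c * ∑ j, x j = 0 := by
      intro i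
      rw [← de_mulVec, h]
      rfl
    have h2 : (t + c * v) * ∑ j, x j = 0 := by
      have h3 : ∑ i, ((W *ᵥ x) i + c * ∑ j, x j) = 0 := by
        rw [Finset.sum_eq_zero fun i _ => h1 i]
      rw [Finset.sum_add_distrib, de_sum W hW t hrow, Finset.sum_const, Finset.card_univ,
        Fintype.card_fin, nsmul_eq_mul] at h3
      linarith
    have h4 : ∑ j, x j = 0 := (mul_eq_zero.1 h2).resolve_left htc
    funext i
    have h5 := h1 i
    rw [h4, mul_zero, add_zero] at h5
    exact h5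
  · intro h
    have h2 : t * ∑ j, x j = 0 := by
      rw [← de_sum W hW t hrow, h]
      simp
    have h4 : ∑ j, x j = 0 := (mul_eq_zero.1 h2).resolve_left ht
    funext i
    rw [de_mulVec, h, h4]
    simp

/-- adding a multiple of `J` to a symmetric matrix with constant row sums: trace of the inverse -/
theorem rank_one_trace {v : ℕ} (W : Matrix (Fin v) (Fin v) ℝ) (hW : W.IsSymm) (t c : ℝ)
    (hrow : ∀ i, ∑ j, W i j = t) (ht : t ≠ 0) (htc : t + c * v ≠ 0) (hdet : W.det ≠ 0) :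
    trace ((W + c • Matrix.of (fun (_ : Fin v) (_ : Fin v) => (1 : ℝ)))⁻¹) =
      trace W⁻¹ - c * v / (t * (t + c * v)) := by
  set J : Matrix (Fin v) (Fin v) ℝ := Matrix.of (fun (_ : Fin v) (_ : Fin v) => (1 : ℝ)) with hJ
  have hWu : IsUnit W.det := isUnit_iff_ne_zero.2 hdet
  have hWJ : W * J = t • J := by
    ext i j
    simp [hJ, Matrix.mul_apply, hrow i]
  have hJW : J * W = t • J := by
    ext i j
    simp [hJ, Matrix.mul_apply, de_col W hW t hrow j]
  have hJJ : J * J = (v : ℝ) • J := by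
    ext i j
    simp [hJ, Matrix.mul_apply]
  have hJWi : J * W⁻¹ = (1 / t) • J := by
    have h1 : J = (1 / t) • (J * W) := by
      rw [hJW, smul_smul, one_div, inv_mul_cancel₀ ht, one_smul]
    calc J * W⁻¹ = ((1 / t) • (J * W)) * W⁻¹ := by rw [← h1]
      _ = (1 / t) • (J * (W * W⁻¹)) := by rw [Matrix.smul_mul, Matrix.mul_assoc]
      _ = (1 / t) • J := by rw [Matrix.mul_nonsing_inv W hWu, Matrix.mul_one]
  set κ : ℝ := c / (t * (t + c * v)) with hκ
  have hinv : (W + c • J)⁻¹ = W⁻¹ - κ • J := by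
    apply Matrix.inv_eq_right_inv
    rw [Matrix.add_mul, Matrix.mul_sub, Matrix.mul_sub, Matrix.mul_nonsing_inv W hWu,
      Matrix.mul_smul, hWJ, Matrix.smul_mul, hJWi, Matrix.smul_mul, Matrix.mul_smul, hJJ]
    simp only [smul_smul]
    have h1 : (1 : Matrix (Fin v) (Fin v) ℝ) - (κ * t) • J +
        ((c * (1 / t)) • J - (c * (κ * v)) • J) =
        1 + (-(κ * t) + c * (1 / t) - c * (κ * v)) • J := by
      module
    have h2 : -(κ * t) + c * (1 / t) - c * (κ * v) = 0 := by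
      rw [hκ]
      field_simp
      ring
    rw [h1, h2, zero_smul, add_zero]
  rw [hinv, Matrix.trace_sub, Matrix.trace_smul]
  have htr : trace J = (v : ℝ) := by
    simp [hJ, Matrix.trace]
  rw [htr, hκ, smul_eq_mul]
  ring

end HCR
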