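import Mathlib
import Pool.Agent.Lib_helper88.HCR.Defs
import Pool.Agent.Lib_helper88.HCR.de

set_option autoImplicit false

namespace HCR

open Finset Matrix

/-- the centred matrix -/
def du_N0 {v b : ℕ} (c : ℝ) (N : Matrix (Fin v) (Fin b) ℕ) : Matrix (Fin v) (Fin b) ℝ :=
  fun i j => (N i j : ℝ) - c

/-- `k • InfoJ` as a rank one perturbation -/
theorem du_X {v b k r : ℕ} (hk : 1 ≤ k) (N : Matrix (Fin v) (Fin b) ℕ) (hN : IsDes k r N)
    (c : ℝ) (hc : c * v = k) (hc' : c * b = r) (hv : 1 ≤ v) :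
    (k : ℝ) • InfoJ k r N = (((r : ℝ) * k) • (1 : Matrix (Fin v) (Fin v) ℝ)
        - du_N0 c N * (du_N0 c N).transpose)
      + (((k : ℝ) - r * k) / v) • Matrix.of (fun (_ : Fin v) (_ : Fin v) => (1 : ℝ)) := by
  have hk0 : (k : ℝ) ≠ 0 := by exact_mod_cast (by omega : k ≠ 0)
  have hv0 : (v : ℝ) ≠ 0 := by exact_mod_cast (by omega : v ≠ 0)
  have hrow : ∀ i, ∑ j, (N i j : ℝ) = r := fun i => by exact_mod_cast hN.2 i
  ext i i'
  simp only [InfoJ, Info, Matrix.smul_apply, Matrix.add_apply, Matrix.sub_apply, Matrix.mul_apply,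
    Matrix.transpose_apply, Matrix.map_apply, Matrix.of_apply, du_N0, smul_eq_mul, mul_one]
  have h1 : ∑ j, ((N i j : ℝ) - c) * ((N i' j : ℝ) - c)
      = ∑ j, (N i j : ℝ) * (N i' j : ℝ) - c * r := by
    have h2 : ∀ j, ((N i j : ℝ) - c) * ((N i' j : ℝ) - c)
        = (N i j : ℝ) * (N i' j : ℝ) - c * (N i' j : ℝ) - c * (N i j : ℝ) + c * c := fun j => by ring
    simp_rw [h2]
    rw [Finset.sum_add_distrib, Finset.sum_sub_distrib, Finset.sum_sub_distrib, ← Finset.mul_sum,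
      ← Finset.mul_sum, hrow, hrow, Finset.sum_const, Finset.card_univ, Fintype.card_fin,
      nsmul_eq_mul]
    linear_combination c * hc'
  rw [h1]
  have h3 : c = k / v := by
    rw [eq_div_iff hv0]; exact hc
  rw [h3]
  field_simp
  ring

theorem du_row {v b : ℕ} (c : ℝ) (N : Matrix (Fin v) (Fin b) ℕ) (t : ℝ)
    (hcol : ∀ j, ∑ i, du_N0 c N i j = 0) (i : Fin v) :
    ∑ j, (t • (1 : Matrix (Fin v) (Fin v) ℝ) - du_N0 c N * (du_N0 c N).transpose) i j = t := by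
  simp only [Matrix.sub_apply, Matrix.smul_apply, smul_eq_mul, Matrix.mul_apply,
    Matrix.transpose_apply]
  rw [Finset.sum_sub_distrib, Finset.sum_comm]
  have h1 : ∑ l, ∑ j, du_N0 c N i l * du_N0 c N j l = 0 := by
    refine Finset.sum_eq_zero fun l _ => ?_
    rw [← Finset.mul_sum, hcol, mul_zero]
  rw [h1, sub_zero, ← Finset.mul_sum]
  simp [Matrix.one_apply]

theorem du_symm {v b : ℕ} (A : Matrix (Fin v) (Fin b) ℝ) (t : ℝ) :
    (t • (1 : Matrix (Fin v) (Fin v) ℝ) - A * A.transpose).IsSymm := by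
  unfold Matrix.IsSymm
  rw [Matrix.transpose_sub, Matrix.transpose_smul, Matrix.transpose_one, Matrix.transpose_mul,
    Matrix.transpose_transpose]

/-- one half of the duality -/
theorem du_half {v b k r : ℕ} (hv : 1 ≤ v) (hk : 1 ≤ k) (hr : 1 ≤ r)
    (N : Matrix (Fin v) (Fin b) ℕ) (hN : IsDes k r N) (c : ℝ) (hc : c * v = k) (hc' : c * b = r) :
    (Conn k r N ↔ (((r : ℝ) * k) • (1 : Matrix (Fin v) (Fin v) ℝ)
        - du_N0 c N * (du_N0 c N).transpose).det ≠ 0) ∧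
    (Conn k r N → (PhiA k r N - 1) / k = trace (((r : ℝ) * k) • (1 : Matrix (Fin v) (Fin v) ℝ)
        - du_N0 c N * (du_N0 c N).transpose)⁻¹ - 1 / (r * k)) := by
  have hk0 : (k : ℝ) ≠ 0 := by exact_mod_cast (by omega : k ≠ 0)
  have hr0 : (r : ℝ) ≠ 0 := by exact_mod_cast (by omega : r ≠ 0)
  have hv0 : (v : ℝ) ≠ 0 := by exact_mod_cast (by omega : v ≠ 0)
  have hcol : ∀ j, ∑ i, du_N0 c N i j = 0 := by
    intro j
    have h1 : ∑ i, (N i j : ℝ) = k := by exact_mod_cast hN.1 j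
    unfold du_N0
    rw [Finset.sum_sub_distrib, h1, Finset.sum_const, Finset.card_univ, Fintype.card_fin,
      nsmul_eq_mul]
    linarith
  set X := ((r : ℝ) * k) • (1 : Matrix (Fin v) (Fin v) ℝ)
        - du_N0 c N * (du_N0 c N).transpose with hX
  have hXs : X.IsSymm := du_symm _ _
  have hXr : ∀ i, ∑ j, X i j = (r : ℝ) * k := fun i => du_row c N _ hcol i
  have hE := du_X hk N hN c hc hc' hv
  rw [← hX] at hE
  have ht : (r : ℝ) * k ≠ 0 := mul_ne_zero hr0 hk0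
  have hcv : ((k : ℝ) - r * k) / v * v = k - r * k := div_mul_cancel₀ _ hv0
  have htc : (r : ℝ) * k + ((k : ℝ) - r * k) / v * v ≠ 0 := by
    rw [hcv]
    have : (r : ℝ) * k + (k - r * k) = k := by ring
    rw [this]; exact hk0
  have hdet := rank_one_det X hXs ((r : ℝ) * k) (((k : ℝ) - r * k) / v) hXr ht htc
  have hiff : Conn k r N ↔ X.det ≠ 0 := by
    rw [← hdet, ← hE, Matrix.det_smul, Conn]
    constructor
    · intro h
      exact mul_ne_zero (pow_ne_zero _ hk0) h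
    · intro h h2
      exact h (by rw [h2, mul_zero])
  refine ⟨hiff, fun hcn => ?_⟩
  have hXd : X.det ≠ 0 := hiff.1 hcn
  have htr := rank_one_trace X hXs ((r : ℝ) * k) (((k : ℝ) - r * k) / v) hXr ht htc hXd
  rw [← hE, hcv] at htr
  have hinv : ((k : ℝ) • InfoJ k r N)⁻¹ = (k : ℝ)⁻¹ • (InfoJ k r N)⁻¹ := by
    apply Matrix.inv_eq_right_inv
    rw [Matrix.smul_mul, Matrix.mul_smul, smul_smul, mul_inv_cancel₀ hk0, one_smul]
    exact Matrix.mul_nonsing_inv _ (isUnit_iff_ne_zero.2 hcn)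
  rw [hinv, Matrix.trace_smul, smul_eq_mul] at htr
  have h5 : (r : ℝ) * k + (k - r * k) = k := by ring
  rw [h5] at htr
  have h6 : PhiA k r N = k * (trace X⁻¹ - (k - r * k) / (r * k * k)) := by
    rw [← htr, PhiA, ← mul_assoc, mul_inv_cancel₀ hk0, one_mul]
  rw [h6]
  field_simp
  ring

theorem du_card {v b k r : ℕ} (N : Matrix (Fin v) (Fin b) ℕ) (hN : IsDes k r N) :
    (v : ℝ) * r = b * k := by
  have h1 : ∑ i, ∑ j, N i j = v * r := by
    rw [Finset.sum_congr rfl fun i _ => hN.2 i]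
    simp
  have h2 : ∑ j, ∑ i, N i j = b * k := by
    rw [Finset.sum_congr rfl fun j _ => hN.1 j]
    simp
  have h3 : ∑ i, ∑ j, N i j = ∑ j, ∑ i, N i j := Finset.sum_comm
  rw [h3, h2] at h1
  exact_mod_cast h1.symm

theorem du_tdes {v b k r : ℕ} (N : Matrix (Fin v) (Fin b) ℕ) (hN : IsDes k r N) :
    IsDes r k N.transpose := ⟨fun j => hN.2 j, fun i => hN.1 i⟩

theorem du_tN0 {v b : ℕ} (c : ℝ) (N : Matrix (Fin v) (Fin b) ℕ) :
    du_N0 c N.transpose = (du_N0 c N).transpose := rfl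

/-- determinants -/
theorem du_det {v b : ℕ} (A : Matrix (Fin v) (Fin b) ℝ) (t : ℝ) (ht : t ≠ 0) :
    (t • (1 : Matrix (Fin v) (Fin v) ℝ) - A * A.transpose).det ≠ 0 ↔
      (t • (1 : Matrix (Fin b) (Fin b) ℝ) - A.transpose * A).det ≠ 0 := by
  have h1 : t • (1 : Matrix (Fin v) (Fin v) ℝ) - A * A.transpose
      = t • (1 - (t⁻¹ • A) * A.transpose) := by
    rw [smul_sub, Matrix.smul_mul, smul_smul, mul_inv_cancel₀ ht, one_smul]
  have h2 : t • (1 : Matrix (Fin b) (Fin b) ℝ) - A.transpose * A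
      = t • (1 - A.transpose * (t⁻¹ • A)) := by
    rw [smul_sub, Matrix.mul_smul, smul_smul, mul_inv_cancel₀ ht, one_smul]
  rw [h1, h2, Matrix.det_smul, Matrix.det_smul, Matrix.det_one_sub_mul_comm]
  constructor
  · intro h h3
    rcases mul_eq_zero.1 h3 with h4 | h4
    · exact pow_ne_zero _ ht h4
    · exact h (by rw [h4, mul_zero])
  · intro h h3
    rcases mul_eq_zero.1 h3 with h4 | h4
    · exact pow_ne_zero _ ht h4
    · exact h (by rw [h4, mul_zero])

/-- traces of the inverses -/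
theorem du_trace {v b : ℕ} (A : Matrix (Fin v) (Fin b) ℝ) (t : ℝ) (ht : t ≠ 0)
    (hY : (t • (1 : Matrix (Fin b) (Fin b) ℝ) - A.transpose * A).det ≠ 0) :
    trace (t • (1 : Matrix (Fin v) (Fin v) ℝ) - A * A.transpose)⁻¹
      = trace (t • (1 : Matrix (Fin b) (Fin b) ℝ) - A.transpose * A)⁻¹ + ((v : ℝ) - b) / t := by
  set Y := t • (1 : Matrix (Fin b) (Fin b) ℝ) - A.transpose * A with hYdef
  have hYu : IsUnit Y.det := isUnit_iff_ne_zero.2 hY
  have hYY : Y * Y⁻¹ = 1 := Matrix.mul_nonsing_inv _ hYu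
  have hYY' : Y⁻¹ * Y = 1 := Matrix.nonsing_inv_mul _ hYu
  have hAA : A.transpose * A = t • (1 : Matrix (Fin b) (Fin b) ℝ) - Y := by
    rw [hYdef, sub_sub_cancel]
  have h0 : A.transpose * A * Y⁻¹ = t • Y⁻¹ - 1 := by
    rw [hAA, Matrix.sub_mul, Matrix.smul_mul, Matrix.one_mul, hYY]
  have hinv : (t • (1 : Matrix (Fin v) (Fin v) ℝ) - A * A.transpose)⁻¹
      = t⁻¹ • (1 + A * Y⁻¹ * A.transpose) := by
    apply Matrix.inv_eq_right_inv
    rw [Matrix.mul_smul, Matrix.sub_mul, Matrix.mul_add, Matrix.mul_add, Matrix.smul_mul,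
      Matrix.smul_mul, Matrix.one_mul, Matrix.one_mul, Matrix.mul_one]
    have h1 : A * A.transpose * (A * Y⁻¹ * A.transpose)
        = t • (A * Y⁻¹ * A.transpose) - A * A.transpose := by
      have h2 : A * A.transpose * (A * Y⁻¹ * A.transpose)
          = A * (A.transpose * A * Y⁻¹) * A.transpose := by
        simp only [Matrix.mul_assoc]
      rw [h2, h0, Matrix.mul_sub, Matrix.sub_mul, Matrix.mul_smul, Matrix.smul_mul, Matrix.mul_one]
    rw [h1]
    have h3 : t • (1 : Matrix (Fin v) (Fin v) ℝ) + t • (A * Y⁻¹ * A.transpose)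
        - (A * A.transpose + (t • (A * Y⁻¹ * A.transpose) - A * A.transpose))
        = t • (1 : Matrix (Fin v) (Fin v) ℝ) := by abel
    rw [h3, smul_smul, inv_mul_cancel₀ ht, one_smul]
  rw [hinv, Matrix.trace_smul, Matrix.trace_add, Matrix.trace_one, Fintype.card_fin]
  have h4 : trace (A * Y⁻¹ * A.transpose) = t * trace Y⁻¹ - b := by
    rw [Matrix.trace_mul_comm, ← Matrix.mul_assoc, h0, Matrix.trace_sub, Matrix.trace_smul,
      Matrix.trace_one, Fintype.card_fin, smul_eq_mul]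
  rw [h4, smul_eq_mul]
  field_simp
  ring

/-- duality of `C` : the centred matrix `N₀ = N - (r / b) J` -/
theorem dual_conn {v b k r : ℕ} (hv : 1 ≤ v) (hb : 1 ≤ b) (hk : 1 ≤ k) (hr : 1 ≤ r)
    (N : Matrix (Fin v) (Fin b) ℕ) (hN : IsDes k r N) :
    Conn k r N ↔ Conn r k N.transpose := by
  have hk0 : (k : ℝ) ≠ 0 := by exact_mod_cast (by omega : k ≠ 0)
  have hr0 : (r : ℝ) ≠ 0 := by exact_mod_cast (by omega : r ≠ 0)
  have hv0 : (v : ℝ) ≠ 0 := by exact_mod_cast (by omega : v ≠ 0)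
  have hcd := du_card N hN
  have hc : ((k : ℝ) / v) * v = k := div_mul_cancel₀ _ hv0
  have hc' : ((k : ℝ) / v) * b = r := by
    field_simp
    linarith
  have h1 := (du_half hv hk hr N hN _ hc hc').1
  have h2 := (du_half hb hr hk N.transpose (du_tdes N hN) _ hc' hc).1
  rw [h1, h2, du_tN0, Matrix.transpose_transpose, mul_comm (k : ℝ) (r : ℝ)]
  exact du_det _ _ (mul_ne_zero hr0 hk0)

theorem dual_PhiA {v b k r : ℕ} (hv : 1 ≤ v) (hb : 1 ≤ b) (hk : 1 ≤ k) (hr : 1 ≤ r)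
    (N : Matrix (Fin v) (Fin b) ℕ) (hN : IsDes k r N) (hc : Conn k r N) :
    (PhiA k r N - 1) / k = (PhiA r k N.transpose - 1) / r + ((v : ℝ) - b) / (r * k) := by
  have hk0 : (k : ℝ) ≠ 0 := by exact_mod_cast (by omega : k ≠ 0)
  have hr0 : (r : ℝ) ≠ 0 := by exact_mod_cast (by omega : r ≠ 0)
  have hv0 : (v : ℝ) ≠ 0 := by exact_mod_cast (by omega : v ≠ 0)
  have hcd := du_card N hN
  have hcv : ((k : ℝ) / v) * v = k := div_mul_cancel₀ _ hv0
  have hcb : ((k : ℝ) / v) * b = r := by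
    field_simp
    linarith
  have hcT := (dual_conn hv hb hk hr N hN).1 hc
  have h1 := (du_half hv hk hr N hN _ hcv hcb).2 hc
  have h2 := (du_half hb hr hk N.transpose (du_tdes N hN) _ hcb hcv).2 hcT
  have h3 := (du_half hb hr hk N.transpose (du_tdes N hN) _ hcb hcv).1.1 hcT
  rw [du_tN0, Matrix.transpose_transpose, mul_comm (k : ℝ) (r : ℝ)] at h2 h3
  rw [h1, h2, du_trace _ _ (mul_ne_zero hr0 hk0) h3]
  ring

end HCR
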