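import Mathlib
import Pool.Agent.Lib_helper88.HCR.Defs

set_option autoImplicit false

namespace HCR

open Finset Matrix

theorem dual_des {v b k r : ℕ} (N : Matrix (Fin v) (Fin b) ℕ) :
    IsDes k r N ↔ IsDes r k N.transpose :=
  ⟨fun h => ⟨h.2, h.1⟩, fun h => ⟨h.2, h.1⟩⟩

theorem dv_gen {n : ℕ} (k r : ℝ) (hk : k ≠ 0) (P : Matrix (Fin n) (Fin n) ℝ) :
    k * trace (r • (1 : Matrix (Fin n) (Fin n) ℝ) - (1 / k) • P) = k * r * n - trace P ∧
    k ^ 2 * trace ((r • (1 : Matrix (Fin n) (Fin n) ℝ) - (1 / k) • P) *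
      (r • (1 : Matrix (Fin n) (Fin n) ℝ) - (1 / k) • P)) =
      (k * r) ^ 2 * n - 2 * (k * r) * trace P + trace (P * P) := by
  have h1 : trace (1 : Matrix (Fin n) (Fin n) ℝ) = n := by simp
  constructor
  · rw [Matrix.trace_sub, Matrix.trace_smul, Matrix.trace_smul, h1, smul_eq_mul, smul_eq_mul]
    field_simp
  · rw [Matrix.sub_mul, Matrix.mul_sub, Matrix.mul_sub, Matrix.smul_mul, Matrix.smul_mul,
      Matrix.smul_mul, Matrix.smul_mul, Matrix.one_mul, Matrix.one_mul, Matrix.mul_smul,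
      Matrix.mul_one, Matrix.mul_smul]
    simp only [Matrix.trace_sub, Matrix.trace_smul, smul_eq_mul, h1]
    field_simp
    ring

theorem dual_tr {v b k r : ℕ} (hk : 1 ≤ k) (hr : 1 ≤ r) (N : Matrix (Fin v) (Fin b) ℕ) :
    (k : ℝ) * trace (Info k r N) = r * trace (Info r k N.transpose) +
        ((v : ℝ) - b) * (r * k) ∧
    (k : ℝ) ^ 2 * trace (Info k r N * Info k r N) =
        (r : ℝ) ^ 2 * trace (Info r k N.transpose * Info r k N.transpose) +
        ((v : ℝ) - b) * (r * k) ^ 2 := by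
  have hk0 : (k : ℝ) ≠ 0 := by positivity
  have hr0 : (r : ℝ) ≠ 0 := by positivity
  set A : Matrix (Fin v) (Fin b) ℝ := N.map (fun x : ℕ => (x : ℝ)) with hA
  have hI1 : Info k r N = (r : ℝ) • (1 : Matrix (Fin v) (Fin v) ℝ)
    - (1 / (k : ℝ)) • (A * A.transpose) := rfl
  have hI2 : Info r k N.transpose = (k : ℝ) • (1 : Matrix (Fin b) (Fin b) ℝ)
    - (1 / (r : ℝ)) • (A.transpose * A) := by
    unfold Info
    rw [hA, Matrix.transpose_map, Matrix.transpose_transpose]
  have ht1 : trace (A * A.transpose) = trace (A.transpose * A) := Matrix.trace_mul_comm _ _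
  have ht2 : trace (A * A.transpose * (A * A.transpose)) =
      trace (A.transpose * A * (A.transpose * A)) := by
    rw [Matrix.mul_assoc, Matrix.trace_mul_comm, Matrix.mul_assoc, Matrix.mul_assoc,
      Matrix.mul_assoc]
  obtain ⟨h1, h2⟩ := dv_gen (n := v) (k : ℝ) (r : ℝ) hk0 (A * A.transpose)
  obtain ⟨h3, h4⟩ := dv_gen (n := b) (r : ℝ) (k : ℝ) hr0 (A.transpose * A)
  rw [hI1, hI2, h1, h2, h3, h4, ht1, ht2]
  constructor
  · ring
  · ring

theorem dv_ms {v b k r : ℕ} (hk : 1 ≤ k) (hr : 1 ≤ r) (N : Matrix (Fin v) (Fin b) ℕ)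
    (h : MSopt k r N) : MSopt r k N.transpose := by
  have hk0 : (0 : ℝ) < (k : ℝ) := by exact_mod_cast hk
  have hr0 : (0 : ℝ) < (r : ℝ) := by exact_mod_cast hr
  obtain ⟨h1, h2, h3⟩ := h
  obtain ⟨t1, t2⟩ := dual_tr hk hr N
  have key : ∀ N' : Matrix (Fin b) (Fin v) ℕ, IsDes r k N' → IsDes k r N'.transpose := by
    intro N' hN'
    rw [dual_des, Matrix.transpose_transpose]
    exact hN'
  have tt : ∀ N' : Matrix (Fin b) (Fin v) ℕ,
      (k : ℝ) * trace (Info k r N'.transpose) = r * trace (Info r k N') +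
        ((v : ℝ) - b) * (r * k) ∧
      (k : ℝ) ^ 2 * trace (Info k r N'.transpose * Info k r N'.transpose) =
        (r : ℝ) ^ 2 * trace (Info r k N' * Info r k N') +
        ((v : ℝ) - b) * (r * k) ^ 2 := by
    intro N'
    have := dual_tr hk hr N'.transpose
    rwa [Matrix.transpose_transpose] at this
  refine ⟨(dual_des N).1 h1, ?_, ?_⟩
  · intro N' hN'
    have h4 := h2 N'.transpose (key N' hN')
    obtain ⟨u1, -⟩ := tt N'
    have h5 : (k : ℝ) * trace (Info k r N'.transpose) ≤ k * trace (Info k r N) :=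
      mul_le_mul_of_nonneg_left h4 hk0.le
    rw [u1, t1] at h5
    have h6 : (r : ℝ) * trace (Info r k N') ≤ r * trace (Info r k N.transpose) := by linarith
    exact le_of_mul_le_mul_left h6 hr0
  · intro N' hN' heq
    obtain ⟨u1, u2⟩ := tt N'
    have h4 : trace (Info k r N'.transpose) = trace (Info k r N) := by
      have h5 : (k : ℝ) * trace (Info k r N'.transpose) = k * trace (Info k r N) := by
        rw [u1, t1, heq]
      exact mul_left_cancel₀ hk0.ne' h5
    have h6 := h3 N'.transpose (key N' hN') h4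
    have h7 : (k : ℝ) ^ 2 * trace (Info k r N * Info k r N) ≤
        (k : ℝ) ^ 2 * trace (Info k r N'.transpose * Info k r N'.transpose) :=
      mul_le_mul_of_nonneg_left h6 (by positivity)
    rw [u2, t2] at h7
    have h8 : (r : ℝ) ^ 2 * trace (Info r k N.transpose * Info r k N.transpose) ≤
        (r : ℝ) ^ 2 * trace (Info r k N' * Info r k N') := by linarith
    exact le_of_mul_le_mul_left h8 (by positivity)

theorem dual_ms {v b k r : ℕ} (hk : 1 ≤ k) (hr : 1 ≤ r) (N : Matrix (Fin v) (Fin b) ℕ) :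
    MSopt k r N ↔ MSopt r k N.transpose := by
  refine ⟨dv_ms hk hr N, fun h => ?_⟩
  have := dv_ms hr hk N.transpose h
  rwa [Matrix.transpose_transpose] at this

end HCR
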