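import Mathlib
import Pool.Agent.Lib_helper88.HCR.Defs

set_option autoImplicit false

namespace HCR

open Finset Matrix

theorem fro_nonneg {v : ℕ} (X : Matrix (Fin v) (Fin v) ℝ) : 0 ≤ fro X := by
  unfold fro
  exact Finset.sum_nonneg fun i _ => Finset.sum_nonneg fun j _ => sq_nonneg _

theorem WM_symm {v : ℕ} (M : ℝ) (X : Matrix (Fin v) (Fin v) ℝ) (hX : X.IsSymm) :
    (WM M X).IsSymm := by
  unfold WM Matrix.IsSymm
  rw [Matrix.transpose_sub, Matrix.transpose_smul, Matrix.transpose_one, hX.eq]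

theorem bw_cs {v : ℕ} (X : Matrix (Fin v) (Fin v) ℝ) (x : Fin v → ℝ) :
    (x ⬝ᵥ (X *ᵥ x)) ^ 2 ≤ fro X * (x ⬝ᵥ x) ^ 2 := by
  have h1 : x ⬝ᵥ (X *ᵥ x) = ∑ p ∈ (Finset.univ : Finset (Fin v)) ×ˢ (Finset.univ : Finset (Fin v)),
      X p.1 p.2 * (x p.1 * x p.2) := by
    rw [Finset.sum_product]
    simp only [dotProduct, Matrix.mulVec, Finset.mul_sum]
    refine Finset.sum_congr rfl fun i _ => Finset.sum_congr rfl fun j _ => ?_
    ring
  have h2 : fro X = ∑ p ∈ (Finset.univ : Finset (Fin v)) ×ˢ (Finset.univ : Finset (Fin v)),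
      X p.1 p.2 ^ 2 := by
    rw [Finset.sum_product]
    rfl
  have h3 : (x ⬝ᵥ x) ^ 2 =
      ∑ p ∈ (Finset.univ : Finset (Fin v)) ×ˢ (Finset.univ : Finset (Fin v)),
      (x p.1 * x p.2) ^ 2 := by
    rw [Finset.sum_product, pow_two]
    simp only [dotProduct, Finset.sum_mul_sum]
    refine Finset.sum_congr rfl fun i _ => Finset.sum_congr rfl fun j _ => ?_
    ring
  rw [h1, h2, h3]
  exact Finset.sum_mul_sq_le_sq_mul_sq _ _ _

theorem btw_W {v : ℕ} (M s : ℝ) (hs : 0 ≤ s) (X : Matrix (Fin v) (Fin v) ℝ) (hX : X.IsSymm)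
    (h : fro X ≤ s ^ 2) : Btw (M - s) (M + s) (WM M X) := by
  have key : ∀ x : Fin v → ℝ, |x ⬝ᵥ (X *ᵥ x)| ≤ s * (x ⬝ᵥ x) := by
    intro x
    have hxx : 0 ≤ x ⬝ᵥ x := by
      simp only [dotProduct]
      exact Finset.sum_nonneg fun i _ => mul_self_nonneg _
    apply abs_le_of_sq_le_sq _ (mul_nonneg hs hxx)
    calc (x ⬝ᵥ (X *ᵥ x)) ^ 2 ≤ fro X * (x ⬝ᵥ x) ^ 2 := bw_cs X x
      _ ≤ s ^ 2 * (x ⬝ᵥ x) ^ 2 := mul_le_mul_of_nonneg_right h (sq_nonneg _)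
      _ = (s * (x ⬝ᵥ x)) ^ 2 := by ring
  have hW : ∀ x : Fin v → ℝ, x ⬝ᵥ (WM M X *ᵥ x) = M * (x ⬝ᵥ x) - x ⬝ᵥ (X *ᵥ x) := by
    intro x
    unfold WM
    rw [Matrix.sub_mulVec, dotProduct_sub, Matrix.smul_mulVec, Matrix.one_mulVec, dotProduct_smul,
      smul_eq_mul]
  refine ⟨WM_symm M X hX, fun x => ?_, fun x => ?_⟩
  · have := (abs_le.mp (key x)).2
    rw [hW x]
    linarith [this]
  · have := (abs_le.mp (key x)).1
    rw [hW x]
    linarith [this]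

end HCR
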