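import Mathlib
import Pool.Agent.Lib_helper88.HCR.Defs

set_option autoImplicit false

namespace HCR

open Finset Matrix

theorem iv_symm {v : ℕ} {X : Matrix (Fin v) (Fin v) ℝ} (hX : X.IsSymm) (x y : Fin v → ℝ) :
    x ⬝ᵥ (X *ᵥ y) = y ⬝ᵥ (X *ᵥ x) := by
  have h1 : y ⬝ᵥ (X *ᵥ x) = (X *ᵥ x) ⬝ᵥ y := dotProduct_comm _ _
  rw [h1, dotProduct_mulVec, ← mulVec_transpose, hX.eq]

/-- Cauchy-Schwarz for a symmetric positive semidefinite matrix -/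
theorem psd_cs {v : ℕ} (X : Matrix (Fin v) (Fin v) ℝ) (hX : X.IsSymm)
    (h0 : ∀ x : Fin v → ℝ, 0 ≤ x ⬝ᵥ (X *ᵥ x)) (x y : Fin v → ℝ) :
    (x ⬝ᵥ (X *ᵥ y)) ^ 2 ≤ (x ⬝ᵥ (X *ᵥ x)) * (y ⬝ᵥ (X *ᵥ y)) := by
  have h1 : ∀ t : ℝ, 0 ≤ (y ⬝ᵥ (X *ᵥ y)) * (t * t) + (2 * (x ⬝ᵥ (X *ᵥ y))) * t +
      x ⬝ᵥ (X *ᵥ x) := by
    intro t
    have h2 := h0 (x + t • y)
    have h3 : (x + t • y) ⬝ᵥ (X *ᵥ (x + t • y)) = (y ⬝ᵥ (X *ᵥ y)) * (t * t) +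
        (2 * (x ⬝ᵥ (X *ᵥ y))) * t + x ⬝ᵥ (X *ᵥ x) := by
      rw [mulVec_add, mulVec_smul, add_dotProduct, dotProduct_add, dotProduct_add,
        smul_dotProduct, smul_dotProduct, dotProduct_smul, dotProduct_smul,
        iv_symm hX y x]
      simp only [smul_eq_mul]
      ring
    rw [h3] at h2
    exact h2
  have h2 := discrim_le_zero h1
  unfold discrim at h2
  nlinarith

theorem iv_dp_nonneg {v : ℕ} (x : Fin v → ℝ) : 0 ≤ x ⬝ᵥ x := by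
  rw [dotProduct]
  exact Finset.sum_nonneg fun i _ => mul_self_nonneg _

theorem iv_cs {v : ℕ} (x y : Fin v → ℝ) : (x ⬝ᵥ y) ^ 2 ≤ (x ⬝ᵥ x) * (y ⬝ᵥ y) := by
  have h := psd_cs (1 : Matrix (Fin v) (Fin v) ℝ) isSymm_one
    (fun z => by rw [one_mulVec]; exact iv_dp_nonneg z) x y
  rwa [one_mulVec, one_mulVec] at h

theorem btw_det {v : ℕ} (a b : ℝ) (ha : 0 < a) (X : Matrix (Fin v) (Fin v) ℝ) (h : Btw a b X) :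
    IsUnit X.det := by
  rw [isUnit_iff_ne_zero]
  intro h0
  obtain ⟨x, hx, hx0⟩ := Matrix.exists_mulVec_eq_zero_iff.2 h0
  have h1 := h.2.1 x
  rw [hx0, dotProduct_zero] at h1
  have h2 := iv_dp_nonneg x
  have h3 : x ⬝ᵥ x = 0 := by nlinarith
  exact hx (dotProduct_self_eq_zero.1 h3)

theorem iv_inv {v : ℕ} {a b : ℝ} (ha : 0 < a) {X : Matrix (Fin v) (Fin v) ℝ} (h : Btw a b X)
    (x : Fin v → ℝ) : X *ᵥ (X⁻¹ *ᵥ x) = x := by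
  rw [mulVec_mulVec, Matrix.mul_nonsing_inv X (btw_det a b ha X h), one_mulVec]

theorem inv_norm_le {v : ℕ} (a b : ℝ) (ha : 0 < a) (X : Matrix (Fin v) (Fin v) ℝ)
    (h : Btw a b X) (x : Fin v → ℝ) :
    (X⁻¹ *ᵥ x) ⬝ᵥ (X⁻¹ *ᵥ x) ≤ (1 / a ^ 2) * (x ⬝ᵥ x) := by
  have h1 := h.2.1 (X⁻¹ *ᵥ x)
  rw [iv_inv ha h] at h1
  have h2 := iv_cs (X⁻¹ *ᵥ x) x
  have h3 := iv_dp_nonneg (X⁻¹ *ᵥ x)
  have h4 := iv_dp_nonneg x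
  set p := (X⁻¹ *ᵥ x) ⬝ᵥ (X⁻¹ *ᵥ x)
  set q := x ⬝ᵥ x
  set r := (X⁻¹ *ᵥ x) ⬝ᵥ x
  rw [one_div, inv_mul_eq_div, le_div_iff₀ (by positivity)]
  rcases eq_or_lt_of_le h3 with h5 | h5
  · rw [← h5, zero_mul]; exact h4
  · have h6 : 0 ≤ a * p := by positivity
    have h7 : (a * p) ^ 2 ≤ r ^ 2 := pow_le_pow_left₀ h6 h1 2
    have h8 : p * (a ^ 2 * p) ≤ p * q := by nlinarith
    have h9 := le_of_mul_le_mul_left h8 h5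
    linarith

theorem iv_low {v : ℕ} {a b : ℝ} (ha : 0 < a) (hb : 0 < b) {X : Matrix (Fin v) (Fin v) ℝ}
    (h : Btw a b X) (x : Fin v → ℝ) : (1 / b) * (x ⬝ᵥ x) ≤ x ⬝ᵥ (X⁻¹ *ᵥ x) := by
  have hpsd : ∀ z : Fin v → ℝ, 0 ≤ z ⬝ᵥ (X *ᵥ z) := fun z =>
    le_trans (mul_nonneg ha.le (iv_dp_nonneg z)) (h.2.1 z)
  have h1 := psd_cs X h.1 hpsd x (X⁻¹ *ᵥ x)
  rw [iv_inv ha h] at h1
  have h2 := h.2.2 x
  have h3 := hpsd (X⁻¹ *ᵥ x)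
  rw [iv_inv ha h, dotProduct_comm] at h3
  have h4 := iv_dp_nonneg x
  have h5 : (X⁻¹ *ᵥ x) ⬝ᵥ x = x ⬝ᵥ (X⁻¹ *ᵥ x) := dotProduct_comm _ _
  rw [h5] at h1
  set q := x ⬝ᵥ x
  set r := x ⬝ᵥ (X⁻¹ *ᵥ x)
  rw [one_div, inv_mul_eq_div, div_le_iff₀ hb]
  rcases eq_or_lt_of_le h4 with h6 | h6
  · rw [← h6]; positivity
  · have h7 : q * q ≤ q * (r * b) := by nlinarith
    exact le_of_mul_le_mul_left h7 h6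

theorem btw_inv {v : ℕ} (a b : ℝ) (ha : 0 < a) (hb : 0 < b) (X : Matrix (Fin v) (Fin v) ℝ)
    (h : Btw a b X) : Btw (1 / b) (1 / a) X⁻¹ := by
  refine ⟨?_, fun x => iv_low ha hb h x, fun x => ?_⟩
  · show (X⁻¹)ᵀ = X⁻¹
    rw [Matrix.transpose_nonsing_inv, h.1.eq]
  · have h1 := h.2.1 (X⁻¹ *ᵥ x)
    rw [iv_inv ha h] at h1
    have h2 := iv_cs (X⁻¹ *ᵥ x) x
    have h3 := iv_dp_nonneg (X⁻¹ *ᵥ x)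
    have h4 := iv_dp_nonneg x
    have h5 : x ⬝ᵥ (X⁻¹ *ᵥ x) = (X⁻¹ *ᵥ x) ⬝ᵥ x := dotProduct_comm _ _
    rw [h5]
    set p := (X⁻¹ *ᵥ x) ⬝ᵥ (X⁻¹ *ᵥ x)
    set q := x ⬝ᵥ x
    set r := (X⁻¹ *ᵥ x) ⬝ᵥ x
    have hr : 0 ≤ r := le_trans (by positivity) h1
    rw [one_div, inv_mul_eq_div, le_div_iff₀ ha]
    rcases eq_or_lt_of_le hr with h6 | h6
    · rw [← h6, zero_mul]; exact h4
    · have h7 : r * (r * a) ≤ r * q := by nlinarith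
      exact le_of_mul_le_mul_left h7 h6

theorem inv_norm_ge {v : ℕ} (a b : ℝ) (ha : 0 < a) (hb : 0 < b) (X : Matrix (Fin v) (Fin v) ℝ)
    (h : Btw a b X) (x : Fin v → ℝ) :
    (1 / b ^ 2) * (x ⬝ᵥ x) ≤ (X⁻¹ *ᵥ x) ⬝ᵥ (X⁻¹ *ᵥ x) := by
  have h1 := iv_low ha hb h x
  have h2 := iv_cs x (X⁻¹ *ᵥ x)
  have h3 := iv_dp_nonneg (X⁻¹ *ᵥ x)
  have h4 := iv_dp_nonneg x
  set p := (X⁻¹ *ᵥ x) ⬝ᵥ (X⁻¹ *ᵥ x)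
  set q := x ⬝ᵥ x
  set r := x ⬝ᵥ (X⁻¹ *ᵥ x)
  rw [one_div, inv_mul_eq_div, div_le_iff₀ hb] at h1
  rw [one_div, inv_mul_eq_div, div_le_iff₀ (by positivity)]
  rcases eq_or_lt_of_le h4 with h6 | h6
  · rw [← h6]; positivity
  · have h7 : q ^ 2 ≤ (r * b) ^ 2 := pow_le_pow_left₀ h4 h1 2
    have h8 : q * q ≤ q * (p * b ^ 2) := by nlinarith [sq_nonneg b]
    exact le_of_mul_le_mul_left h8 h6

end HCR
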