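import Mathlib
import Pool.Agent.Lib_helper88.HCR.Defs
import Pool.Agent.Lib_helper88.HCR.iv

set_option autoImplicit false

namespace HCR

open Finset Matrix

/-- the resolvent identity of second order -/
theorem ex_identity {v : ℕ} (X T : Matrix (Fin v) (Fin v) ℝ) (hX : IsUnit X.det)
    (hXT : IsUnit (X + T).det) :
    (X + T)⁻¹ = X⁻¹ - X⁻¹ * T * X⁻¹ + X⁻¹ * T * (X + T)⁻¹ * T * X⁻¹ := by
  obtain ⟨Z, hZ⟩ : ∃ Z, Z = (X + T)⁻¹ := ⟨_, rfl⟩
  obtain ⟨W, hW⟩ : ∃ W, W = X⁻¹ := ⟨_, rfl⟩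
  have h1 : (X + T) * Z = 1 := by rw [hZ]; exact Matrix.mul_nonsing_inv _ hXT
  have h2 : Z * (X + T) = 1 := by rw [hZ]; exact Matrix.nonsing_inv_mul _ hXT
  have h3 : X * W = 1 := by rw [hW]; exact Matrix.mul_nonsing_inv _ hX
  have h4 : W * X = 1 := by rw [hW]; exact Matrix.nonsing_inv_mul _ hX
  rw [← hZ, ← hW]
  have h5 : Z = W - W * T * Z := by
    have h6 : W * ((X + T) * Z) = W := by rw [h1, Matrix.mul_one]
    have h7 : W * ((X + T) * Z) = Z + W * T * Z := by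
      rw [Matrix.add_mul, Matrix.mul_add, ← Matrix.mul_assoc, h4, Matrix.one_mul,
        ← Matrix.mul_assoc]
    rw [h7] at h6
    exact eq_sub_of_add_eq h6
  have h8 : Z = W - Z * T * W := by
    have h6 : (Z * (X + T)) * W = W := by rw [h2, Matrix.one_mul]
    have h7 : (Z * (X + T)) * W = Z + Z * T * W := by
      rw [Matrix.mul_add, Matrix.add_mul, Matrix.mul_assoc, h3, Matrix.mul_one]
    rw [h7] at h6
    exact eq_sub_of_add_eq h6
  calc Z = W - W * T * Z := h5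
    _ = W - W * T * (W - Z * T * W) := by rw [← h8]
    _ = W - W * T * W + W * T * Z * T * W := by
        rw [Matrix.mul_sub]
        simp only [Matrix.mul_assoc]
        abel

theorem ex_trace_form {v : ℕ} (B Z : Matrix (Fin v) (Fin v) ℝ) :
    trace (Bᵀ * Z * B) = ∑ j, (fun i => B i j) ⬝ᵥ (Z *ᵥ (fun i => B i j)) := by
  rw [Matrix.mul_assoc]
  unfold Matrix.trace
  refine Finset.sum_congr rfl fun j _ => ?_
  rw [Matrix.diag_apply, Matrix.mul_apply]
  rfl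

theorem ex_fro_cols {v : ℕ} (B : Matrix (Fin v) (Fin v) ℝ) :
    fro B = ∑ j, (fun i => B i j) ⬝ᵥ (fun i => B i j) := by
  unfold fro
  rw [Finset.sum_comm]
  refine Finset.sum_congr rfl fun j _ => ?_
  unfold dotProduct
  refine Finset.sum_congr rfl fun i _ => ?_
  rw [pow_two]

theorem ex_fro_rows {v : ℕ} (B : Matrix (Fin v) (Fin v) ℝ) :
    fro B = ∑ i, (B i) ⬝ᵥ (B i) := by
  unfold fro
  refine Finset.sum_congr rfl fun j _ => ?_
  unfold dotProduct
  refine Finset.sum_congr rfl fun i _ => ?_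
  rw [pow_two]

/-- second order expansion of `tr (X + T)⁻¹` with a third order term of definite sign -/
theorem expand {v : ℕ} (a b c d : ℝ) (ha : 0 < a) (hb : 0 < b) (hc : 0 < c) (hd : 0 < d)
    (X T : Matrix (Fin v) (Fin v) ℝ) (hX : Btw a b X) (hT : T.IsSymm) (hXT : Btw c d (X + T)) :
    ∃ R : ℝ, trace (X + T)⁻¹ = trace X⁻¹ - trace (X⁻¹ * X⁻¹ * T) + R ∧
      fro T / (b ^ 2 * d) ≤ R ∧ R ≤ fro T / (a ^ 2 * c) := by
  have uX := btw_det a b ha X hX
  have uXT := btw_det c d hc (X + T) hXT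
  have hWs : (X⁻¹)ᵀ = X⁻¹ := (btw_inv a b ha hb X hX).1
  have hZb := btw_inv c d hc hd (X + T) hXT
  have hid := ex_identity X T uX uXT
  obtain ⟨Z, hZ⟩ : ∃ Z, Z = (X + T)⁻¹ := ⟨_, rfl⟩
  rw [← hZ] at hid hZb ⊢
  obtain ⟨B, hB⟩ : ∃ B, B = T * X⁻¹ := ⟨_, rfl⟩
  have hBt : Bᵀ = X⁻¹ * T := by rw [hB, Matrix.transpose_mul, hWs, hT.eq]
  have hR : X⁻¹ * T * Z * T * X⁻¹ = Bᵀ * Z * B := by
    rw [hBt, hB]
    simp only [Matrix.mul_assoc]
  -- the norm of B
  have hrow : ∀ i, B i = X⁻¹ *ᵥ (T i) := by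
    intro i
    funext j
    rw [hB, Matrix.mul_apply]
    unfold Matrix.mulVec dotProduct
    refine Finset.sum_congr rfl fun k _ => ?_
    have h1 : X⁻¹ k j = X⁻¹ j k := by
      have := congrFun (congrFun hWs j) k
      rwa [Matrix.transpose_apply] at this
    rw [h1, mul_comm]
  have hfu : fro B ≤ (1 / a ^ 2) * fro T := by
    rw [ex_fro_rows B, ex_fro_rows T, Finset.mul_sum]
    refine Finset.sum_le_sum fun i _ => ?_
    rw [hrow i]
    exact inv_norm_le a b ha X hX (T i)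
  have hfl : (1 / b ^ 2) * fro T ≤ fro B := by
    rw [ex_fro_rows B, ex_fro_rows T, Finset.mul_sum]
    refine Finset.sum_le_sum fun i _ => ?_
    rw [hrow i]
    exact inv_norm_ge a b ha hb X hX (T i)
  refine ⟨trace (Bᵀ * Z * B), ?_, ?_, ?_⟩
  · have h1 : trace (X⁻¹ * T * X⁻¹) = trace (X⁻¹ * X⁻¹ * T) := by
      rw [Matrix.trace_mul_comm, Matrix.mul_assoc]
    calc trace Z = trace (X⁻¹ - X⁻¹ * T * X⁻¹ + X⁻¹ * T * Z * T * X⁻¹) := by rw [← hid]
      _ = trace X⁻¹ - trace (X⁻¹ * T * X⁻¹) + trace (X⁻¹ * T * Z * T * X⁻¹) := by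
          rw [Matrix.trace_add, Matrix.trace_sub]
      _ = trace X⁻¹ - trace (X⁻¹ * X⁻¹ * T) + trace (Bᵀ * Z * B) := by rw [h1, hR]
  · rw [ex_trace_form]
    have h1 : (1 / d) * fro B ≤ ∑ j, (fun i => B i j) ⬝ᵥ (Z *ᵥ (fun i => B i j)) := by
      rw [ex_fro_cols B, Finset.mul_sum]
      exact Finset.sum_le_sum fun j _ => hZb.2.1 _
    refine le_trans ?_ h1
    have h2 : fro T / (b ^ 2 * d) = (1 / d) * ((1 / b ^ 2) * fro T) := by
      field_simp
    rw [h2]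
    exact mul_le_mul_of_nonneg_left hfl (by positivity)
  · rw [ex_trace_form]
    have h1 : ∑ j, (fun i => B i j) ⬝ᵥ (Z *ᵥ (fun i => B i j)) ≤ (1 / c) * fro B := by
      rw [ex_fro_cols B, Finset.mul_sum]
      exact Finset.sum_le_sum fun j _ => hZb.2.2 _
    refine le_trans h1 ?_
    have h2 : fro T / (a ^ 2 * c) = (1 / c) * ((1 / a ^ 2) * fro T) := by
      field_simp
    rw [h2]
    exact mul_le_mul_of_nonneg_left hfu (by positivity)

end HCR
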