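import Mathlib
import Pool.Agent.Lib_helper88.HCR.Defs
import Pool.Agent.Lib_helper88.HCR.ex

set_option autoImplicit false

/-! Block f0 (project HCR, helper53). -/

namespace HCR

open Finset Matrix

theorem F_bounds {v : ℕ} (M a b : ℝ) (hM : 0 < M) (ha : 0 < a) (hb : 0 < b)
    (X : Matrix (Fin v) (Fin v) ℝ) (hX : X.IsSymm) (h : Btw a b (WM M X)) :
    (v : ℝ) / M + trace X / M ^ 2 + fro X / (b * M ^ 2) ≤ tr1 M X ∧
      tr1 M X ≤ (v : ℝ) / M + trace X / M ^ 2 + fro X / (a * M ^ 2) := by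
  have hX1 : Btw M M (M • (1 : Matrix (Fin v) (Fin v) ℝ)) := by
    refine ⟨?_, fun x => ?_, fun x => ?_⟩
    · unfold Matrix.IsSymm
      simp
    · rw [Matrix.smul_mulVec, Matrix.one_mulVec, dotProduct_smul, smul_eq_mul]
    · rw [Matrix.smul_mulVec, Matrix.one_mulVec, dotProduct_smul, smul_eq_mul]
  have hWM : M • (1 : Matrix (Fin v) (Fin v) ℝ) + (-X) = WM M X := by rw [WM, sub_eq_add_neg]
  obtain ⟨R, hR, h1, h2⟩ := expand M M a b hM hM ha hb (M • (1 : Matrix (Fin v) (Fin v) ℝ)) (-X)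
    hX1 hX.neg (by rw [hWM]; exact h)
  have hinv : (M • (1 : Matrix (Fin v) (Fin v) ℝ))⁻¹ = (M⁻¹) • (1 : Matrix (Fin v) (Fin v) ℝ) := by
    refine Matrix.inv_eq_right_inv ?_
    rw [Matrix.smul_mul, Matrix.one_mul, smul_smul, mul_inv_cancel₀ hM.ne', one_smul]
  have hfro : fro (-X) = fro X := by
    unfold fro
    refine Finset.sum_congr rfl fun i _ => Finset.sum_congr rfl fun j _ => ?_
    rw [Matrix.neg_apply]; ring
  have ht1 : trace ((M⁻¹) • (1 : Matrix (Fin v) (Fin v) ℝ)) = (v : ℝ) / M := by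
    rw [Matrix.trace_smul, Matrix.trace_one, Fintype.card_fin, smul_eq_mul]
    ring
  have ht2 : trace ((M⁻¹) • (1 : Matrix (Fin v) (Fin v) ℝ) *
      (M⁻¹) • (1 : Matrix (Fin v) (Fin v) ℝ) * (-X)) = -(trace X / M ^ 2) := by
    rw [Matrix.smul_mul, Matrix.one_mul, smul_smul, Matrix.smul_mul, Matrix.one_mul,
      Matrix.trace_smul, Matrix.trace_neg, smul_eq_mul]
    field_simp
  rw [hWM, hinv, ht1, ht2] at hR
  rw [hfro] at h1 h2
  have e1 : fro X / (M ^ 2 * b) = fro X / (b * M ^ 2) := by rw [mul_comm]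
  have e2 : fro X / (M ^ 2 * a) = fro X / (a * M ^ 2) := by rw [mul_comm]
  rw [e1] at h1
  rw [e2] at h2
  unfold tr1
  rw [hR]
  constructor
  · linarith
  · linarith

end HCR
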