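import Mathlib
import Pool.Agent.Lib_helper88.HCR.Defs

set_option autoImplicit false

namespace HCR

open Finset Matrix

theorem fn_entry {v : ℕ} (E : Matrix (Fin v) (Fin v) ℤ) (i j : Fin v) : E i j ^ 2 ≤ sq E := by
  unfold sq
  calc E i j ^ 2 ≤ ∑ j, E i j ^ 2 :=
        Finset.single_le_sum (f := fun j => E i j ^ 2) (fun j _ => sq_nonneg _) (mem_univ j)
    _ ≤ ∑ i, ∑ j, E i j ^ 2 :=
        Finset.single_le_sum (f := fun i => ∑ j, E i j ^ 2)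
          (fun i _ => Finset.sum_nonneg fun j _ => sq_nonneg _) (mem_univ i)

theorem fn_finite (v d : ℕ) :
    {E : Matrix (Fin v) (Fin v) ℤ | Cls d E ∧ sq E ≤ 4 * (v : ℤ) ^ 2}.Finite := by
  have h1 : {E : Fin v → Fin v → ℤ | ∀ i, E i ∈ {r : Fin v → ℤ | ∀ j, r j ∈
      Set.Icc (-(2 * (v : ℤ))) (2 * (v : ℤ))}}.Finite :=
    Set.Finite.pi' fun _ => Set.Finite.pi' fun _ => Set.finite_Icc _ _
  refine Set.Finite.subset h1 fun E hE i j => ?_
  have h2 : E i j ^ 2 ≤ (2 * (v : ℤ)) ^ 2 := by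
    calc E i j ^ 2 ≤ sq E := fn_entry E i j
      _ ≤ 4 * (v : ℤ) ^ 2 := hE.2
      _ = (2 * (v : ℤ)) ^ 2 := by ring
  exact abs_le.1 (abs_le_of_sq_le_sq h2 (by positivity))

/-- a real function attains its minimum on the (finite) class, if this is not empty -/
theorem exists_min {v : ℕ} (d : ℕ) (f : Matrix (Fin v) (Fin v) ℤ → ℝ)
    (hne : ∃ E : Matrix (Fin v) (Fin v) ℤ, Cls d E ∧ sq E ≤ 4 * (v : ℤ) ^ 2) :
    ∃ E : Matrix (Fin v) (Fin v) ℤ, (Cls d E ∧ sq E ≤ 4 * (v : ℤ) ^ 2) ∧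
      ∀ E' : Matrix (Fin v) (Fin v) ℤ, Cls d E' → sq E' ≤ 4 * (v : ℤ) ^ 2 → f E ≤ f E' := by
  obtain ⟨E0, hE0⟩ := hne
  obtain ⟨E, hE, hmin⟩ := Set.exists_min_image _ f (fn_finite v d) ⟨E0, hE0⟩
  exact ⟨E, hE, fun E' h1 h2 => hmin E' ⟨h1, h2⟩⟩

theorem reg_cls {v : ℕ} (d : ℕ) (G : Matrix (Fin v) (Fin v) ℤ) (hG : Reg d G) : Cls d G :=
  ⟨hG.symm, hG.row, fun i => (hG.diag i).ge, fun i => by rw [hG.diag i]; exact Even.zero⟩

theorem fn_sum {v : ℕ} (d : ℕ) (E : Matrix (Fin v) (Fin v) ℤ)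
    (h : ∀ i, ∑ j, E i j = (d : ℤ)) : ∑ i, ∑ j, E i j = (v : ℤ) * d := by
  rw [Finset.sum_congr rfl fun i _ => h i, Finset.sum_const, Finset.card_univ, Fintype.card_fin,
    nsmul_eq_mul]

theorem reg_sq {v : ℕ} (d : ℕ) (G : Matrix (Fin v) (Fin v) ℤ) (hG : Reg d G) :
    sq G = (v : ℤ) * d := by
  rw [← fn_sum d G hG.row]
  unfold sq
  refine Finset.sum_congr rfl fun i _ => Finset.sum_congr rfl fun j _ => ?_
  rcases hG.zo i j with h | h <;> rw [h] <;> norm_num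

theorem fn_int (x : ℤ) : x ≤ x ^ 2 := by
  rcases le_or_gt x 0 with h | h
  · exact le_trans h (sq_nonneg x)
  · nlinarith

/-- integer entries: `sq` is at least the sum, equality only for `0,1`-matrices -/
theorem sq_ge {v : ℕ} (d : ℕ) (E : Matrix (Fin v) (Fin v) ℤ) (hE : Cls d E) :
    (v : ℤ) * d ≤ sq E ∧ (sq E = (v : ℤ) * d → (∀ i, E i i = 0) → Reg d E) := by
  have hrow : ∀ i ∈ (univ : Finset (Fin v)), ∑ j, E i j ≤ ∑ j, E i j ^ 2 := fun i _ =>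
    Finset.sum_le_sum fun j _ => fn_int (E i j)
  rw [← fn_sum d E hE.row]
  refine ⟨Finset.sum_le_sum hrow, fun heq hdiag => ⟨hE.symm, hE.row, hdiag, fun i j => ?_⟩⟩
  have h1 := (Finset.sum_eq_sum_iff_of_le hrow).1 heq.symm i (mem_univ i)
  have h2 := (Finset.sum_eq_sum_iff_of_le (s := (univ : Finset (Fin v)))
    (f := fun j => E i j) (g := fun j => E i j ^ 2)
    fun j _ => fn_int (E i j)).1 h1 j (mem_univ j)
  have h3 : E i j * (E i j - 1) = 0 := by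
    have h2' : E i j = E i j ^ 2 := h2
    linarith
  rcases mul_eq_zero.1 h3 with h | h
  · exact Or.inl h
  · exact Or.inr (by linarith)

theorem fro_rl {v : ℕ} (E : Matrix (Fin v) (Fin v) ℤ) : fro (rl E) = (sq E : ℝ) := by
  unfold fro sq rl
  push_cast
  rfl

theorem rl_symm {v : ℕ} (E : Matrix (Fin v) (Fin v) ℤ) (hE : E.IsSymm) : (rl E).IsSymm := by
  refine Matrix.IsSymm.ext fun i j => ?_
  show ((E j i : ℤ) : ℝ) = ((E i j : ℤ) : ℝ)
  rw [hE.apply]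

end HCR
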