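import Mathlib
import Pool.Agent.Lib_helper88.HCR.Defs

set_option autoImplicit false

namespace HCR

open Finset Matrix

theorem pd_expand {v : ℕ} (X : Matrix (Fin v) (Fin v) ℝ) (hX : X.IsSymm) (x y : Fin v → ℝ)
    (t : ℝ) : (x + t • y) ⬝ᵥ (X *ᵥ (x + t • y)) =
      x ⬝ᵥ (X *ᵥ x) + 2 * t * (y ⬝ᵥ (X *ᵥ x)) + t ^ 2 * (y ⬝ᵥ (X *ᵥ y)) := by
  have h1 : x ⬝ᵥ (X *ᵥ y) = y ⬝ᵥ (X *ᵥ x) := by
    rw [dotProduct_mulVec, ← mulVec_transpose, hX.eq, dotProduct_comm]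
  rw [mulVec_add, mulVec_smul, add_dotProduct, dotProduct_add, dotProduct_add, smul_dotProduct,
    smul_dotProduct, dotProduct_smul, dotProduct_smul, h1]
  simp only [smul_eq_mul]
  ring

theorem pd_kernel {v : ℕ} (X : Matrix (Fin v) (Fin v) ℝ) (hX : X.IsSymm)
    (h0 : ∀ x : Fin v → ℝ, 0 ≤ x ⬝ᵥ (X *ᵥ x)) (x : Fin v → ℝ) (hx : x ⬝ᵥ (X *ᵥ x) = 0) :
    X *ᵥ x = 0 := by
  by_contra hne
  have hs0 : 0 ≤ (X *ᵥ x) ⬝ᵥ (X *ᵥ x) := by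
    unfold dotProduct
    exact Finset.sum_nonneg fun i _ => mul_self_nonneg _
  have hs : 0 < (X *ᵥ x) ⬝ᵥ (X *ᵥ x) := by
    refine lt_of_le_of_ne hs0 fun h => hne ?_
    exact dotProduct_self_eq_zero.1 h.symm
  obtain ⟨s, hsdef⟩ : ∃ s, s = (X *ᵥ x) ⬝ᵥ (X *ᵥ x) := ⟨_, rfl⟩
  obtain ⟨q, hq⟩ : ∃ q, q = (X *ᵥ x) ⬝ᵥ (X *ᵥ (X *ᵥ x)) := ⟨_, rfl⟩
  have hq0 : 0 ≤ q := by rw [hq]; exact h0 _
  have key := h0 (x + (-(s / (q + 1))) • (X *ᵥ x))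
  rw [pd_expand X hX, hx, ← hsdef, ← hq] at key
  rw [← hsdef] at hs
  have hq1 : 0 < q + 1 := by linarith
  have e : 0 + 2 * (-(s / (q + 1))) * s + (-(s / (q + 1))) ^ 2 * q =
      -(s ^ 2 * (q + 2)) / (q + 1) ^ 2 := by
    field_simp
    ring
  rw [e] at key
  have : -(s ^ 2 * (q + 2)) / (q + 1) ^ 2 < 0 := by
    apply div_neg_of_neg_of_pos
    · have : 0 < s ^ 2 * (q + 2) := by positivity
      linarith
    · positivity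
  linarith

theorem pd_pos {v : ℕ} (X : Matrix (Fin v) (Fin v) ℝ) (hX : X.IsSymm)
    (h0 : ∀ x : Fin v → ℝ, 0 ≤ x ⬝ᵥ (X *ᵥ x)) (hdet : X.det ≠ 0) (x : Fin v → ℝ) (hx : x ≠ 0) :
    0 < x ⬝ᵥ (X *ᵥ x) := by
  refine lt_of_le_of_ne (h0 x) fun h => hx ?_
  have h1 := pd_kernel X hX h0 x h.symm
  have h2 : X⁻¹ *ᵥ (X *ᵥ x) = x := by
    rw [mulVec_mulVec, nonsing_inv_mul X (isUnit_iff_ne_zero.2 hdet), one_mulVec]
  rw [h1, mulVec_zero] at h2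
  exact h2.symm

theorem pd_compact (v : ℕ) : IsCompact {x : Fin v → ℝ | x ⬝ᵥ x = 1} := by
  have hcl : IsClosed {x : Fin v → ℝ | x ⬝ᵥ x = 1} := by
    apply isClosed_eq _ continuous_const
    unfold dotProduct
    fun_prop
  refine Metric.isCompact_of_isClosed_isBounded hcl ?_
  refine (Metric.isBounded_closedBall (x := (0 : Fin v → ℝ)) (r := 1)).subset ?_
  intro x hx
  have hx' : x ⬝ᵥ x = 1 := hx
  rw [mem_closedBall_zero_iff, pi_norm_le_iff_of_nonneg zero_le_one]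
  intro i
  rw [Real.norm_eq_abs]
  have h1 : x i * x i ≤ x ⬝ᵥ x := by
    unfold dotProduct
    exact Finset.single_le_sum (f := fun i => x i * x i) (fun j _ => mul_self_nonneg _)
      (Finset.mem_univ i)
  rw [hx'] at h1
  exact abs_le_one_iff_mul_self_le_one.2 h1

/-- an invertible positive semidefinite matrix has a positive lower bound -/
theorem exists_btw {v : ℕ} (X : Matrix (Fin v) (Fin v) ℝ) (hX : X.IsSymm)
    (h0 : ∀ x : Fin v → ℝ, 0 ≤ x ⬝ᵥ (X *ᵥ x)) (hdet : X.det ≠ 0) (b : ℝ)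
    (hb : ∀ x : Fin v → ℝ, x ⬝ᵥ (X *ᵥ x) ≤ b * (x ⬝ᵥ x)) : ∃ a : ℝ, 0 < a ∧ Btw a b X := by
  have hcont : Continuous (fun x : Fin v → ℝ => x ⬝ᵥ (X *ᵥ x)) := by
    unfold mulVec dotProduct
    fun_prop
  obtain ⟨a, ha, hmin⟩ : ∃ a : ℝ, 0 < a ∧ ∀ x : Fin v → ℝ, x ⬝ᵥ x = 1 → a ≤ x ⬝ᵥ (X *ᵥ x) := by
    by_cases hne : ({x : Fin v → ℝ | x ⬝ᵥ x = 1}).Nonempty
    · obtain ⟨x0, hx0, hm⟩ := (pd_compact v).exists_isMinOn hne hcont.continuousOn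
      refine ⟨x0 ⬝ᵥ (X *ᵥ x0), pd_pos X hX h0 hdet x0 ?_, fun x hx => hm hx⟩
      rintro rfl
      have hx0' : (0 : Fin v → ℝ) ⬝ᵥ 0 = 1 := hx0
      rw [dotProduct_zero] at hx0'
      exact zero_ne_one hx0'
    · exact ⟨1, one_pos, fun x hx => absurd ⟨x, hx⟩ hne⟩
  refine ⟨a, ha, hX, ?_, hb⟩
  intro x
  by_cases hx : x = 0
  · rw [hx, zero_dotProduct, zero_dotProduct, mul_zero]
  · have hp : 0 < x ⬝ᵥ x := by
      have h1 : 0 ≤ x ⬝ᵥ x := by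
        unfold dotProduct
        exact Finset.sum_nonneg fun i _ => mul_self_nonneg _
      exact lt_of_le_of_ne h1 fun h => hx (dotProduct_self_eq_zero.1 h.symm)
    obtain ⟨s, hs⟩ : ∃ s, s = Real.sqrt (x ⬝ᵥ x) := ⟨_, rfl⟩
    have hs0 : 0 < s := by rw [hs]; exact Real.sqrt_pos.2 hp
    have hss : s * s = x ⬝ᵥ x := by rw [hs]; exact Real.mul_self_sqrt hp.le
    have h1 : (s⁻¹ • x) ⬝ᵥ (s⁻¹ • x) = 1 := by
      rw [smul_dotProduct, dotProduct_smul, smul_eq_mul, smul_eq_mul, ← hss]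
      field_simp
    have h2 := hmin _ h1
    rw [mulVec_smul, smul_dotProduct, dotProduct_smul, smul_eq_mul, smul_eq_mul] at h2
    rw [← hss]
    have h3 : s * s * (s⁻¹ * (s⁻¹ * (x ⬝ᵥ (X *ᵥ x)))) = x ⬝ᵥ (X *ᵥ x) := by
      field_simp
    have h4 := mul_le_mul_of_nonneg_left h2 (mul_pos hs0 hs0).le
    rw [h3] at h4
    linarith

end HCR
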