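import Mathlib
import Pool.Agent.Lib_helper88.HCR.Defs

set_option autoImplicit false

namespace HCR

open Finset Matrix

/-- parameters: `v r = b k` -/
theorem des_count {v b k r : ℕ} (N : Matrix (Fin v) (Fin b) ℕ) (hN : IsDes k r N) :
    v * r = b * k := by
  have h1 : ∑ i, ∑ j, N i j = v * r := by
    rw [Finset.sum_congr rfl (fun i _ => hN.2 i)]
    simp
  have h2 : ∑ j, ∑ i, N i j = b * k := by
    rw [Finset.sum_congr rfl (fun j _ => hN.1 j)]
    simp
  rw [← h1, ← h2, Finset.sum_comm]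

/-- the matrix `E` of a design is in the class -/
theorem Ex_cls {v b k r d : ℕ} (lam : ℤ) (N : Matrix (Fin v) (Fin b) ℕ) (hN : IsDes k r N)
    (hp : (r : ℤ) * k - D0 v b k r = lam * ((v : ℤ) - 1) + d) :
    Cls d (Ex lam (D0 v b k r - lam) N) := by
  have hrow : ∀ i, ∑ l, (N i l : ℤ) = r := fun i => by exact_mod_cast hN.2 i
  have hcol : ∀ l, ∑ i, (N i l : ℤ) = k := fun l => by exact_mod_cast hN.1 l
  have hdiag : ∀ i, Ex lam (D0 v b k r - lam) N i i =
      ∑ l, ((N i l : ℤ) - ((k / v : ℕ) : ℤ)) * ((N i l : ℤ) - ((k / v : ℕ) : ℤ) - 1) := by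
    intro i
    have h1 : ∑ l : Fin b, ((N i l : ℤ) - ((k / v : ℕ) : ℤ)) *
        ((N i l : ℤ) - ((k / v : ℕ) : ℤ) - 1) =
        (∑ l, (N i l : ℤ) * (N i l : ℤ)) - (2 * ((k / v : ℕ) : ℤ) + 1) * (∑ l, (N i l : ℤ)) +
          ∑ _l : Fin b, ((k / v : ℕ) : ℤ) * (((k / v : ℕ) : ℤ) + 1) := by
      rw [Finset.mul_sum, ← Finset.sum_sub_distrib, ← Finset.sum_add_distrib]
      refine Finset.sum_congr rfl (fun l _ => ?_)
      ring
    rw [h1, hrow]
    simp only [Ex, if_true, sum_const, card_univ, Fintype.card_fin, nsmul_eq_mul]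
    unfold D0
    ring
  refine ⟨?_, ?_, ?_, ?_⟩
  · ext i j
    simp only [Matrix.transpose_apply, Ex]
    have h1 : ∑ l, (N j l : ℤ) * (N i l : ℤ) = ∑ l, (N i l : ℤ) * (N j l : ℤ) :=
      Finset.sum_congr rfl (fun l _ => mul_comm _ _)
    rw [h1]
    by_cases h : i = j
    · subst h; rfl
    · rw [if_neg h, if_neg (Ne.symm h)]
  · intro i
    simp only [Ex, Finset.sum_sub_distrib]
    rw [Finset.sum_comm]
    have h1 : ∀ l, ∑ j, (N i l : ℤ) * (N j l : ℤ) = (N i l : ℤ) * k := fun l => by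
      rw [← Finset.mul_sum, hcol]
    rw [Finset.sum_congr rfl (fun l _ => h1 l), ← Finset.sum_mul, hrow]
    simp only [sum_const, card_univ, Fintype.card_fin, nsmul_eq_mul, Finset.sum_ite_eq, mem_univ,
      if_true]
    linarith
  · intro i
    rw [hdiag]
    refine Finset.sum_nonneg (fun l _ => ?_)
    rcases le_or_gt ((N i l : ℤ)) ((k / v : ℕ) : ℤ) with h | h
    · nlinarith
    · have : ((k / v : ℕ) : ℤ) + 1 ≤ (N i l : ℤ) := h
      nlinarith
  · intro i
    rw [hdiag]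
    refine Finset.even_sum _ (fun l _ => ?_)
    exact Int.even_mul_pred_self _

end HCR
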