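import Mathlib
import Pool.Agent.Lib_helper88.HCR.Defs

set_option autoImplicit false

namespace HCR

open Finset Matrix

/-- `S = r k - D0` in terms of `q = k / v`, `k' = k % v`, `r' = r - q b` -/
theorem D0_id {v b k r : ℕ} (hv : 1 ≤ v) (hc : v * r = b * k) :
    ∃ r' : ℕ, r = (k / v) * b + r' ∧ v * r' = b * (k % v) ∧
      (r : ℤ) * k - D0 v b k r = (r' : ℤ) * (((k % v : ℕ) : ℤ) - 1) +
        ((v : ℤ) - 1) * (2 * ((k / v : ℕ) : ℤ) * r' + ((k / v : ℕ) : ℤ) ^ 2 * b) ∧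
      D0 v b k r = ((k / v : ℕ) : ℤ) ^ 2 * b + (2 * ((k / v : ℕ) : ℤ) + 1) * r' := by
  have hk : v * (k / v) + k % v = k := Nat.div_add_mod k v
  set q := k / v with hq
  set k' := k % v with hk'
  have h1 : q * b ≤ r := by
    have : v * (q * b) ≤ v * r := by
      rw [hc, ← hk]
      nlinarith [Nat.zero_le (b * k')]
    exact Nat.le_of_mul_le_mul_left this (by omega)
  obtain ⟨r', hr'⟩ := Nat.exists_eq_add_of_le h1
  have h2 : v * r' = b * k' := by
    have h3 : v * (q * b + r') = b * (v * q + k') := by rw [← hr', hc, hk]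
    nlinarith
  have h2' : (v : ℤ) * r' = b * k' := by exact_mod_cast h2
  refine ⟨r', hr', h2, ?_, ?_⟩
  · unfold D0
    rw [← hq, hr']
    have hkz : (k : ℤ) = v * q + k' := by exact_mod_cast hk.symm
    rw [hkz]
    push_cast
    linear_combination (-2 * (q : ℤ)) * h2' + (q : ℤ) * h2'
  · unfold D0
    rw [← hq, hr']
    push_cast
    ring

/-- `lam` is large when `b ≥ C v ^ 2` -/
theorem lam_ge {v b k r d : ℕ} (C : ℕ) (hv : 2 ≤ v) (hk : 2 ≤ k) (hc : v * r = b * k)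
    (hb : C * v ^ 2 ≤ b) (lam : ℤ)
    (hp : (r : ℤ) * k - D0 v b k r = lam * ((v : ℤ) - 1) + d) (hd : d + 2 ≤ v) :
    2 * (C : ℤ) - 1 ≤ lam := by
  obtain ⟨r', hr, h1, h2, h3⟩ := D0_id (by omega) hc
  rw [h2] at hp
  have hk' : v * (k / v) + k % v = k := Nat.div_add_mod k v
  set q := k / v with hq
  set k' := k % v with hk''
  have hvz : (2 : ℤ) ≤ v := by exact_mod_cast hv
  have hdz : (d : ℤ) + 2 ≤ v := by exact_mod_cast hd
  have hd0 : (0 : ℤ) ≤ d := by positivity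
  have hbz : (C : ℤ) * v ^ 2 ≤ b := by exact_mod_cast hb
  have hC0 : (0 : ℤ) ≤ C := by positivity
  rcases Nat.eq_zero_or_pos q with h0 | h0
  · -- `k < v`
    have hk2 : k' = k := by rw [h0] at hk'; omega
    have hqz : (q : ℤ) = 0 := by exact_mod_cast h0
    rw [hqz, hk2] at hp
    have h1' : (v : ℤ) * r' = b * k := by
      have := h1
      rw [hk2] at this
      exact_mod_cast this
    have hkz : (2 : ℤ) ≤ k := by exact_mod_cast hk
    by_contra hcon
    rw [not_le] at hcon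
    have h4 : lam + 1 ≤ 2 * C - 1 := by omega
    have h5 : (r' : ℤ) * (k - 1) = lam * (v - 1) + d := by linarith
    have h6 : (r' : ℤ) * (k - 1) < (2 * C - 1) * (v - 1) := by
      rw [h5]
      nlinarith
    have h7 : (v : ℤ) * (r' * (k - 1)) = b * (k * (k - 1)) := by
      rw [← mul_assoc, h1']; ring
    have h8 : (2 : ℤ) ≤ k * (k - 1) := by nlinarith
    have h9 : (b : ℤ) * 2 ≤ v * (r' * (k - 1)) := by
      rw [h7]
      exact mul_le_mul_of_nonneg_left h8 (by positivity)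
    have h10 : (v : ℤ) * (r' * (k - 1)) < v * ((2 * C - 1) * (v - 1)) :=
      mul_lt_mul_of_pos_left h6 (by linarith)
    nlinarith
  · have hqz : (1 : ℤ) ≤ q := by exact_mod_cast h0
    have hr0 : (0 : ℤ) ≤ r' := by positivity
    have h4 : (0 : ℤ) ≤ r' * (k' - 1) := by
      rcases Nat.eq_zero_or_pos k' with hz | hz
      · rw [hz, mul_zero] at h1
        have : r' = 0 := by
          rcases Nat.mul_eq_zero.1 h1 with h | h
          · omega
          · exact h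
        rw [this]; simp
      · have : (1 : ℤ) ≤ k' := by exact_mod_cast hz
        exact mul_nonneg hr0 (by linarith)
    have h5 : (b : ℤ) ≤ 2 * q * r' + q ^ 2 * b := by
      have hb0 : (0 : ℤ) ≤ b := by positivity
      have hq2 : (1 : ℤ) ≤ (q : ℤ) ^ 2 := by nlinarith
      have : (1 : ℤ) * b ≤ q ^ 2 * b := mul_le_mul_of_nonneg_right hq2 hb0
      have : (0 : ℤ) ≤ 2 * q * r' := by positivity
      linarith
    have h6 : (b : ℤ) ≤ lam := by
      by_contra hcon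
      rw [not_le] at hcon
      have h7 : lam * ((v : ℤ) - 1) + d < b * (v - 1) := by nlinarith
      have h8 : (b : ℤ) * (v - 1) ≤ (v - 1) * (2 * q * r' + q ^ 2 * b) := by nlinarith
      linarith
    have h9 : (4 : ℤ) ≤ (v : ℤ) ^ 2 := by nlinarith
    have h10 : (C : ℤ) * 4 ≤ C * v ^ 2 := mul_le_mul_of_nonneg_left h9 hC0
    linarith

/-- parity -/
theorem vd_even {v b k r d : ℕ} (hv : 2 ≤ v) (hc : v * r = b * k) (lam : ℤ)
    (hp : (r : ℤ) * k - D0 v b k r = lam * ((v : ℤ) - 1) + d) : 2 ∣ v * d := by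
  obtain ⟨r', hr, h1, h2, h3⟩ := D0_id (by omega) hc
  rw [h2] at hp
  have h1' : (v : ℤ) * r' = b * ((k % v : ℕ) : ℤ) := by exact_mod_cast h1
  have e1 : Even (((k % v : ℕ) : ℤ) * (((k % v : ℕ) : ℤ) - 1)) := Int.even_mul_pred_self _
  have e2 : Even ((v : ℤ) * ((v : ℤ) - 1)) := Int.even_mul_pred_self _
  obtain ⟨x, hx⟩ := e1
  obtain ⟨y, hy⟩ := e2
  have h4 : ((v * d : ℕ) : ℤ) = 2 * (b * x + y * (2 * ((k / v : ℕ) : ℤ) * r' +
      ((k / v : ℕ) : ℤ) ^ 2 * b) - lam * y) := by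
    push_cast
    have h5 : (v : ℤ) * d = v * (r' * (((k % v : ℕ) : ℤ) - 1) +
        ((v : ℤ) - 1) * (2 * ((k / v : ℕ) : ℤ) * r' + ((k / v : ℕ) : ℤ) ^ 2 * b)) -
        lam * (v * (v - 1)) := by
      rw [hp]; ring
    rw [hy] at h5
    have h6 : (v : ℤ) * (r' * (((k % v : ℕ) : ℤ) - 1) +
        ((v : ℤ) - 1) * (2 * ((k / v : ℕ) : ℤ) * r' + ((k / v : ℕ) : ℤ) ^ 2 * b)) =
        b * (((k % v : ℕ) : ℤ) * (((k % v : ℕ) : ℤ) - 1)) +
        (v * (v - 1)) * (2 * ((k / v : ℕ) : ℤ) * r' + ((k / v : ℕ) : ℤ) ^ 2 * b) := by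
      linear_combination (((k % v : ℕ) : ℤ) - 1) * h1'
    rw [h6, hx, hy] at h5
    push_cast at h5 ⊢
    rw [h5]
    ring
  have h7 : (2 : ℤ) ∣ ((v * d : ℕ) : ℤ) := ⟨_, h4⟩
  exact_mod_cast h7

/-- `2 (D0 - lam) ≤ r k`, used for `M - E ≤ 2 M` -/
theorem rho_le {v b k r d : ℕ} (hv : 2 ≤ v) (hk : 2 ≤ k) (hc : v * r = b * k) (lam : ℤ)
    (hp : (r : ℤ) * k - D0 v b k r = lam * ((v : ℤ) - 1) + d) (hd : d + 2 ≤ v) :
    2 * (D0 v b k r - lam) ≤ (r : ℤ) * k ∧ lam * v ≤ (r : ℤ) * k := by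
  obtain ⟨r', hr, h1, h2, h3⟩ := D0_id (by omega) hc
  have hp' := hp
  rw [h2] at hp'
  have hk' : v * (k / v) + k % v = k := Nat.div_add_mod k v
  have hkv : k % v < v := Nat.mod_lt _ (by omega)
  set q := k / v with hq
  set k' := k % v with hk''
  have hvz : (2 : ℤ) ≤ v := by exact_mod_cast hv
  have hdz : (d : ℤ) + 2 ≤ v := by exact_mod_cast hd
  have hd0 : (0 : ℤ) ≤ d := by positivity
  have hr0 : (0 : ℤ) ≤ r' := by positivity
  have hq0 : (0 : ℤ) ≤ q := by positivity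
  have hb0 : (0 : ℤ) ≤ b := by positivity
  have hk0 : (0 : ℤ) ≤ k' := by positivity
  have hkv' : (k' : ℤ) < v := by exact_mod_cast hkv
  have h1' : (v : ℤ) * r' = b * k' := by exact_mod_cast h1
  have h4 : (0 : ℤ) ≤ r' * (k' - 1) := by
    rcases Nat.eq_zero_or_pos k' with hz | hz
    · rw [hz, mul_zero] at h1
      have : r' = 0 := by
        rcases Nat.mul_eq_zero.1 h1 with h | h
        · omega
        · exact h
      rw [this]; simp
    · have : (1 : ℤ) ≤ k' := by exact_mod_cast hz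
      exact mul_nonneg hr0 (by linarith)
  have hlam' : 2 * (q : ℤ) * r' + q ^ 2 * b ≤ lam := by
    by_contra hcon
    rw [not_le] at hcon
    have h5 : lam + 1 ≤ 2 * (q : ℤ) * r' + q ^ 2 * b := by omega
    nlinarith
  constructor
  · have h5 : (r : ℤ) * k - 2 * D0 v b k r + 2 * lam = (r' : ℤ) * (k' - 1) +
        ((v : ℤ) - 1) * (2 * q * r' + q ^ 2 * b) - (q ^ 2 * b + (2 * q + 1) * r') + 2 * lam := by
      rw [← h3, ← h2]; ring
    suffices h6 : 0 ≤ (r : ℤ) * k - 2 * D0 v b k r + 2 * lam by linarith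
    rw [h5]
    rcases Nat.eq_zero_or_pos q with h0 | h0
    · have hk2 : k' = k := by rw [h0] at hk'; omega
      have hqz : (q : ℤ) = 0 := by exact_mod_cast h0
      rw [hqz] at hlam' ⊢
      have hkz : (2 : ℤ) ≤ k' := by rw [hk2]; exact_mod_cast hk
      nlinarith
    · have hqz : (1 : ℤ) ≤ q := by exact_mod_cast h0
      have h7 : 0 ≤ 2 * (q : ℤ) * r' + q ^ 2 * b := by positivity
      have h8 : (r' : ℤ) ≤ 2 * q * r' := by nlinarith
      have h9 : 0 ≤ (q : ℤ) ^ 2 * b := by positivity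
      have h10 : (2 * (q : ℤ) * r' + q ^ 2 * b) ≤
        ((v : ℤ) - 1) * (2 * q * r' + q ^ 2 * b) := by nlinarith
      nlinarith
  · -- `lam (v - 1) ≤ S` and `v D0 - r k = k' (b - r')`
    have hk2 : (k : ℤ) = v * q + k' := by exact_mod_cast hk'.symm
    have hr2 : (r : ℤ) = q * b + r' := by exact_mod_cast hr
    have h5 : (v : ℤ) * D0 v b k r - r * k = k' * (b - r') := by
      rw [h3, hk2, hr2]
      linear_combination ((q : ℤ) + 1) * h1'
    have h6 : (r' : ℤ) ≤ b := by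
      by_contra hcon
      rw [not_le] at hcon
      nlinarith
    have h7 : 0 ≤ (k' : ℤ) * (b - r') := mul_nonneg hk0 (by linarith)
    have h8 : lam * ((v : ℤ) - 1) ≤ r * k - D0 v b k r := by linarith
    have h9 : lam * v * ((v : ℤ) - 1) ≤ r * k * (v - 1) := by nlinarith
    exact le_of_mul_le_mul_right h9 (by linarith)

end HCR
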