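import Mathlib
import Pool.Agent.Lib_helper88.HCR.Defs

set_option autoImplicit false

namespace HCR

open Finset Matrix

/-- `k C = (M - E) - lam J` with `M = lam v + d` -/
theorem Info_eq {v b k r d : ℕ} (hk : 1 ≤ k) (lam : ℤ) (N : Matrix (Fin v) (Fin b) ℕ)
    (hp : (r : ℤ) * k - D0 v b k r = lam * ((v : ℤ) - 1) + d) :
    (k : ℝ) • Info k r N = WM ((lam : ℝ) * v + d) (rl (Ex lam (D0 v b k r - lam) N)) -
      (lam : ℝ) • Matrix.of (fun (_ : Fin v) (_ : Fin v) => (1 : ℝ)) := by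
  have hk0 : (k : ℝ) ≠ 0 := by
    have : k ≠ 0 := by omega
    exact_mod_cast this
  have hp' : (r : ℝ) * (k : ℝ) - ((D0 v b k r : ℤ) : ℝ) = (lam : ℝ) * ((v : ℝ) - 1) + (d : ℝ) := by
    exact_mod_cast hp
  have e1 : ∀ i j, (rl (Ex lam (D0 v b k r - lam) N)) i j =
      (∑ l, (N i l : ℝ) * (N j l : ℝ)) - (lam : ℝ) -
        if i = j then (((D0 v b k r : ℤ) : ℝ) - (lam : ℝ)) else 0 := by
    intro i j
    simp only [rl, Ex, Matrix.map_apply]
    split_ifs <;> push_cast <;> rfl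
  have e2 : ∀ i j, (Info k r N) i j = (r : ℝ) * (if i = j then 1 else 0) -
      (1 / (k : ℝ)) * ∑ l, (N i l : ℝ) * (N j l : ℝ) := by
    intro i j
    simp only [Info, Matrix.sub_apply, Matrix.smul_apply, smul_eq_mul, Matrix.one_apply,
      Matrix.mul_apply, Matrix.transpose_apply, Matrix.map_apply]
  ext i j
  rw [Matrix.smul_apply, e2, Matrix.sub_apply, WM, Matrix.sub_apply, Matrix.smul_apply,
    Matrix.smul_apply, Matrix.of_apply, e1, Matrix.one_apply]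
  simp only [smul_eq_mul]
  have e3 : (k : ℝ) * ((1 / (k : ℝ)) * ∑ l, (N i l : ℝ) * (N j l : ℝ)) =
      ∑ l, (N i l : ℝ) * (N j l : ℝ) := by
    field_simp
  rw [mul_sub, e3]
  split_ifs
  · linarith
  · linarith

private theorem dc_quad {v b : ℕ} (k r : ℕ) (N : Matrix (Fin v) (Fin b) ℕ) (x : Fin v → ℝ) :
    x ⬝ᵥ (Info k r N *ᵥ x) =
      (r : ℝ) * (∑ i, x i * x i) - (1 / (k : ℝ)) * ∑ l, (∑ i, (N i l : ℝ) * x i) ^ 2 := by
  have e2 : ∀ i j, (Info k r N) i j = (r : ℝ) * (if i = j then 1 else 0) -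
      (1 / (k : ℝ)) * ∑ l, (N i l : ℝ) * (N j l : ℝ) := by
    intro i j
    simp only [Info, Matrix.sub_apply, Matrix.smul_apply, smul_eq_mul, Matrix.one_apply,
      Matrix.mul_apply, Matrix.transpose_apply, Matrix.map_apply]
  have e3 : x ⬝ᵥ (Info k r N *ᵥ x) =
      ∑ i, ∑ j, ((if i = j then (r : ℝ) * (x i * x j) else 0) -
        (1 / (k : ℝ)) * ∑ l, ((N i l : ℝ) * x i) * ((N j l : ℝ) * x j)) := by
    simp only [dotProduct, Matrix.mulVec, Finset.mul_sum]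
    refine Finset.sum_congr rfl (fun i _ => Finset.sum_congr rfl (fun j _ => ?_))
    rw [e2, ← Finset.mul_sum]
    have e4 : ∑ l, ((N i l : ℝ) * x i) * ((N j l : ℝ) * x j) =
        (x i * x j) * ∑ l, (N i l : ℝ) * (N j l : ℝ) := by
      rw [Finset.mul_sum]
      exact Finset.sum_congr rfl (fun l _ => by ring)
    rw [e4]
    split_ifs <;> ring
  rw [e3]
  simp only [Finset.sum_sub_distrib]
  congr 1
  · simp only [Finset.sum_ite_eq, Finset.mem_univ, if_true, Finset.mul_sum]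
  · have e5 : ∀ i, ∑ j, (1 / (k : ℝ)) * ∑ l, ((N i l : ℝ) * x i) * ((N j l : ℝ) * x j) =
        (1 / (k : ℝ)) * ∑ l, ∑ j, ((N i l : ℝ) * x i) * ((N j l : ℝ) * x j) := by
      intro i
      rw [← Finset.mul_sum, Finset.sum_comm]
    rw [Finset.sum_congr rfl (fun i _ => e5 i), ← Finset.mul_sum, Finset.sum_comm]
    congr 1
    refine Finset.sum_congr rfl (fun l _ => ?_)
    rw [_root_.sq, Finset.sum_mul_sum]

private theorem dc_rows {v b k r : ℕ} (N : Matrix (Fin v) (Fin b) ℕ) (hN : IsDes k r N)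
    (i : Fin v) : ∑ l, (N i l : ℝ) = (r : ℝ) := by
  have := hN.2 i
  exact_mod_cast this

private theorem dc_cols {v b k r : ℕ} (N : Matrix (Fin v) (Fin b) ℕ) (hN : IsDes k r N)
    (l : Fin b) : ∑ i, (N i l : ℝ) = (k : ℝ) := by
  have := hN.1 l
  exact_mod_cast this

/-- the information matrix is positive semidefinite -/
theorem Info_psd {v b k r : ℕ} (hk : 1 ≤ k) (N : Matrix (Fin v) (Fin b) ℕ) (hN : IsDes k r N)
    (x : Fin v → ℝ) : 0 ≤ x ⬝ᵥ (Info k r N *ᵥ x) := by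
  have hk0 : (0 : ℝ) < (k : ℝ) := by exact_mod_cast hk
  have h1 : ∀ l, (∑ i, (N i l : ℝ) * x i) ^ 2 ≤ (k : ℝ) * ∑ i, (N i l : ℝ) * (x i * x i) := by
    intro l
    rw [← dc_cols N hN l]
    refine Finset.sum_sq_le_sum_mul_sum_of_sq_le_mul _ (fun i _ => Nat.cast_nonneg _)
      (fun i _ => mul_nonneg (Nat.cast_nonneg _) (mul_self_nonneg _)) (fun i _ => by
        exact le_of_eq (by ring))
  have h2 : ∑ l, (∑ i, (N i l : ℝ) * x i) ^ 2 ≤ (k : ℝ) * ((r : ℝ) * ∑ i, x i * x i) := by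
    refine (Finset.sum_le_sum (fun l _ => h1 l)).trans (le_of_eq ?_)
    rw [← Finset.mul_sum, Finset.sum_comm]
    congr 1
    rw [Finset.mul_sum]
    refine Finset.sum_congr rfl (fun i _ => ?_)
    rw [← Finset.sum_mul, dc_rows N hN i]
  rw [dc_quad, sub_nonneg, one_div, inv_mul_le_iff₀ hk0]
  exact h2

/-- `N Nᵀ ≥ (r k / v) J` -/
theorem NNT_ge {v b k r : ℕ} (hv : 1 ≤ v) (N : Matrix (Fin v) (Fin b) ℕ) (hN : IsDes k r N)
    (x : Fin v → ℝ) :
    ((r : ℝ) * k / v) * (∑ i, x i) ^ 2 ≤ ∑ l, (∑ i, (N i l : ℝ) * x i) ^ 2 := by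
  have hv0 : (0 : ℝ) < (v : ℝ) := by exact_mod_cast hv
  have hc : (v : ℝ) * (r : ℝ) = (b : ℝ) * (k : ℝ) := by
    have h1 : ∑ i, ∑ l, (N i l : ℝ) = (v : ℝ) * (r : ℝ) := by
      rw [Finset.sum_congr rfl (fun i _ => dc_rows N hN i), Finset.sum_const, Finset.card_univ,
        Fintype.card_fin, nsmul_eq_mul]
    have h2 : ∑ i, ∑ l, (N i l : ℝ) = (b : ℝ) * (k : ℝ) := by
      rw [Finset.sum_comm, Finset.sum_congr rfl (fun l _ => dc_cols N hN l), Finset.sum_const,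
        Finset.card_univ, Fintype.card_fin, nsmul_eq_mul]
    rw [← h1, h2]
  rcases Nat.eq_zero_or_pos b with hb | hb
  · have hr : (r : ℝ) = 0 := by
      have h3 : (v : ℝ) * (r : ℝ) = 0 := by
        rw [hc, hb]
        simp
      rcases mul_eq_zero.1 h3 with h | h
      · exact absurd h hv0.ne'
      · exact h
    rw [hr]
    simp only [zero_mul, zero_div]
    exact Finset.sum_nonneg (fun l _ => sq_nonneg _)
  · have hb0 : (0 : ℝ) < (b : ℝ) := by exact_mod_cast hb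
    have h4 : ∑ l, ∑ i, (N i l : ℝ) * x i = (r : ℝ) * ∑ i, x i := by
      rw [Finset.sum_comm, Finset.mul_sum]
      refine Finset.sum_congr rfl (fun i _ => ?_)
      rw [← Finset.sum_mul, dc_rows N hN i]
    have h5 : (∑ l, ∑ i, (N i l : ℝ) * x i) ^ 2 ≤
        (b : ℝ) * ∑ l, (∑ i, (N i l : ℝ) * x i) ^ 2 := by
      have := sq_sum_le_card_mul_sum_sq (s := (univ : Finset (Fin b)))
        (f := fun l => ∑ i, (N i l : ℝ) * x i)
      rw [Finset.card_univ, Fintype.card_fin] at this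
      exact this
    rw [h4] at h5
    have h6 : ((r : ℝ) * k / v) * (∑ i, x i) ^ 2 = ((r : ℝ) * ∑ i, x i) ^ 2 / b := by
      rw [mul_pow]
      field_simp
      linear_combination (-(r : ℝ) * (∑ i, x i) ^ 2) * hc
    rw [h6, div_le_iff₀ hb0]
    linarith

end HCR
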