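import Mathlib
import Pool.Agent.Lib_helper88.HCR.Defs
import Pool.Agent.Lib_helper88.HCR.da
import Pool.Agent.Lib_helper88.HCR.db
import Pool.Agent.Lib_helper88.HCR.dc

set_option autoImplicit false

namespace HCR

open Finset Matrix

private theorem dd_quad {v b : ℕ} (lam e : ℤ) (N : Matrix (Fin v) (Fin b) ℕ) (x : Fin v → ℝ) :
    x ⬝ᵥ (rl (Ex lam e N) *ᵥ x) =
      ∑ l, (∑ i, (N i l : ℝ) * x i) ^ 2 - (lam : ℝ) * (∑ i, x i) ^ 2 - (e : ℝ) * (x ⬝ᵥ x) := by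
  have e1 : ∀ i j, (rl (Ex lam e N)) i j =
      (∑ l, (N i l : ℝ) * (N j l : ℝ)) - (lam : ℝ) - if i = j then (e : ℝ) else 0 := by
    intro i j
    simp only [rl, Ex, Matrix.map_apply]
    split_ifs <;> push_cast <;> rfl
  have e2 : x ⬝ᵥ (rl (Ex lam e N) *ᵥ x) =
      ∑ i, ∑ j, ((∑ l, ((N i l : ℝ) * x i) * ((N j l : ℝ) * x j)) - (lam : ℝ) * (x i * x j) -
        if i = j then (e : ℝ) * (x i * x j) else 0) := by
    simp only [dotProduct, Matrix.mulVec, Finset.mul_sum]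
    refine Finset.sum_congr rfl (fun i _ => Finset.sum_congr rfl (fun j _ => ?_))
    rw [e1]
    have e3 : ∑ l, ((N i l : ℝ) * x i) * ((N j l : ℝ) * x j) =
        (x i * x j) * ∑ l, (N i l : ℝ) * (N j l : ℝ) := by
      rw [Finset.mul_sum]
      exact Finset.sum_congr rfl (fun l _ => by ring)
    rw [e3]
    split_ifs <;> ring
  rw [e2]
  simp only [Finset.sum_sub_distrib]
  congr 1
  · congr 1
    · have e4 : ∀ i, ∑ j, ∑ l, ((N i l : ℝ) * x i) * ((N j l : ℝ) * x j) =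
          ∑ l, ∑ j, ((N i l : ℝ) * x i) * ((N j l : ℝ) * x j) := fun i => Finset.sum_comm
      rw [Finset.sum_congr rfl (fun i _ => e4 i), Finset.sum_comm]
      refine Finset.sum_congr rfl (fun l _ => ?_)
      rw [_root_.sq, Finset.sum_mul_sum]
    · rw [_root_.sq, Finset.sum_mul_sum, Finset.mul_sum]
      refine Finset.sum_congr rfl (fun i _ => ?_)
      rw [Finset.mul_sum]
  · simp only [dotProduct, Finset.sum_ite_eq, Finset.mem_univ, if_true, Finset.mul_sum]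

/-- `0 ≤ M - E ≤ 2 M` for designs -/
theorem W_des {v b k r d : ℕ} (hv : 2 ≤ v) (hk : 2 ≤ k) (lam : ℤ) (hlam : 0 ≤ lam)
    (N : Matrix (Fin v) (Fin b) ℕ) (hN : IsDes k r N)
    (hp : (r : ℤ) * k - D0 v b k r = lam * ((v : ℤ) - 1) + d) (hd : d + 2 ≤ v) (x : Fin v → ℝ) :
    0 ≤ x ⬝ᵥ (WM ((lam : ℝ) * v + d) (rl (Ex lam (D0 v b k r - lam) N)) *ᵥ x) ∧
    x ⬝ᵥ (WM ((lam : ℝ) * v + d) (rl (Ex lam (D0 v b k r - lam) N)) *ᵥ x) ≤
      2 * ((lam : ℝ) * v + d) * (x ⬝ᵥ x) := by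
  have hlam' : (0 : ℝ) ≤ (lam : ℝ) := by exact_mod_cast hlam
  have hv0 : (0 : ℝ) < (v : ℝ) := by
    have : 0 < v := by omega
    exact_mod_cast this
  have hxx : 0 ≤ x ⬝ᵥ x := by
    simp only [dotProduct]
    exact Finset.sum_nonneg (fun i _ => mul_self_nonneg _)
  constructor
  · have h1 := Info_eq (by omega : 1 ≤ k) lam N hp
    have h2 : WM ((lam : ℝ) * v + d) (rl (Ex lam (D0 v b k r - lam) N)) =
        (k : ℝ) • Info k r N +
          (lam : ℝ) • Matrix.of (fun (_ : Fin v) (_ : Fin v) => (1 : ℝ)) := by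
      rw [h1]
      abel
    have h3 : x ⬝ᵥ ((Matrix.of (fun (_ : Fin v) (_ : Fin v) => (1 : ℝ))) *ᵥ x) =
        (∑ i, x i) ^ 2 := by
      simp only [dotProduct, Matrix.mulVec, Matrix.of_apply, one_mul]
      rw [_root_.sq, Finset.sum_mul]
    rw [h2, Matrix.add_mulVec, Matrix.smul_mulVec, Matrix.smul_mulVec, dotProduct_add,
      dotProduct_smul, dotProduct_smul, h3]
    have h4 := Info_psd (by omega : 1 ≤ k) N hN x
    have hk0 : (0 : ℝ) ≤ (k : ℝ) := Nat.cast_nonneg k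
    simp only [smul_eq_mul]
    positivity
  · have h5 : x ⬝ᵥ (WM ((lam : ℝ) * v + d) (rl (Ex lam (D0 v b k r - lam) N)) *ᵥ x) =
        ((lam : ℝ) * v + d) * (x ⬝ᵥ x) - x ⬝ᵥ (rl (Ex lam (D0 v b k r - lam) N) *ᵥ x) := by
      unfold WM
      rw [Matrix.sub_mulVec, Matrix.smul_mulVec, Matrix.one_mulVec, dotProduct_sub,
        dotProduct_smul, smul_eq_mul]
    have hc := des_count N hN
    obtain ⟨h6, h7⟩ := rho_le hv hk hc lam hp hd
    have h6' : 2 * ((D0 v b k r - lam : ℤ) : ℝ) ≤ (r : ℝ) * (k : ℝ) := by exact_mod_cast h6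
    have h7' : (lam : ℝ) * (v : ℝ) ≤ (r : ℝ) * (k : ℝ) := by exact_mod_cast h7
    have hp' : (r : ℝ) * (k : ℝ) - ((D0 v b k r : ℤ) : ℝ) = (lam : ℝ) * ((v : ℝ) - 1) + (d : ℝ) := by
      exact_mod_cast hp
    have h8 := NNT_ge (by omega : 1 ≤ v) N hN x
    have h9 : (lam : ℝ) ≤ (r : ℝ) * k / v := by
      rw [le_div_iff₀ hv0]
      exact h7'
    have h10 : (lam : ℝ) * (∑ i, x i) ^ 2 ≤ ((r : ℝ) * k / v) * (∑ i, x i) ^ 2 :=
      mul_le_mul_of_nonneg_right h9 (sq_nonneg _)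
    rw [h5, dd_quad]
    push_cast at h6' ⊢
    have h11 : 0 ≤ ((r : ℝ) * (k : ℝ) - 2 * (((D0 v b k r : ℤ) : ℝ) - (lam : ℝ))) * (x ⬝ᵥ x) :=
      mul_nonneg (by linarith) hxx
    have h12 : (lam : ℝ) * v + d = (r : ℝ) * (k : ℝ) - (((D0 v b k r : ℤ) : ℝ) - (lam : ℝ)) := by
      linarith
    rw [h12]
    linarith

end HCR
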