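import Mathlib
import Pool.Agent.Lib_helper88.HCR.Defs
import Pool.Agent.Lib_helper88.HCR.da
import Pool.Agent.Lib_helper88.HCR.dc
import Pool.Agent.Lib_helper88.HCR.de

set_option autoImplicit false

namespace HCR

open Finset Matrix

theorem df_InfoJ {v b k r d : ℕ} (hv : 1 ≤ v) (hk : 1 ≤ k) (lam : ℤ)
    (N : Matrix (Fin v) (Fin b) ℕ)
    (hp : (r : ℤ) * k - D0 v b k r = lam * ((v : ℤ) - 1) + d) :
    (k : ℝ) • InfoJ k r N = WM ((lam : ℝ) * v + d) (rl (Ex lam (D0 v b k r - lam) N)) +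
      ((k : ℝ) / v - lam) • Matrix.of (fun (_ : Fin v) (_ : Fin v) => (1 : ℝ)) := by
  unfold InfoJ
  rw [smul_add, Info_eq hk lam N hp, smul_smul, mul_one_div, sub_smul]
  abel

theorem df_row {v b k r d : ℕ} (lam : ℤ)
    (N : Matrix (Fin v) (Fin b) ℕ) (hN : IsDes k r N)
    (hp : (r : ℤ) * k - D0 v b k r = lam * ((v : ℤ) - 1) + d) (i : Fin v) :
    ∑ j, WM ((lam : ℝ) * v + d) (rl (Ex lam (D0 v b k r - lam) N)) i j = (lam : ℝ) * v := by
  have h1 := (Ex_cls lam N hN hp).row i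
  unfold WM rl
  simp only [Matrix.sub_apply, Matrix.smul_apply, Matrix.map_apply, Finset.sum_sub_distrib,
    smul_eq_mul]
  have h2 : ∑ j, (((Ex lam (D0 v b k r - lam) N) i j : ℤ) : ℝ) = (d : ℝ) := by
    rw [← Int.cast_sum, h1]; simp
  have h3 : ∑ j, ((lam : ℝ) * v + d) * (1 : Matrix (Fin v) (Fin v) ℝ) i j =
      (lam : ℝ) * v + d := by
    rw [← Finset.mul_sum]
    simp [Matrix.one_apply]
  rw [h2, h3]; ring

theorem df_symm {v b k r d : ℕ} (lam : ℤ)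
    (N : Matrix (Fin v) (Fin b) ℕ) (hN : IsDes k r N)
    (hp : (r : ℤ) * k - D0 v b k r = lam * ((v : ℤ) - 1) + d) :
    (WM ((lam : ℝ) * v + d) (rl (Ex lam (D0 v b k r - lam) N))).IsSymm := by
  have h1 := (Ex_cls lam N hN hp).symm
  unfold WM rl
  show (_ : Matrix (Fin v) (Fin v) ℝ)ᵀ = _
  rw [Matrix.transpose_sub, Matrix.transpose_smul, Matrix.transpose_one, ← Matrix.transpose_map,
    h1.eq]

theorem conn_iff {v b k r d : ℕ} (hv : 1 ≤ v) (hk : 1 ≤ k) (lam : ℤ) (hlam : 1 ≤ lam)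
    (N : Matrix (Fin v) (Fin b) ℕ) (hN : IsDes k r N)
    (hp : (r : ℤ) * k - D0 v b k r = lam * ((v : ℤ) - 1) + d) :
    Conn k r N ↔ (WM ((lam : ℝ) * v + d) (rl (Ex lam (D0 v b k r - lam) N))).det ≠ 0 := by
  have hv0 : (0 : ℝ) < v := by exact_mod_cast hv
  have hk0 : (0 : ℝ) < k := by exact_mod_cast hk
  have hl0 : (0 : ℝ) < lam := by exact_mod_cast (by omega : 0 < lam)
  have ht : (lam : ℝ) * v ≠ 0 := by positivity
  have htc : (lam : ℝ) * v + ((k : ℝ) / v - lam) * v ≠ 0 := by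
    have : (lam : ℝ) * v + ((k : ℝ) / v - lam) * v = k := by field_simp; ring
    rw [this]; exact hk0.ne'
  rw [← rank_one_det _ (df_symm lam N hN hp) _ _ (df_row lam N hN hp) ht htc,
    ← df_InfoJ hv hk lam N hp, Matrix.det_smul]
  unfold Conn
  constructor
  · intro h
    exact mul_ne_zero (pow_ne_zero _ hk0.ne') h
  · intro h
    exact (mul_ne_zero_iff.1 h).2

theorem PhiA_eq {v b k r d : ℕ} (hv : 1 ≤ v) (hk : 1 ≤ k) (lam : ℤ) (hlam : 1 ≤ lam)
    (N : Matrix (Fin v) (Fin b) ℕ) (hN : IsDes k r N)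
    (hp : (r : ℤ) * k - D0 v b k r = lam * ((v : ℤ) - 1) + d) (hc : Conn k r N) :
    PhiA k r N = (k : ℝ) * tr1 ((lam : ℝ) * v + d) (rl (Ex lam (D0 v b k r - lam) N)) -
      (k : ℝ) / ((lam : ℝ) * v) + 1 := by
  have hv0 : (0 : ℝ) < v := by exact_mod_cast hv
  have hk0 : (0 : ℝ) < k := by exact_mod_cast hk
  have hl0 : (0 : ℝ) < lam := by exact_mod_cast (by omega : 0 < lam)
  have ht : (lam : ℝ) * v ≠ 0 := by positivity
  have htk : (lam : ℝ) * v + ((k : ℝ) / v - lam) * v = k := by field_simp; ring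
  have htc : (lam : ℝ) * v + ((k : ℝ) / v - lam) * v ≠ 0 := by
    rw [htk]; exact hk0.ne'
  have hdet := (conn_iff hv hk lam hlam N hN hp).1 hc
  have h1 := rank_one_trace _ (df_symm lam N hN hp) _ _ (df_row lam N hN hp) ht htc hdet
  have hB : (WM ((lam : ℝ) * v + d) (rl (Ex lam (D0 v b k r - lam) N)) +
      ((k : ℝ) / v - lam) • Matrix.of (fun (_ : Fin v) (_ : Fin v) => (1 : ℝ))).det ≠ 0 :=
    (rank_one_det _ (df_symm lam N hN hp) _ _ (df_row lam N hN hp) ht htc).2 hdet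
  have hinv : (InfoJ k r N)⁻¹ = (k : ℝ) • (WM ((lam : ℝ) * v + d)
      (rl (Ex lam (D0 v b k r - lam) N)) + ((k : ℝ) / v - lam) •
      Matrix.of (fun (_ : Fin v) (_ : Fin v) => (1 : ℝ)))⁻¹ := by
    apply Matrix.inv_eq_right_inv
    rw [Matrix.mul_smul, ← Matrix.smul_mul, df_InfoJ hv hk lam N hp]
    exact Matrix.mul_nonsing_inv _ (isUnit_iff_ne_zero.2 hB)
  unfold PhiA tr1
  rw [hinv, Matrix.trace_smul, h1, htk, smul_eq_mul]
  field_simp
  ring

end HCR
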