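import Mathlib
import Pool.Agent.Lib_helper88.HCR.Defs
import Pool.Agent.Lib_helper88.HCR.da
import Pool.Agent.Lib_helper88.HCR.dc
import Pool.Agent.Lib_helper88.HCR.fn

set_option autoImplicit false

/-! Block ds (project HCR, helper53). -/

namespace HCR

open Finset Matrix

/-- the trace of `C` and of `C²` in terms of `E` -/
theorem trace_Info {v b k r d : ℕ} (hv : 1 ≤ v) (hk : 1 ≤ k) (lam : ℤ)
    (N : Matrix (Fin v) (Fin b) ℕ) (hN : IsDes k r N)
    (hp : (r : ℤ) * k - D0 v b k r = lam * ((v : ℤ) - 1) + d) :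
    (k : ℝ) * trace (Info k r N) = ((lam : ℝ) * v + d) * v - lam * v -
        ((∑ i, Ex lam (D0 v b k r - lam) N i i : ℤ) : ℝ) ∧
    (k : ℝ) ^ 2 * trace (Info k r N * Info k r N) = ((lam : ℝ) * v + d) ^ 2 * v -
        2 * ((lam : ℝ) * v + d) * ((∑ i, Ex lam (D0 v b k r - lam) N i i : ℤ) : ℝ) +
        (sq (Ex lam (D0 v b k r - lam) N) : ℝ) - 2 * lam * ((lam : ℝ) * v + d) * v +
        2 * lam * ((v : ℝ) * d) + (lam : ℝ) ^ 2 * (v : ℝ) ^ 2 := by
  have hcls := Ex_cls lam N hN hp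
  have hA := Info_eq hk lam N hp
  set E := Ex lam (D0 v b k r - lam) N with hE
  set M : ℝ := (lam : ℝ) * v + d with hM
  set A := WM M (rl E) - (lam : ℝ) • Matrix.of (fun (_ : Fin v) (_ : Fin v) => (1 : ℝ)) with hAdef
  have hAij : ∀ i j, A i j = M * (if i = j then 1 else 0) - (E i j : ℝ) - lam := by
    intro i j
    simp only [hAdef, WM, rl, Matrix.sub_apply, Matrix.smul_apply, Matrix.map_apply,
      Matrix.of_apply, smul_eq_mul, Matrix.one_apply, mul_one]
  constructor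
  · have h1 : (k : ℝ) * trace (Info k r N) = trace A := by
      rw [← hA, Matrix.trace_smul, smul_eq_mul]
    rw [h1]
    unfold trace
    simp only [Matrix.diag_apply, hAij, if_true, Finset.sum_sub_distrib, Finset.sum_const,
      Finset.card_univ, Fintype.card_fin, nsmul_eq_mul]
    push_cast
    ring
  · have h1 : (k : ℝ) ^ 2 * trace (Info k r N * Info k r N) = trace (A * A) := by
      rw [← hA, Matrix.smul_mul, Matrix.mul_smul, smul_smul, Matrix.trace_smul, smul_eq_mul]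
      ring
    rw [h1]
    have hprod : ∀ i j, A i j * A j i = (if i = j then M ^ 2 - 2 * M * (E i i : ℝ) - 2 * M * lam
        else 0) + (E i j : ℝ) ^ 2 + 2 * lam * (E i j : ℝ) + (lam : ℝ) ^ 2 := by
      intro i j
      rw [hAij, hAij, hcls.symm.apply i j]
      by_cases hij : i = j
      · subst hij
        simp only [if_true]
        ring
      · rw [if_neg hij, if_neg (Ne.symm hij), if_neg hij]
        ring
    have hrow : ∀ i, ∑ j, (E i j : ℝ) = d := by
      intro i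
      have := hcls.row i
      exact_mod_cast this
    unfold trace
    simp only [Matrix.diag_apply, Matrix.mul_apply, hprod, Finset.sum_add_distrib,
      Finset.sum_ite_eq, Finset.mem_univ, if_true, ← Finset.mul_sum, hrow, Finset.sum_const,
      Finset.card_univ, Fintype.card_fin, nsmul_eq_mul, Finset.sum_sub_distrib]
    unfold sq
    push_cast
    ring

theorem ds_pos {v d : ℕ} (E : Matrix (Fin v) (Fin v) ℤ) (hE : Cls d E) : 0 ≤ ∑ i, E i i :=
  Finset.sum_nonneg fun i _ => hE.nn i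

theorem ds_zero {v d : ℕ} (E : Matrix (Fin v) (Fin v) ℤ) (hE : Cls d E)
    (h : ∑ i, E i i = 0) (i : Fin v) : E i i = 0 :=
  (Finset.sum_eq_zero_iff_of_nonneg (fun i _ => hE.nn i)).1 h i (Finset.mem_univ i)

theorem ds_reg {v d : ℕ} (E : Matrix (Fin v) (Fin v) ℤ) (hE : Reg d E) : ∑ i, E i i = 0 :=
  Finset.sum_eq_zero fun i _ => hE.diag i

/-- designs with a regular graph are `(M,S)`-optimal -/
theorem ms_of_reg {v b k r d : ℕ} (hv : 1 ≤ v) (hk : 1 ≤ k) (lam : ℤ)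
    (N : Matrix (Fin v) (Fin b) ℕ) (hN : IsDes k r N)
    (hp : (r : ℤ) * k - D0 v b k r = lam * ((v : ℤ) - 1) + d)
    (hR : Reg d (Ex lam (D0 v b k r - lam) N)) : MSopt k r N := by
  have hk0 : (0 : ℝ) < k := by exact_mod_cast hk
  obtain ⟨t1, t2⟩ := trace_Info hv hk lam N hN hp
  rw [ds_reg _ hR] at t1 t2
  rw [reg_sq d _ hR] at t2
  refine ⟨hN, ?_, ?_⟩
  · intro N' hN'
    obtain ⟨s1, s2⟩ := trace_Info hv hk lam N' hN' hp
    have h1 : (0 : ℝ) ≤ ((∑ i, Ex lam (D0 v b k r - lam) N' i i : ℤ) : ℝ) := by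
      exact_mod_cast ds_pos _ (Ex_cls lam N' hN' hp)
    refine le_of_mul_le_mul_left ?_ hk0
    rw [t1, s1]
    push_cast at h1 ⊢
    linarith
  · intro N' hN' htr
    obtain ⟨s1, s2⟩ := trace_Info hv hk lam N' hN' hp
    have hcls' := Ex_cls lam N' hN' hp
    have h1 : ((∑ i, Ex lam (D0 v b k r - lam) N' i i : ℤ) : ℝ) = 0 := by
      have h2 : (k : ℝ) * trace (Info k r N') = (k : ℝ) * trace (Info k r N) := by rw [htr]
      rw [t1, s1] at h2
      push_cast at h2 ⊢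
      linarith
    rw [h1] at s2
    have h3 := (sq_ge d _ hcls').1
    have h4 : (((v : ℤ) * d : ℤ) : ℝ) ≤ (sq (Ex lam (D0 v b k r - lam) N') : ℝ) := by
      exact_mod_cast h3
    have hk2 : (0 : ℝ) < (k : ℝ) ^ 2 := by positivity
    refine le_of_mul_le_mul_left ?_ hk2
    rw [t2, s2]
    push_cast at h4 ⊢
    linarith

/-- if such a design exists then all `(M,S)`-optimal designs are of this kind -/
theorem reg_of_ms {v b k r d : ℕ} (hv : 1 ≤ v) (hk : 1 ≤ k) (lam : ℤ)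
    (N N₀ : Matrix (Fin v) (Fin b) ℕ) (hN₀ : IsDes k r N₀)
    (hp : (r : ℤ) * k - D0 v b k r = lam * ((v : ℤ) - 1) + d)
    (hR : Reg d (Ex lam (D0 v b k r - lam) N₀)) (hN : MSopt k r N) :
    Reg d (Ex lam (D0 v b k r - lam) N) := by
  have hk0 : (0 : ℝ) < k := by exact_mod_cast hk
  obtain ⟨t1, t2⟩ := trace_Info hv hk lam N₀ hN₀ hp
  rw [ds_reg _ hR] at t1 t2
  rw [reg_sq d _ hR] at t2
  obtain ⟨hN1, hN2, hN3⟩ := hN
  obtain ⟨s1, s2⟩ := trace_Info hv hk lam N hN1 hp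
  have hcls := Ex_cls lam N hN1 hp
  have h0 := hN2 N₀ hN₀
  have h1 : ∑ i, Ex lam (D0 v b k r - lam) N i i = 0 := by
    have h2 : (0 : ℝ) ≤ ((∑ i, Ex lam (D0 v b k r - lam) N i i : ℤ) : ℝ) := by
      exact_mod_cast ds_pos _ hcls
    have h3 : (k : ℝ) * trace (Info k r N₀) ≤ (k : ℝ) * trace (Info k r N) :=
      mul_le_mul_of_nonneg_left h0 hk0.le
    rw [t1, s1] at h3
    have h4 : ((∑ i, Ex lam (D0 v b k r - lam) N i i : ℤ) : ℝ) ≤ 0 := by
      push_cast at h3 ⊢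
      linarith
    have h5 : ((∑ i, Ex lam (D0 v b k r - lam) N i i : ℤ) : ℝ) = 0 := le_antisymm h4 h2
    exact_mod_cast h5
  rw [h1] at s1 s2
  have htr : trace (Info k r N₀) = trace (Info k r N) := by
    refine mul_left_cancel₀ hk0.ne' ?_
    rw [t1, s1]
  have h6 := hN3 N₀ hN₀ htr
  have hk2 : (0 : ℝ) < (k : ℝ) ^ 2 := by positivity
  have h7 : (k : ℝ) ^ 2 * trace (Info k r N * Info k r N) ≤
      (k : ℝ) ^ 2 * trace (Info k r N₀ * Info k r N₀) := mul_le_mul_of_nonneg_left h6 hk2.le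
  rw [t2, s2] at h7
  have h8 : (sq (Ex lam (D0 v b k r - lam) N) : ℝ) ≤ (((v : ℤ) * d : ℤ) : ℝ) := by linarith
  have h9 : sq (Ex lam (D0 v b k r - lam) N) ≤ (v : ℤ) * d := by exact_mod_cast h8
  obtain ⟨g1, g2⟩ := sq_ge d _ hcls
  exact g2 (le_antisymm h9 g1) (ds_zero _ hcls h1)

end HCR
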