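import Mathlib
import Pool.Agent.Lib_helper88.HCR.Defs
import Pool.Agent.Lib_helper88.HCR.du
import Pool.Agent.Lib_helper88.HCR.dv

set_option autoImplicit false

namespace HCR

open Finset Matrix

theorem dw_cmp {v b k r : ℕ} (hv : 1 ≤ v) (hb : 1 ≤ b) (hk : 1 ≤ k) (hr : 1 ≤ r)
    (N N2 : Matrix (Fin v) (Fin b) ℕ) (hN : IsDes k r N) (hN2 : IsDes k r N2)
    (hc : Conn k r N) (hc2 : Conn k r N2) :
    PhiA k r N ≤ PhiA k r N2 ↔ PhiA r k N.transpose ≤ PhiA r k N2.transpose := by
  have e1 := dual_PhiA hv hb hk hr N hN hc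
  have e2 := dual_PhiA hv hb hk hr N2 hN2 hc2
  have hk0 : (0 : ℝ) < k := by exact_mod_cast hk
  have hr0 : (0 : ℝ) < r := by exact_mod_cast hr
  have a1 : PhiA k r N ≤ PhiA k r N2 ↔ (PhiA k r N - 1) / k ≤ (PhiA k r N2 - 1) / k := by
    rw [div_le_div_iff_of_pos_right hk0]; constructor <;> intro h <;> linarith
  have a2 : PhiA r k N.transpose ≤ PhiA r k N2.transpose ↔
      (PhiA r k N.transpose - 1) / r ≤ (PhiA r k N2.transpose - 1) / r := by
    rw [div_le_div_iff_of_pos_right hr0]; constructor <;> intro h <;> linarith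
  rw [a1, a2, e1, e2]
  constructor <;> intro h <;> linarith

theorem dual_Q1 {v b k r : ℕ} (hv : 1 ≤ v) (hb : 1 ≤ b) (hk : 1 ≤ k) (hr : 1 ≤ r)
    (h : Q1 b v r k) : Q1 v b k r := by
  intro N hms hc hopt N' hd' hc'
  have hd : IsDes k r N := hms.1
  rw [dw_cmp hv hb hk hr N N' hd hd' hc hc']
  refine h N.transpose ((dual_ms hk hr N).1 hms) ((dual_conn hv hb hk hr N hd).1 hc) ?_
    N'.transpose ((dual_des N').1 hd') ((dual_conn hv hb hk hr N' hd').1 hc')
  intro M hM hMc
  have hMd : IsDes k r M.transpose := by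
    have := (dual_des M.transpose (k := k) (r := r)).2
    rw [Matrix.transpose_transpose] at this
    exact this hM.1
  have hM' : MSopt k r M.transpose := by
    have := (dual_ms hk hr M.transpose).2
    rw [Matrix.transpose_transpose] at this
    exact this hM
  have hMc' : Conn k r M.transpose := by
    have := (dual_conn hv hb hk hr M.transpose hMd).2
    rw [Matrix.transpose_transpose] at this
    exact this hMc
  have := (dw_cmp hv hb hk hr N M.transpose hd hMd hc hMc').1 (hopt M.transpose hM' hMc')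
  rwa [Matrix.transpose_transpose] at this

theorem dual_Aopt {v b k r : ℕ} (hv : 1 ≤ v) (hb : 1 ≤ b) (hk : 1 ≤ k) (hr : 1 ≤ r)
    (N : Matrix (Fin v) (Fin b) ℕ) : Aopt k r N ↔ Aopt r k N.transpose := by
  have key : ∀ {v b k r : ℕ} (_ : 1 ≤ v) (_ : 1 ≤ b) (_ : 1 ≤ k) (_ : 1 ≤ r)
      (N : Matrix (Fin v) (Fin b) ℕ), Aopt k r N → Aopt r k N.transpose := by
    intro v b k r hv hb hk hr N hN
    obtain ⟨hd, hc, ho⟩ := hN
    refine ⟨(dual_des N).1 hd, (dual_conn hv hb hk hr N hd).1 hc, ?_⟩
    intro M hM hMc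
    have hMd : IsDes k r M.transpose := by
      have := (dual_des M.transpose (k := k) (r := r)).2
      rw [Matrix.transpose_transpose] at this
      exact this hM
    have hMc' : Conn k r M.transpose := by
      have := (dual_conn hv hb hk hr M.transpose hMd).2
      rw [Matrix.transpose_transpose] at this
      exact this hMc
    have := (dw_cmp hv hb hk hr N M.transpose hd hMd hc hMc').1 (ho M.transpose hMd hMc')
    rwa [Matrix.transpose_transpose] at this
  constructor
  · exact key hv hb hk hr N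
  · intro h
    have := key hb hv hr hk N.transpose h
    rwa [Matrix.transpose_transpose] at this

end HCR
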