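import Mathlib
import Pool.Agent.Lib_helper88.HCR.Defs

set_option autoImplicit false

namespace HCR

open Finset Matrix

lemma ee_le {v b k r : ℕ} (N : Matrix (Fin v) (Fin b) ℕ) (hN : IsDes k r N) (i : Fin v)
    (j : Fin b) : N i j ≤ k := by
  rw [← hN.1 j]
  exact Finset.single_le_sum (f := fun i => N i j) (fun _ _ => Nat.zero_le _) (Finset.mem_univ i)

/-- designs with given parameters form a finite set -/
theorem des_finite (v b k r : ℕ) :
    Set.Finite {N : Matrix (Fin v) (Fin b) ℕ | IsDes k r N} := by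
  have h : Set.Finite (Set.pi (Set.univ : Set (Fin v))
      (fun _ => Set.pi (Set.univ : Set (Fin b)) (fun _ => Set.Iic k))) :=
    Set.Finite.pi (fun _ => Set.Finite.pi (fun _ => Set.finite_Iic k))
  refine h.subset ?_
  intro N hN i _ j _
  exact ee_le N hN i j

/-- an `A`-optimal design exists if there is a connected design -/
theorem exists_Aopt {v b k r : ℕ} (N : Matrix (Fin v) (Fin b) ℕ) (hN : IsDes k r N)
    (hc : Conn k r N) : ∃ N' : Matrix (Fin v) (Fin b) ℕ, Aopt k r N' := by
  have hf : Set.Finite {N : Matrix (Fin v) (Fin b) ℕ | IsDes k r N ∧ Conn k r N} :=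
    (des_finite v b k r).subset (fun N hN => hN.1)
  obtain ⟨N', hN', hm⟩ := Set.exists_min_image _ (fun N => PhiA k r N) hf ⟨N, hN, hc⟩
  exact ⟨N', hN'.1, hN'.2, fun N'' h1 h2 => hm N'' ⟨h1, h2⟩⟩

lemma ee_uniq {b k r : ℕ} (N N' : Matrix (Fin 1) (Fin b) ℕ) (hN : IsDes k r N)
    (hN' : IsDes k r N') : N = N' := by
  ext i j
  have hi : i = 0 := Subsingleton.elim _ _
  subst hi
  have h1 := hN.1 j
  have h2 := hN'.1 j
  simp only [Fin.sum_univ_one] at h1 h2
  rw [h1, h2]

/-- one treatment -/
theorem one_treatment {b k r : ℕ} (N : Matrix (Fin 1) (Fin b) ℕ) (hN : IsDes k r N) :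
    MSopt k r N := by
  refine ⟨hN, fun N' hN' => ?_, fun N' hN' _ => ?_⟩
  · rw [ee_uniq N N' hN hN']
  · rw [ee_uniq N N' hN hN']

theorem Q1_one (b k r : ℕ) : Q1 1 b k r := by
  intro N hN _ _ N' hN' _
  rw [ee_uniq N N' hN.1 hN']

/-- blocks of size one: no connected design -/
theorem conn_one {v b r : ℕ} (hv : 2 ≤ v) (N : Matrix (Fin v) (Fin b) ℕ) (hN : IsDes 1 r N) :
    ¬ Conn 1 r N := by
  have key : (N.map (fun x : ℕ => (x : ℝ))) *
        Matrix.transpose (N.map (fun x : ℕ => (x : ℝ))) =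
        (r : ℝ) • (1 : Matrix (Fin v) (Fin v) ℝ) := by
    ext i i'
    simp only [Matrix.mul_apply, Matrix.map_apply, Matrix.transpose_apply, Matrix.smul_apply,
      smul_eq_mul]
    by_cases h : i = i'
    · subst h
      rw [Matrix.one_apply_eq, mul_one, ← hN.2 i]
      push_cast
      refine Finset.sum_congr rfl (fun j _ => ?_)
      have h1 := ee_le N hN i j
      interval_cases (N i j) <;> simp
    · rw [Matrix.one_apply_ne h, mul_zero]
      refine Finset.sum_eq_zero (fun j _ => ?_)
      have h1 := hN.1 j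
      have h2 : N i j + N i' j ≤ ∑ i, N i j := by
        rw [← Finset.sum_pair (f := fun i => N i j) h]
        exact Finset.sum_le_sum_of_subset (Finset.subset_univ _)
      rw [h1] at h2
      have h3 : N i j = 0 ∨ N i' j = 0 := by omega
      rcases h3 with h3 | h3 <;> simp [h3]
  have hI : Info 1 r N = 0 := by
    unfold Info
    rw [key]
    simp
  unfold Conn
  rw [not_not]
  have hne : (⟨0, by omega⟩ : Fin v) ≠ ⟨1, by omega⟩ := by
    intro h
    have := congrArg Fin.val h
    simp at this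
  refine Matrix.det_zero_of_row_eq hne ?_
  unfold InfoJ
  rw [hI]
  ext j
  simp

end HCR
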