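import Mathlib
import Pool.Agent.Lib_helper88.HCR.Defs

set_option autoImplicit false

namespace HCR

open Finset Matrix

/-- a function with prescribed fibre sizes -/
theorem exists_fibres {α : Type} [DecidableEq α] {s : ℕ} (hs : 1 ≤ s) (T : Finset α)
    (n : Fin s → ℕ) (h : ∑ a, n a = T.card) :
    ∃ f : α → Fin s, ∀ a, (T.filter (fun x => f x = a)).card = n a := by
  classical
  have hcard : Fintype.card {x // x ∈ T} = Fintype.card (Σ a : Fin s, Fin (n a)) := by
    simp [h]
  obtain ⟨e⟩ := Fintype.card_eq.1 hcard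
  set f : α → Fin s := fun x => if hx : x ∈ T then (e ⟨x, hx⟩).1 else ⟨0, hs⟩ with hf
  have hfe : ∀ z : {x // x ∈ T}, f z.1 = (e z).1 := by
    intro z
    rw [hf]
    simp only [z.2, dif_pos]
  refine ⟨f, fun a => ?_⟩
  have h1 : (Finset.univ : Finset (Fin (n a))).card = (T.filter (fun x => f x = a)).card := by
    refine Finset.card_bij (fun k _ => (e.symm ⟨a, k⟩ : α)) ?_ ?_ ?_
    · intro k _
      rw [Finset.mem_filter]
      refine ⟨(e.symm ⟨a, k⟩).2, ?_⟩
      rw [hfe, Equiv.apply_symm_apply]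
    · intro k _ k' _ hk
      have h2 := e.symm.injective (Subtype.ext hk)
      simpa using h2
    · intro x hx
      rw [Finset.mem_filter] at hx
      obtain ⟨hxT, hxa⟩ := hx
      have h3 : (e ⟨x, hxT⟩).1 = a := by
        rw [← hfe ⟨x, hxT⟩]
        exact hxa
      subst h3
      refine ⟨(e ⟨x, hxT⟩).2, Finset.mem_univ _, ?_⟩
      simp
  rw [← h1, Finset.card_univ, Fintype.card_fin]

/-- numbers with prescribed residues and prescribed sum -/
theorem exists_residues (k s V : ℕ) (hk : 3 ≤ k) (hs : 1 ≤ s) (hV : s * k ≤ V) (e : Fin s → ℤ)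
    (h : ((k : ℤ) - 1) ∣ (∑ a, e a) - V) :
    ∃ n : Fin s → ℕ, ∑ a, n a = V ∧ ∀ a, ((k : ℤ) - 1) ∣ e a - n a := by
  set a0 : Fin s := ⟨0, hs⟩ with ha0
  have hkpos : (0 : ℤ) < (k : ℤ) - 1 := by
    have : (3 : ℤ) ≤ k := by exact_mod_cast hk
    linarith
  set r : Fin s → ℕ := fun a => ((e a) % ((k : ℤ) - 1)).toNat with hr
  have hr1 : ∀ a, (r a : ℤ) = (e a) % ((k : ℤ) - 1) := by
    intro a
    exact Int.toNat_of_nonneg (Int.emod_nonneg _ hkpos.ne')
  have hr2 : ∀ a, r a ≤ k := by
    intro a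
    have h1 := Int.emod_lt_of_pos (e a) hkpos
    rw [← hr1] at h1
    omega
  have hr3 : ∀ a, ((k : ℤ) - 1) ∣ e a - r a := by
    intro a
    rw [hr1]
    exact Int.dvd_self_sub_emod
  set S : ℕ := ∑ a ∈ Finset.univ.erase a0, r a with hS
  have hSV : S ≤ V := by
    have h1 : S ≤ (Finset.univ.erase a0).card * k := by
      rw [hS, ← smul_eq_mul]
      exact Finset.sum_le_card_nsmul _ _ _ fun a _ => hr2 a
    have h2 : (Finset.univ.erase a0).card ≤ s := by
      refine (Finset.card_le_univ _).trans ?_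
      simp
    exact h1.trans ((Nat.mul_le_mul_right k h2).trans hV)
  set n : Fin s → ℕ := fun a => if a = a0 then V - S else r a with hn
  have hn0 : n a0 = V - S := by simp [hn]
  have hn1 : ∀ a, a ≠ a0 → n a = r a := by
    intro a ha
    simp [hn, ha]
  have hsum : ∑ a ∈ Finset.univ.erase a0, n a = S := by
    rw [hS]
    exact Finset.sum_congr rfl fun a ha => hn1 a (Finset.ne_of_mem_erase ha)
  refine ⟨n, ?_, ?_⟩
  · rw [← Finset.add_sum_erase _ _ (Finset.mem_univ a0), hsum, hn0]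
    omega
  · intro a
    by_cases ha : a = a0
    · rw [ha, hn0]
      have h1 : ((k : ℤ) - 1) ∣ ∑ a ∈ Finset.univ.erase a0, (e a - r a) :=
        Finset.dvd_sum fun a _ => hr3 a
      have h2 : (∑ a, e a) = e a0 + ∑ a ∈ Finset.univ.erase a0, e a :=
        (Finset.add_sum_erase _ _ (Finset.mem_univ a0)).symm
      have h3 : e a0 - ((V - S : ℕ) : ℤ) = ((∑ a, e a) - V) -
          ∑ a ∈ Finset.univ.erase a0, (e a - r a) := by
        rw [h2, Finset.sum_sub_distrib, Nat.cast_sub hSV, hS]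
        push_cast
        ring
      rw [h3]
      exact dvd_sub h h1
    · rw [hn1 a ha]
      exact hr3 a

end HCR
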