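import Mathlib
import Pool.Agent.Lib_helper88.HCR.Defs
import Pool.Agent.Lib_helper88.HCR.db
import Pool.Agent.Lib_helper88.HCR.bb

set_option autoImplicit false

namespace HCR

open Finset Matrix

theorem dr_core {v b k r d : ℕ} (q r' k' : ℕ) (hk : v * q + k' = k) (hr : r = q * b + r')
    (lam : ℤ) (B : Fin b → Finset (Fin v)) (hB : ∀ l, (B l).card = k')
    (hx : ∀ x, (univ.filter (fun l => x ∈ B l)).card = r')
    (G : Matrix (Fin v) (Fin v) ℤ) (hG : Reg d G)
    (hpair : ∀ x y, x ≠ y → (((univ.filter (fun l => x ∈ B l ∧ y ∈ B l)).card : ℕ) : ℤ) =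
      lam - (2 * (q : ℤ) * r' + (q : ℤ) ^ 2 * b) + G x y)
    (hD : D0 v b k r = (q : ℤ) ^ 2 * b + (2 * (q : ℤ) + 1) * r') :
    ∃ N : Matrix (Fin v) (Fin b) ℕ, IsDes k r N ∧ Ex lam (D0 v b k r - lam) N = G := by
  refine ⟨fun i l => q + if i ∈ B l then 1 else 0, ⟨?_, ?_⟩, ?_⟩
  · intro l
    simp only [Finset.sum_add_distrib, Finset.sum_const, Finset.card_univ, Fintype.card_fin,
      smul_eq_mul, Finset.sum_boole, Finset.filter_mem_eq_inter, Finset.univ_inter, hB, Nat.cast_id]
    exact hk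
  · intro i
    simp only [Finset.sum_add_distrib, Finset.sum_const, Finset.card_univ, Fintype.card_fin,
      smul_eq_mul, Finset.sum_boole, hx, Nat.cast_id]
    rw [hr, mul_comm]
  · have hx' : ∀ x : Fin v, (∑ l : Fin b, (if x ∈ B l then (1 : ℤ) else 0)) = r' := by
      intro x
      rw [Finset.sum_boole, hx]
    ext i j
    unfold Ex
    have hexp : ∀ l : Fin b, (((q + if i ∈ B l then 1 else 0 : ℕ) : ℤ) *
        ((q + if j ∈ B l then 1 else 0 : ℕ) : ℤ)) =
        (q : ℤ) ^ 2 + q * (if i ∈ B l then (1 : ℤ) else 0) + q * (if j ∈ B l then (1 : ℤ) else 0) +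
          (if i ∈ B l ∧ j ∈ B l then (1 : ℤ) else 0) := by
      intro l
      by_cases h1 : i ∈ B l <;> by_cases h2 : j ∈ B l <;> simp [h1, h2] <;> ring
    simp only [hexp]
    rw [Finset.sum_add_distrib, Finset.sum_add_distrib, Finset.sum_add_distrib, ← Finset.mul_sum,
      ← Finset.mul_sum, hx', hx', Finset.sum_boole, Finset.sum_const, Finset.card_univ,
      Fintype.card_fin]
    by_cases hij : i = j
    · subst hij
      simp only [and_self, hx, if_true, hG.diag, hD, nsmul_eq_mul]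
      ring
    · rw [hpair i j hij, if_neg hij, nsmul_eq_mul]
      ring

/-- from a family of sets to a design (`k' = k % v ≥ 2`) -/
theorem des_of_real {v b k r d : ℕ} (hv : 2 ≤ v) (hk : 2 ≤ k % v) (hc : v * r = b * k) (lam : ℤ)
    (hp : (r : ℤ) * k - D0 v b k r = lam * ((v : ℤ) - 1) + d)
    (G : Matrix (Fin v) (Fin v) ℤ) (hG : Reg d G)
    (hR : Real (k % v) (fun x y => lam - (2 * ((k / v : ℕ) : ℤ) * ((r : ℤ) - (k / v : ℕ) * b) +
      ((k / v : ℕ) : ℤ) ^ 2 * b) + G x y)) :
    ∃ N : Matrix (Fin v) (Fin b) ℕ, IsDes k r N ∧ Ex lam (D0 v b k r - lam) N = G := by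
  obtain ⟨r', hr, hvr, hS, hD⟩ := D0_id (v := v) (b := b) (k := k) (r := r) (by omega) hc
  obtain ⟨n, B, hBc, hBp⟩ := hR
  have hrZ : (r : ℤ) - (k / v : ℕ) * b = r' := by
    rw [hr]; push_cast; ring
  simp only [hrZ] at hBp
  have hk1 : (0 : ℤ) < ((k % v : ℕ) : ℤ) - 1 := by
    have : (2 : ℤ) ≤ ((k % v : ℕ) : ℤ) := by exact_mod_cast hk
    linarith
  have hl : (lam - (2 * ((k / v : ℕ) : ℤ) * r' + ((k / v : ℕ) : ℤ) ^ 2 * b)) * ((v : ℤ) - 1) + d =
      (r' : ℤ) * (((k % v : ℕ) : ℤ) - 1) := by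
    linear_combination hS - hp
  -- every point is in r' sets
  have hpt : ∀ x : Fin v, (univ.filter (fun j => x ∈ B j)).card = r' := by
    intro x
    have h1 : ∑ y ∈ univ.erase x, (((univ.filter (fun j => x ∈ B j ∧ y ∈ B j)).card : ℕ) : ℤ) =
        ((univ.filter (fun j => x ∈ B j)).card : ℤ) * (((k % v : ℕ) : ℤ) - 1) := by
      have h2 : ∀ y : Fin v, (((univ.filter (fun j => x ∈ B j ∧ y ∈ B j)).card : ℕ) : ℤ) =
          ∑ j ∈ univ.filter (fun j => x ∈ B j), if y ∈ B j then (1 : ℤ) else 0 := by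
        intro y
        rw [Finset.sum_boole, Finset.filter_filter]
      simp only [h2]
      rw [Finset.sum_comm]
      have h3 : ∀ j ∈ univ.filter (fun j => x ∈ B j),
          (∑ y ∈ univ.erase x, if y ∈ B j then (1 : ℤ) else 0) = ((k % v : ℕ) : ℤ) - 1 := by
        intro j hj
        rw [Finset.mem_filter] at hj
        rw [Finset.sum_boole]
        have h4 : (univ.erase x).filter (fun y => y ∈ B j) = (B j).erase x := by
          ext y
          simp [and_comm]
        rw [h4, Finset.card_erase_of_mem hj.2, hBc j, Nat.cast_sub (by omega)]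
        simp
      rw [Finset.sum_congr rfl h3, Finset.sum_const, nsmul_eq_mul]
    have h5 : ∑ y ∈ univ.erase x, (((univ.filter (fun j => x ∈ B j ∧ y ∈ B j)).card : ℕ) : ℤ) =
        (r' : ℤ) * (((k % v : ℕ) : ℤ) - 1) := by
      rw [← hl, Finset.sum_congr rfl (fun y hy => hBp x y (Finset.ne_of_mem_erase hy).symm),
        Finset.sum_add_distrib, Finset.sum_const, Finset.card_erase_of_mem (Finset.mem_univ x),
        Finset.card_univ, Fintype.card_fin, nsmul_eq_mul]
      have h6 : ∑ y ∈ univ.erase x, G x y = d := by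
        have := Finset.add_sum_erase univ (fun y => G x y) (Finset.mem_univ x)
        rw [hG.row x, hG.diag x, zero_add] at this
        exact this
      rw [h6, Nat.cast_sub (by omega)]
      push_cast
      ring
    rw [h5] at h1
    have h7 := mul_right_cancel₀ hk1.ne' h1
    exact_mod_cast h7.symm
  have hn : n = b := by
    have h1 : ∑ x : Fin v, (univ.filter (fun j => x ∈ B j)).card = n * (k % v) := by
      have h2 : ∀ x : Fin v, (univ.filter (fun j => x ∈ B j)).card =
          ∑ j : Fin n, if x ∈ B j then 1 else 0 := by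
        intro x
        rw [Finset.sum_boole, Nat.cast_id]
      simp only [h2]
      rw [Finset.sum_comm]
      simp only [Finset.sum_boole, Finset.filter_mem_eq_inter, Finset.univ_inter, hBc, Nat.cast_id,
        Finset.sum_const, Finset.card_univ, Fintype.card_fin, smul_eq_mul]
    simp only [hpt, Finset.sum_const, Finset.card_univ, Fintype.card_fin, smul_eq_mul] at h1
    rw [hvr] at h1
    exact (Nat.eq_of_mul_eq_mul_right (by omega) h1).symm
  subst hn
  exact dr_core (k / v) r' (k % v) (Nat.div_add_mod k v) hr lam B hBc hpt G hG hBp hD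

theorem dr_zero {v d : ℕ} (hv : 2 ≤ v) (hd : d + 2 ≤ v) (lam c : ℤ)
    (h : lam * ((v : ℤ) - 1) + d = ((v : ℤ) - 1) * c) : d = 0 ∧ lam = c := by
  have hv1 : (0 : ℤ) < (v : ℤ) - 1 := by
    have : (2 : ℤ) ≤ v := by exact_mod_cast hv
    linarith
  have hdv : (d : ℤ) < (v : ℤ) - 1 := by
    have : (d : ℤ) + 2 ≤ v := by exact_mod_cast hd
    linarith
  have h1 : (d : ℤ) = ((v : ℤ) - 1) * (c - lam) := by linarith
  have h2 : c - lam = 0 := by
    rcases lt_trichotomy (c - lam) 0 with h3 | h3 | h3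
    · have : ((v : ℤ) - 1) * (c - lam) < 0 := mul_neg_of_pos_of_neg hv1 h3
      have : (0 : ℤ) ≤ d := Nat.cast_nonneg d
      linarith
    · exact h3
    · have h4 : ((v : ℤ) - 1) * 1 ≤ ((v : ℤ) - 1) * (c - lam) :=
        mul_le_mul_of_nonneg_left (by linarith) hv1.le
      linarith
  rw [h2, mul_zero] at h1
  exact ⟨by exact_mod_cast h1, by linarith⟩

/-- the cases `k % v = 0, 1` -/
theorem des_triv {v b k r d : ℕ} (hv : 2 ≤ v) (hk : k % v ≤ 1) (hc : v * r = b * k) (lam : ℤ)
    (hp : (r : ℤ) * k - D0 v b k r = lam * ((v : ℤ) - 1) + d) (hd : d + 2 ≤ v)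
    (G : Matrix (Fin v) (Fin v) ℤ) (hG : Reg d G) :
    ∃ N : Matrix (Fin v) (Fin b) ℕ, IsDes k r N ∧ Ex lam (D0 v b k r - lam) N = G := by
  obtain ⟨r', hr, hvr, hS, hD⟩ := D0_id (v := v) (b := b) (k := k) (r := r) (by omega) hc
  have hz : (r' : ℤ) * (((k % v : ℕ) : ℤ) - 1) = 0 := by
    rcases Nat.le_one_iff_eq_zero_or_eq_one.1 hk with h | h
    · rw [h, mul_zero] at hvr
      have : r' = 0 := by
        rcases Nat.mul_eq_zero.1 hvr with h1 | h1
        · omega
        · exact h1
      rw [this]; simp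
    · rw [h]; simp
  rw [hz, zero_add] at hS
  obtain ⟨hd0, hlam⟩ := dr_zero hv hd lam (2 * ((k / v : ℕ) : ℤ) * r' + ((k / v : ℕ) : ℤ) ^ 2 * b)
    (by rw [← hp, hS])
  have hG0 : ∀ x y, G x y = 0 := by
    intro x y
    have h1 := hG.row x
    rw [hd0, Nat.cast_zero] at h1
    have h2 : ∀ j ∈ (univ : Finset (Fin v)), 0 ≤ G x j := by
      intro j _
      rcases hG.zo x j with h | h <;> rw [h]
      exact zero_le_one
    exact (Finset.sum_eq_zero_iff_of_nonneg h2).1 h1 y (Finset.mem_univ y)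
  rcases Nat.le_one_iff_eq_zero_or_eq_one.1 hk with h | h
  · have hr0 : r' = 0 := by
      rw [h, mul_zero] at hvr
      rcases Nat.mul_eq_zero.1 hvr with h1 | h1
      · omega
      · exact h1
    refine dr_core (k / v) r' (k % v) (Nat.div_add_mod k v) hr lam (fun _ => ∅) ?_ ?_ G hG ?_ hD
    · intro l; rw [h]; simp
    · intro x; rw [hr0]; simp
    · intro x y _
      rw [hG0, hlam]
      simp
  · rw [h, mul_one] at hvr
    obtain ⟨f, hf⟩ := exists_fibres (α := Fin b) (s := v) (by omega) univ (fun _ => r') (by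
      simp only [Finset.sum_const, Finset.card_univ, Fintype.card_fin, smul_eq_mul]
      exact hvr)
    refine dr_core (k / v) r' (k % v) (Nat.div_add_mod k v) hr lam (fun l => {f l}) ?_ ?_ G hG ?_ hD
    · intro l; rw [h]; simp
    · intro x
      rw [← hf x]
      congr 1
      ext l
      simp [eq_comm]
    · intro x y hxy
      rw [hG0, hlam]
      have : (univ.filter (fun l : Fin b => x ∈ ({f l} : Finset (Fin v)) ∧
          y ∈ ({f l} : Finset (Fin v)))) = ∅ := by
        ext l
        simp only [Finset.mem_filter, Finset.mem_univ, Finset.mem_singleton, true_and,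
          Finset.notMem_empty, iff_false]
        rintro ⟨h1, h2⟩
        exact hxy (h1.trans h2.symm)
      rw [this]
      simp

end HCR
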