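import Mathlib
import Pool.Agent.Lib_helper88.HCR.Defs

set_option autoImplicit false

namespace HCR

open Finset Matrix

/-- the connection set of the circulant -/
def rg_P (v d s : ℕ) : Prop :=
  (1 ≤ s ∧ s ≤ d / 2) ∨ (v - d / 2 ≤ s ∧ s ≤ v - 1) ∨ (d % 2 = 1 ∧ 2 * s = v)

instance (v d s : ℕ) : Decidable (rg_P v d s) := by unfold rg_P; infer_instance

theorem rg_card {v d : ℕ} (hd : d < v) (h : d % 2 = 1 → v % 2 = 0) :
    ((range v).filter (rg_P v d)).card = d := by
  have hA : ((range v).filter (rg_P v d)) =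
      (Icc 1 (d / 2) ∪ Icc (v - d / 2) (v - 1)) ∪ (if d % 2 = 1 then {v / 2} else ∅) := by
    ext s
    by_cases hodd : d % 2 = 1
    · have := h hodd
      rw [if_pos hodd]
      simp only [mem_filter, mem_range, mem_union, mem_Icc, mem_singleton, rg_P]
      omega
    · rw [if_neg hodd, Finset.union_empty]
      simp only [mem_filter, mem_range, mem_union, mem_Icc, rg_P]
      omega
  have hd1 : Disjoint (Icc 1 (d / 2)) (Icc (v - d / 2) (v - 1)) := by
    rw [Finset.disjoint_left]
    intro s h1 h2
    rw [mem_Icc] at h1 h2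
    by_cases hodd : d % 2 = 1
    · have := h hodd
      omega
    · omega
  rw [hA]
  by_cases hodd : d % 2 = 1
  · have hv := h hodd
    rw [if_pos hodd, card_union_of_disjoint, card_union_of_disjoint hd1, Nat.card_Icc,
      Nat.card_Icc, card_singleton]
    · omega
    · rw [Finset.disjoint_singleton_right, mem_union, mem_Icc, mem_Icc]
      omega
  · rw [if_neg hodd, Finset.union_empty, card_union_of_disjoint hd1, Nat.card_Icc, Nat.card_Icc]
    omega

/-- regular graphs exist (circulants) -/
theorem exists_reg (v d : ℕ) (hd : d < v) (h : 2 ∣ v * d) :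
    ∃ G : Matrix (Fin v) (Fin v) ℤ, Reg d G := by
  have hv : NeZero v := ⟨by omega⟩
  have hpar : d % 2 = 1 → v % 2 = 0 := by
    intro ho
    rcases (Nat.Prime.dvd_mul Nat.prime_two).1 h with h1 | h1 <;> omega
  have hsy : ∀ a : Fin v, rg_P v d (-a).val ↔ rg_P v d a.val := by
    intro a
    have ha := a.isLt
    rw [Fin.val_neg']
    rcases Nat.eq_zero_or_pos a.val with h0 | hpos
    · rw [h0, Nat.sub_zero, Nat.mod_self]
    · rw [Nat.mod_eq_of_lt (by omega)]
      by_cases hodd : d % 2 = 1
      · have := hpar hodd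
        unfold rg_P
        omega
      · unfold rg_P
        omega
  refine ⟨fun i j => if rg_P v d (j - i).val then 1 else 0, ⟨?_, ?_, ?_, ?_⟩⟩
  · refine Matrix.IsSymm.ext fun i j => ?_
    show (if rg_P v d (i - j).val then (1 : ℤ) else 0) = if rg_P v d (j - i).val then (1 : ℤ) else 0
    have h1 : i - j = -(j - i) := (neg_sub j i).symm
    have h2 := hsy (j - i)
    rw [h1]
    by_cases hp : rg_P v d (j - i).val
    · rw [if_pos hp, if_pos (h2.2 hp)]
    · rw [if_neg hp, if_neg fun h3 => hp (h2.1 h3)]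
  · intro i
    have e1 : ∑ j : Fin v, (if rg_P v d (j - i).val then (1 : ℤ) else 0) =
        ∑ s : Fin v, (if rg_P v d s.val then (1 : ℤ) else 0) :=
      Equiv.sum_comp (Equiv.subRight i) (fun s : Fin v => if rg_P v d s.val then (1 : ℤ) else 0)
    rw [e1, Fin.sum_univ_eq_sum_range (fun s => if rg_P v d s then (1 : ℤ) else 0) v,
      Finset.sum_boole, rg_card hd hpar]
  · intro i
    have h0 : ¬ rg_P v d (i - i).val := by
      rw [sub_self]
      show ¬ rg_P v d 0
      unfold rg_P
      omega
    rw [if_neg h0]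
  · intro i j
    by_cases hp : rg_P v d (j - i).val
    · exact Or.inr (if_pos hp)
    · exact Or.inl (if_neg hp)

end HCR
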