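import Mathlib
import Pool.Agent.Lib_helper88.HCR.Defs

set_option autoImplicit false

namespace HCR

open Finset Matrix

private theorem bf_fintype {v : ℕ} (k : ℕ) (μ : Fin v → Fin v → ℤ) {ι : Type} [Fintype ι]
    (B : ι → Finset (Fin v)) (hB : ∀ i, (B i).card = k)
    (h : ∀ x y, x ≠ y → ((∑ i, (if x ∈ B i ∧ y ∈ B i then 1 else 0) : ℕ) : ℤ) = μ x y) :
    Real k μ := by
  classical
  refine ⟨Fintype.card ι, fun j => B ((Fintype.equivFin ι).symm j), fun j => hB _, ?_⟩
  intro x y hxy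
  rw [← h x y hxy, Finset.card_filter]
  congr 1
  exact Equiv.sum_comp (Fintype.equivFin ι).symm (fun i => if x ∈ B i ∧ y ∈ B i then 1 else 0)

theorem real_add {v : ℕ} (k : ℕ) (μ ν : Fin v → Fin v → ℤ) (h1 : Real k μ) (h2 : Real k ν) :
    Real k (fun x y => μ x y + ν x y) := by
  obtain ⟨n, B, hB, hc⟩ := h1
  obtain ⟨m, C, hC, hd⟩ := h2
  refine bf_fintype k _ (Sum.elim B C) ?_ ?_
  · rintro (i | i)
    · exact hB i
    · exact hC i
  · intro x y hxy
    rw [Fintype.sum_sum_type]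
    simp only [Sum.elim_inl, Sum.elim_inr]
    rw [← hc x y hxy, ← hd x y hxy, Finset.card_filter, Finset.card_filter]
    push_cast
    rfl

theorem real_mul {v : ℕ} (k t : ℕ) (μ : Fin v → Fin v → ℤ) (h1 : Real k μ) :
    Real k (fun x y => (t : ℤ) * μ x y) := by
  obtain ⟨n, B, hB, hc⟩ := h1
  refine bf_fintype k _ (fun p : Fin t × Fin n => B p.2) (fun p => hB _) ?_
  intro x y hxy
  rw [Fintype.sum_prod_type]
  have e : ∀ a : Fin t, (∑ j : Fin n, if x ∈ (fun p : Fin t × Fin n => B p.2) (a, j) ∧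
      y ∈ (fun p : Fin t × Fin n => B p.2) (a, j) then 1 else 0) =
      ∑ j : Fin n, if x ∈ B j ∧ y ∈ B j then 1 else 0 := fun a => rfl
  rw [Finset.sum_congr rfl (fun a _ => e a), Finset.sum_const, Finset.card_univ,
    Fintype.card_fin, smul_eq_mul, ← hc x y hxy, Finset.card_filter]
  push_cast
  rfl

theorem real_congr {v : ℕ} (k : ℕ) (μ ν : Fin v → Fin v → ℤ)
    (h : ∀ x y, x ≠ y → μ x y = ν x y) (h1 : Real k μ) : Real k ν := by
  obtain ⟨n, B, hB, hc⟩ := h1
  exact ⟨n, B, hB, fun x y hxy => (hc x y hxy).trans (h x y hxy)⟩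

theorem real_of_int {v : ℕ} (k : ℕ) (z : Finset (Fin v) → ℤ) (hz : ∀ Q, 0 ≤ z Q) :
    Real k (fun x y => ∑ Q ∈ (univ : Finset (Fin v)).powersetCard k,
      if x ∈ Q ∧ y ∈ Q then z Q else 0) := by
  refine bf_fintype k _ (ι := Σ Q : {Q // Q ∈ (univ : Finset (Fin v)).powersetCard k},
    Fin (z Q.1).toNat) (fun s => s.1.1) (fun s => (Finset.mem_powersetCard.1 s.1.2).2) ?_
  intro x y hxy
  rw [Fintype.sum_sigma]
  push_cast
  rw [← Finset.sum_coe_sort ((univ : Finset (Fin v)).powersetCard k)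
    (fun Q => if x ∈ Q ∧ y ∈ Q then z Q else 0)]
  refine Finset.sum_congr rfl (fun Q _ => ?_)
  by_cases hQ : x ∈ Q.1 ∧ y ∈ Q.1
  · rw [if_pos hQ, if_pos hQ]
    simp [hz]
  · rw [if_neg hQ, if_neg hQ]
    simp

theorem real_two {v : ℕ} (μ : Fin v → Fin v → ℤ) (h0 : ∀ x y, 0 ≤ μ x y)
    (hs : ∀ x y, μ x y = μ y x) : Real 2 μ := by
  refine real_congr 2 _ _ ?_ (real_of_int 2
    (fun Q => ∑ a ∈ Q, ∑ b ∈ Q, if a < b then μ a b else 0) (fun Q => ?_))
  · intro x y hxy
    have e1 : ∀ Q ∈ (univ : Finset (Fin v)).powersetCard 2, Q ≠ {x, y} →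
        (if x ∈ Q ∧ y ∈ Q then ∑ a ∈ Q, ∑ b ∈ Q, (if a < b then μ a b else 0) else 0) = 0 := by
      intro Q hQ hne
      rw [if_neg]
      rintro ⟨hx, hy⟩
      apply hne
      symm
      refine Finset.eq_of_subset_of_card_le ?_ ?_
      · intro a ha
        rcases Finset.mem_insert.1 ha with h | h
        · rw [h]
          exact hx
        · rw [Finset.mem_singleton.1 h]
          exact hy
      · rw [(Finset.mem_powersetCard.1 hQ).2, Finset.card_pair hxy]
    have e2 : ({x, y} : Finset (Fin v)) ∈ (univ : Finset (Fin v)).powersetCard 2 := by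
      rw [Finset.mem_powersetCard]
      exact ⟨Finset.subset_univ _, Finset.card_pair hxy⟩
    rw [Finset.sum_eq_single_of_mem _ e2 e1, if_pos ⟨by simp, by simp⟩]
    rw [Finset.sum_pair hxy, Finset.sum_pair hxy, Finset.sum_pair hxy, if_neg (lt_irrefl x),
      if_neg (lt_irrefl y)]
    rcases lt_or_gt_of_ne hxy with h | h
    · rw [if_pos h, if_neg (not_lt_of_gt h)]
      ring
    · rw [if_pos h, if_neg (not_lt_of_gt h), hs x y]
      ring
  · refine Finset.sum_nonneg (fun a _ => Finset.sum_nonneg (fun b _ => ?_))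
    split_ifs
    · exact h0 a b
    · exact le_rfl

end HCR
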