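import Mathlib
import Pool.Agent.Lib_helper88.HCR.Defs

set_option autoImplicit false

namespace HCR

open Finset Matrix

theorem cell_symm (s h : ℕ) (a0 b0 a b : Fin s) : Cell s h a0 b0 a b ↔ Cell s h b0 a0 b a := by
  unfold Cell
  rw [add_comm a.val b.val, add_comm a0.val b0.val]
  tauto

theorem cell_row (s h : ℕ) (h2 : 2 ≤ h) (hs : h ≤ s) (a0 b0 a : Fin s) :
    (univ.filter (fun b => Cell s h a0 b0 a b)).card =
      (if a = a0 then 1 else 0) + (if a.val < h then 1 else 0) := by
  classical
  set j : ℕ := if (a0.val + b0.val) % h = 0 then 1 else 0 with hj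
  have hjh : j < h := by
    rw [hj]
    split_ifs <;> omega
  have hj0 : (a0.val + b0.val) % h ≠ j := by
    rw [hj]
    split_ifs with h0
    · omega
    · exact h0
  have e0 : (univ.filter (fun b => Cell s h a0 b0 a b)) =
      (univ.filter (fun b => a = a0 ∧ b = b0)) ∪
      (univ.filter (fun b : Fin s => a.val < h ∧ b.val < h ∧ (a.val + b.val) % h = j)) := by
    rw [← Finset.filter_or]
    rfl
  have hdis : Disjoint (univ.filter (fun b => a = a0 ∧ b = b0))
      (univ.filter (fun b : Fin s => a.val < h ∧ b.val < h ∧ (a.val + b.val) % h = j)) := by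
    rw [Finset.disjoint_filter]
    rintro b - ⟨ha, hb⟩ ⟨-, -, hc⟩
    subst ha hb
    exact hj0 hc
  have c1 : (univ.filter (fun b : Fin s => a = a0 ∧ b = b0)).card = if a = a0 then 1 else 0 := by
    by_cases ha : a = a0
    · rw [if_pos ha]
      have : (univ.filter (fun b : Fin s => a = a0 ∧ b = b0)) = {b0} := by
        ext b
        simp [ha]
      rw [this, Finset.card_singleton]
    · rw [if_neg ha, Finset.card_eq_zero, Finset.filter_eq_empty_iff]
      rintro b - ⟨h1, -⟩
      exact ha h1
  have c2 : (univ.filter (fun b : Fin s => a.val < h ∧ b.val < h ∧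
      (a.val + b.val) % h = j)).card = if a.val < h then 1 else 0 := by
    by_cases ha : a.val < h
    · rw [if_pos ha, Finset.card_eq_one]
      have hb1 : (j + (h - a.val)) % h < h := Nat.mod_lt _ (by omega)
      refine ⟨⟨(j + (h - a.val)) % h, by omega⟩, ?_⟩
      ext b
      simp only [Finset.mem_filter, Finset.mem_univ, true_and, Finset.mem_singleton]
      constructor
      · rintro ⟨-, hb, hc⟩
        apply Fin.ext
        show b.val = (j + (h - a.val)) % h
        have e1 : (a.val + b.val) % h = (a.val + (j + (h - a.val))) % h := by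
          rw [hc]
          have : a.val + (j + (h - a.val)) = j + h := by omega
          rw [this, Nat.add_mod_right, Nat.mod_eq_of_lt hjh]
        have e2 : b.val ≡ j + (h - a.val) [MOD h] := Nat.ModEq.add_left_cancel' a.val e1
        have e3 : b.val % h = (j + (h - a.val)) % h := e2
        rw [Nat.mod_eq_of_lt hb] at e3
        exact e3
      · intro hb
        have hb' : b.val = (j + (h - a.val)) % h := congrArg Fin.val hb
        refine ⟨ha, by omega, ?_⟩
        rw [hb', Nat.add_mod, Nat.mod_mod, ← Nat.add_mod]
        have : a.val + (j + (h - a.val)) = j + h := by omega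
        rw [this, Nat.add_mod_right, Nat.mod_eq_of_lt hjh]
    · rw [if_neg ha, Finset.card_eq_zero, Finset.filter_eq_empty_iff]
      rintro b - ⟨h1, -⟩
      exact ha h1
  rw [e0, Finset.card_union_of_disjoint hdis, c1, c2]

theorem cell_tot (s h : ℕ) (h2 : 2 ≤ h) (hs : h ≤ s) (a0 b0 : Fin s) :
    (univ.filter (fun p : Fin s × Fin s => Cell s h a0 b0 p.1 p.2)).card = 1 + h := by
  classical
  rw [Finset.card_filter, Fintype.sum_prod_type]
  have e1 : ∀ a : Fin s, (∑ b : Fin s, if Cell s h a0 b0 (a, b).1 (a, b).2 then 1 else 0) =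
      (if a = a0 then 1 else 0) + (if a.val < h then 1 else 0) := by
    intro a
    rw [← cell_row s h h2 hs a0 b0 a, Finset.card_filter]
  rw [Finset.sum_congr rfl (fun a _ => e1 a), Finset.sum_add_distrib]
  congr 1
  · simp
  · rw [Fin.sum_univ_eq_sum_range (fun i => if i < h then 1 else 0) s, ← Finset.card_filter]
    have : (Finset.range s).filter (fun i => i < h) = Finset.range h := by
      ext i
      simp only [Finset.mem_filter, Finset.mem_range]
      omega
    rw [this, Finset.card_range]

end HCR
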