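import Mathlib
import Pool.Agent.Lib_helper88.HCR.Defs
import Pool.Agent.Lib_helper88.HCR.ba

set_option autoImplicit false

namespace HCR

open Finset Matrix

theorem bc_pair {α : Type} [DecidableEq α] {x y z w : α} (h : ({x, y} : Finset α) = {z, w}) :
    (x = z ∧ y = w) ∨ (x = w ∧ y = z) := by
  have h' : ({x, y} : Set α) = {z, w} := by
    have := congrArg (fun s : Finset α => (s : Set α)) h
    simpa using this
  exact Set.pair_eq_pair_iff.1 h'

theorem bc_mem_iff {v s : ℕ} (h : Fin v → Fin v → ℕ) (f : Fin v → Fin v → Fin s)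
    (e : Finset (Fin v × Fin s)) : e ∈ Gam v s h f ↔ ∃ x a y b, x ≠ y ∧
      ¬ Cell s (h x y) (f x y) (f y x) a b ∧ e = {(x, a), (y, b)} := by
  unfold Gam
  rw [mem_image]
  constructor
  · rintro ⟨⟨⟨x, a⟩, ⟨y, b⟩⟩, hp, rfl⟩
    obtain ⟨-, h1, h2⟩ := mem_filter.1 hp
    exact ⟨x, a, y, b, h1, h2, rfl⟩
  · rintro ⟨x, a, y, b, h1, h2, rfl⟩
    exact ⟨((x, a), (y, b)), mem_filter.2 ⟨mem_univ _, h1, h2⟩, rfl⟩

theorem Gam_mem {v s : ℕ} (h : Fin v → Fin v → ℕ) (f : Fin v → Fin v → Fin s)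
    (hh : ∀ x y, h x y = h y x) (x y : Fin v) (hxy : x ≠ y) (a b : Fin s) :
    ({(x, a), (y, b)} : Finset (Fin v × Fin s)) ∈ Gam v s h f ↔
      ¬ Cell s (h x y) (f x y) (f y x) a b := by
  rw [bc_mem_iff]
  constructor
  · rintro ⟨x', a', y', b', h1, h2, h3⟩
    rcases bc_pair h3 with ⟨h4, h5⟩ | ⟨h4, h5⟩
    · obtain ⟨rfl, rfl⟩ := Prod.mk.inj h4
      obtain ⟨rfl, rfl⟩ := Prod.mk.inj h5
      exact h2
    · obtain ⟨rfl, rfl⟩ := Prod.mk.inj h4
      obtain ⟨rfl, rfl⟩ := Prod.mk.inj h5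
      intro hc
      apply h2
      rw [cell_symm, hh y x]
      exact hc
  · intro hc
    exact ⟨x, a, y, b, hxy, hc, rfl⟩

theorem bc_row {s : ℕ} (h : ℕ) (h2 : 2 ≤ h) (hs : h ≤ s) (a0 b0 a : Fin s) :
    ((univ.filter (fun b : Fin s => ¬ Cell s h a0 b0 a b)).card : ℤ) =
      (s : ℤ) - (if a0 = a then 1 else 0) - (if a.val < h then 1 else 0) := by
  have h1 := card_filter_add_card_filter_not (s := (univ : Finset (Fin s)))
    (p := fun b => Cell s h a0 b0 a b)
  rw [card_univ, Fintype.card_fin, cell_row s h h2 hs a0 b0 a] at h1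
  have h3 : (((if a = a0 then 1 else 0) + (if a.val < h then 1 else 0) : ℕ) : ℤ) =
      (if a0 = a then 1 else 0) + (if a.val < h then 1 else 0) := by
    push_cast
    congr 1
    by_cases he : a = a0
    · rw [if_pos he, if_pos he.symm]
    · rw [if_neg he, if_neg (Ne.symm he)]
  have h4 : (((if a = a0 then 1 else 0) + (if a.val < h then 1 else 0) : ℕ) : ℤ) +
      ((univ.filter (fun b : Fin s => ¬ Cell s h a0 b0 a b)).card : ℤ) = (s : ℤ) := by
    exact_mod_cast h1
  rw [h3] at h4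
  linarith

/-- degrees of the blow-up -/
theorem Gam_deg {v s : ℕ} (h : Fin v → Fin v → ℕ) (f : Fin v → Fin v → Fin s)
    (hh : ∀ x y, h x y = h y x) (h2 : ∀ x y, x ≠ y → 2 ≤ h x y ∧ h x y ≤ s) (x : Fin v)
    (a : Fin s) :
    (Pool.Agent.Des.dg (Gam v s h f) {(x, a)} : ℤ) = (s : ℤ) * ((v : ℤ) - 1) -
      (((univ.erase x).filter (fun y => f x y = a)).card : ℤ) -
      (((univ.erase x).filter (fun y => a.val < h x y)).card : ℤ) := by
  classical
  have key : (Gam v s h f).filter (fun e => ({(x, a)} : Finset (Fin v × Fin s)) ⊆ e) =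
      (((univ.erase x) ×ˢ (univ : Finset (Fin s))).filter
        (fun q => ¬ Cell s (h x q.1) (f x q.1) (f q.1 x) a q.2)).image
          (fun q => ({(x, a), q} : Finset (Fin v × Fin s))) := by
    ext e
    rw [mem_filter, mem_image, singleton_subset_iff]
    constructor
    · rintro ⟨he, hx⟩
      obtain ⟨x', a', y', b', g1, g2, rfl⟩ := (bc_mem_iff h f e).1 he
      rw [mem_insert, mem_singleton] at hx
      rcases hx with hx | hx
      · obtain ⟨rfl, rfl⟩ := Prod.mk.inj hx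
        refine ⟨(y', b'), ?_, rfl⟩
        rw [mem_filter, mem_product]
        exact ⟨⟨mem_erase.2 ⟨g1.symm, mem_univ _⟩, mem_univ _⟩, g2⟩
      · obtain ⟨rfl, rfl⟩ := Prod.mk.inj hx
        refine ⟨(x', a'), ?_, pair_comm _ _⟩
        rw [mem_filter, mem_product]
        refine ⟨⟨mem_erase.2 ⟨g1, mem_univ _⟩, mem_univ _⟩, ?_⟩
        intro hc
        apply g2
        rw [cell_symm, hh x' x]
        exact hc
    · rintro ⟨⟨y, b⟩, hq, rfl⟩
      rw [mem_filter, mem_product] at hq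
      obtain ⟨⟨g1, -⟩, g2⟩ := hq
      have g3 := (mem_erase.1 g1).1
      refine ⟨(Gam_mem h f hh x y g3.symm a b).2 g2, mem_insert_self _ _⟩
  have hinj : Set.InjOn (fun q => ({(x, a), q} : Finset (Fin v × Fin s)))
      ((((univ.erase x) ×ˢ (univ : Finset (Fin s))).filter
        (fun q => ¬ Cell s (h x q.1) (f x q.1) (f q.1 x) a q.2) :
          Finset (Fin v × Fin s)) : Set (Fin v × Fin s)) := by
    rintro ⟨y, b⟩ hq ⟨y', b'⟩ hq' he
    rcases bc_pair he with ⟨-, g⟩ | ⟨g1, g2⟩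
    · exact g
    · rw [← g1, ← g2]
  rw [Pool.Agent.Des.dg, key, card_image_of_injOn hinj, card_filter, sum_product]
  push_cast
  have e1 : ∀ y ∈ univ.erase x, (∑ b : Fin s,
      (if ¬ Cell s (h x y) (f x y) (f y x) a b then (1:ℤ) else 0)) =
      (s : ℤ) - (if f x y = a then 1 else 0) - (if a.val < h x y then 1 else 0) := by
    intro y hy
    have g3 := (mem_erase.1 hy).1
    rw [← bc_row (h x y) (h2 x y g3.symm).1 (h2 x y g3.symm).2 (f x y) (f y x) a, card_filter]
    push_cast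
    rfl
  rw [sum_congr rfl e1, sum_sub_distrib, sum_sub_distrib, sum_const, card_erase_of_mem (mem_univ x),
    card_univ, Fintype.card_fin, card_filter, card_filter]
  have hv : 1 ≤ v := by
    have := x.2
    omega
  push_cast [Nat.cast_sub hv]
  rw [nsmul_eq_mul, Nat.cast_sub hv]
  push_cast
  ring

/-- multiplicities of the blow-up -/
theorem Gam_mult {v s : ℕ} (h : Fin v → Fin v → ℕ) (f : Fin v → Fin v → Fin s)
    (hh : ∀ x y, h x y = h y x) (h2 : ∀ x y, x ≠ y → 2 ≤ h x y ∧ h x y ≤ s) (x y : Fin v)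
    (hxy : x ≠ y) :
    (((Gam v s h f).filter (fun e => ∃ a b, e = {((x, a) : Fin v × Fin s), (y, b)})).card : ℤ) =
      (s : ℤ) ^ 2 - 1 - h x y := by
  classical
  have key : (Gam v s h f).filter (fun e => ∃ a b, e = {((x, a) : Fin v × Fin s), (y, b)}) =
      (univ.filter (fun q : Fin s × Fin s => ¬ Cell s (h x y) (f x y) (f y x) q.1 q.2)).image
          (fun q => ({(x, q.1), (y, q.2)} : Finset (Fin v × Fin s))) := by
    ext e
    rw [mem_filter, mem_image]
    constructor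
    · rintro ⟨he, a, b, rfl⟩
      refine ⟨(a, b), ?_, rfl⟩
      rw [mem_filter]
      exact ⟨mem_univ _, (Gam_mem h f hh x y hxy a b).1 he⟩
    · rintro ⟨⟨a, b⟩, hq, rfl⟩
      exact ⟨(Gam_mem h f hh x y hxy a b).2 (mem_filter.1 hq).2, a, b, rfl⟩
  have hinj : Function.Injective
      (fun q : Fin s × Fin s => ({(x, q.1), (y, q.2)} : Finset (Fin v × Fin s))) := by
    rintro ⟨a, b⟩ ⟨a', b'⟩ he
    rcases bc_pair he with ⟨g1, g2⟩ | ⟨g1, g2⟩
    · have e1 : a = a' := (Prod.mk.inj g1).2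
      have e2 : b = b' := (Prod.mk.inj g2).2
      rw [e1, e2]
    · exact absurd (Prod.mk.inj g1).1 hxy
  rw [key, card_image_of_injective _ hinj]
  have h1 := card_filter_add_card_filter_not (s := (univ : Finset (Fin s × Fin s)))
    (p := fun q => Cell s (h x y) (f x y) (f y x) q.1 q.2)
  rw [card_univ, Fintype.card_prod, Fintype.card_fin,
    cell_tot s (h x y) (h2 x y hxy).1 (h2 x y hxy).2] at h1
  have h3 : ((1 + h x y : ℕ) : ℤ) + ((univ.filter (fun q : Fin s × Fin s =>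
      ¬ Cell s (h x y) (f x y) (f y x) q.1 q.2)).card : ℤ) = ((s * s : ℕ) : ℤ) := by
    exact_mod_cast h1
  push_cast at h3 ⊢
  linarith

end HCR
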