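import Mathlib
import Pool.Agent.Lib_helper88.HCR.Defs
import Pool.Agent.Lib_helper88.HCR.D2.Fin

set_option autoImplicit false

namespace HCR

open Finset Matrix

/-- the theorem of helper96 for graphs (origin/main, `Lib_helper96/Des/Fin.lean`, `main 2`) -/
theorem des_main : ∃ c : ℝ, 0 < c ∧ ∀ q : ℕ, 2 < q → ∃ n₀ : ℕ,
    ∀ (V : Type) [Fintype V] [DecidableEq V], n₀ ≤ Fintype.card V →
    ∀ G : Finset (Finset V), Pool.Agent.Des.Dense q 2 c G → Pool.Agent.Des.Divis q 2 G →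
      Pool.Agent.Des.Decomp q 2 G :=
  Pool.Agent.Des.main 2 le_rfl

end HCR
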