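import Mathlib
import Pool.Agent.Lib_helper88.HCR.Defs

set_option autoImplicit false

namespace HCR

open Finset Matrix

/-- blow-up: a decomposition of a simple graph on `V × [s]` without edges inside the fibres projects
to a family of `k`-sets on `V` -/
theorem blowup {v s k : ℕ} (hk : 2 ≤ k) (Γ : Finset (Finset (Fin v × Fin s)))
    (hΓ : ∀ e ∈ Γ, ∃ x a y b, x ≠ y ∧ e = {((x, a) : Fin v × Fin s), (y, b)})
    (hD : Pool.Agent.Des.Decomp k 2 Γ) :
    Real k (fun x y : Fin v => (((Γ.filter (fun e => ∃ a b, e = {((x, a) : Fin v × Fin s), (y, b)})).card : ℕ) : ℤ)) := by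
  classical
  obtain ⟨D, hcard, hdisj, hun⟩ := hD
  -- the first coordinate is injective on the members of `D`
  have hinj : ∀ Q ∈ D, ∀ p ∈ Q, ∀ q ∈ Q, p.1 = q.1 → p = q := by
    intro Q hQ p hp q hq h
    by_contra hne
    have hmem : ({p, q} : Finset (Fin v × Fin s)) ∈ Γ := by
      rw [← hun, Finset.mem_biUnion]
      refine ⟨Q, hQ, Finset.mem_powersetCard.2 ⟨?_, Finset.card_pair hne⟩⟩
      intro z hz
      rcases Finset.mem_insert.1 hz with rfl | hz
      · exact hp
      · rw [Finset.mem_singleton.1 hz]; exact hq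
    obtain ⟨x, a, y, b, hxy, he⟩ := hΓ _ hmem
    have hp' : p ∈ ({((x, a) : Fin v × Fin s), (y, b)} : Finset (Fin v × Fin s)) := by
      rw [← he]; exact Finset.mem_insert_self _ _
    have hq' : q ∈ ({((x, a) : Fin v × Fin s), (y, b)} : Finset (Fin v × Fin s)) := by
      rw [← he]; exact Finset.mem_insert_of_mem (Finset.mem_singleton_self _)
    rw [Finset.mem_insert, Finset.mem_singleton] at hp' hq'
    rcases hp' with rfl | rfl <;> rcases hq' with rfl | rfl
    · exact hne rfl
    · exact hxy h
    · exact hxy h.symm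
    · exact hne rfl
  refine ⟨D.card, fun j => (D.equivFin.symm j).1.image Prod.fst, fun j => ?_, fun x y hxy => ?_⟩
  · have hQ := (D.equivFin.symm j).2
    rw [Finset.card_image_of_injOn fun p hp q hq h => hinj _ hQ p hp q hq h]
    exact hcard _ hQ
  · have h1 : ((Finset.univ.filter (fun j : Fin D.card =>
        x ∈ (D.equivFin.symm j).1.image Prod.fst ∧ y ∈ (D.equivFin.symm j).1.image Prod.fst)).card)
        = ∑ Q ∈ D, if x ∈ Q.image Prod.fst ∧ y ∈ Q.image Prod.fst then 1 else 0 := by
      rw [Finset.card_filter, Equiv.sum_comp D.equivFin.symm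
        (fun Q : D => if x ∈ Q.1.image Prod.fst ∧ y ∈ Q.1.image Prod.fst then 1 else 0)]
      exact Finset.sum_coe_sort D
        (fun Q => if x ∈ Q.image Prod.fst ∧ y ∈ Q.image Prod.fst then 1 else 0)
    rw [h1]
    have h2 : Γ.filter (fun e => ∃ a b, e = {((x, a) : Fin v × Fin s), (y, b)})
        = D.biUnion (fun Q => (Q.powersetCard 2).filter
          (fun e => ∃ a b, e = {((x, a) : Fin v × Fin s), (y, b)})) := by
      rw [← hun, Finset.filter_biUnion]
    beta_reduce
    rw [h2, Finset.card_biUnion]
    · push_cast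
      refine Finset.sum_congr rfl fun Q hQ => ?_
      by_cases hc : x ∈ Q.image Prod.fst ∧ y ∈ Q.image Prod.fst
      · rw [if_pos hc]
        obtain ⟨hx, hy⟩ := hc
        rw [Finset.mem_image] at hx hy
        obtain ⟨p, hp, rfl⟩ := hx
        obtain ⟨q, hq, rfl⟩ := hy
        have hpq : p ≠ q := fun h => hxy (by rw [h])
        have h3 : (Q.powersetCard 2).filter
            (fun e => ∃ a b, e = {((p.1, a) : Fin v × Fin s), (q.1, b)}) = {{p, q}} := by
          ext e
          rw [Finset.mem_filter, Finset.mem_powersetCard, Finset.mem_singleton]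
          constructor
          · rintro ⟨⟨hsub, _⟩, a, b, rfl⟩
            have e1 : ((p.1, a) : Fin v × Fin s) = p :=
              hinj Q hQ _ (hsub (Finset.mem_insert_self _ _)) p hp rfl
            have e2 : ((q.1, b) : Fin v × Fin s) = q :=
              hinj Q hQ _ (hsub (Finset.mem_insert_of_mem (Finset.mem_singleton_self _))) q hq rfl
            rw [e1, e2]
          · rintro rfl
            refine ⟨⟨?_, Finset.card_pair hpq⟩, p.2, q.2, rfl⟩
            intro z hz
            rcases Finset.mem_insert.1 hz with rfl | hz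
            · exact hp
            · rw [Finset.mem_singleton.1 hz]; exact hq
        rw [h3, Finset.card_singleton]
        rfl
      · rw [if_neg hc]
        have h3 : (Q.powersetCard 2).filter
            (fun e => ∃ a b, e = {((x, a) : Fin v × Fin s), (y, b)}) = ∅ := by
          rw [Finset.filter_eq_empty_iff]
          rintro e he ⟨a, b, rfl⟩
          rw [Finset.mem_powersetCard] at he
          apply hc
          refine ⟨Finset.mem_image.2 ⟨(x, a), he.1 (Finset.mem_insert_self _ _), rfl⟩,
            Finset.mem_image.2 ⟨(y, b), he.1 (Finset.mem_insert_of_mem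
              (Finset.mem_singleton_self _)), rfl⟩⟩
        rw [h3, Finset.card_empty]
        rfl
    · intro Q hQ Q' hQ' hne
      exact (hdisj Q hQ Q' hQ' hne).mono (Finset.filter_subset _ _) (Finset.filter_subset _ _)

end HCR
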