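import Mathlib
import Pool.Agent.Lib_helper88.HCR.Defs
import Pool.Agent.Lib_helper88.HCR.bc
import Pool.Agent.Lib_helper88.HCR.bd
import Pool.Agent.Lib_helper88.HCR.bb
import Pool.Agent.Lib_helper88.HCR.bu
import Pool.Agent.Lib_helper88.HCR.bf

set_option autoImplicit false

namespace HCR

open Finset Matrix

theorem be_edge {v s : ℕ} (h : Fin v → Fin v → ℕ) (f : Fin v → Fin v → Fin s) :
    ∀ e ∈ Gam v s h f, ∃ x a y b, x ≠ y ∧ e = {((x, a) : Fin v × Fin s), (y, b)} := by
  intro e he
  unfold Gam at he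
  rw [mem_image] at he
  obtain ⟨p, hp, rfl⟩ := he
  rw [mem_filter] at hp
  exact ⟨p.1.1, p.1.2, p.2.1, p.2.2, hp.2.1, rfl⟩

theorem be_unif {v s : ℕ} (h : Fin v → Fin v → ℕ) (f : Fin v → Fin v → Fin s) :
    Pool.Agent.Des.Unif 2 (Gam v s h f) := by
  intro e he
  obtain ⟨x, a, y, b, hxy, rfl⟩ := be_edge h f e he
  exact card_pair (fun hh => hxy (congrArg Prod.fst hh))

/-- sum of the degrees -/
theorem be_degsum {V : Type} [Fintype V] [DecidableEq V] (Γ : Finset (Finset V))
    (hU : Pool.Agent.Des.Unif 2 Γ) : ∑ p : V, (Pool.Agent.Des.dg Γ {p}) = 2 * Γ.card := by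
  unfold Pool.Agent.Des.dg
  simp only [card_filter, singleton_subset_iff]
  rw [sum_comm]
  have h1 : ∀ e ∈ Γ, (∑ p : V, if p ∈ e then 1 else 0) = 2 := by
    intro e he
    rw [← card_filter]
    rw [filter_mem_eq_inter, univ_inter]
    exact hU e he
  rw [sum_congr rfl h1]
  simp [mul_comm]

/-- every `(s ^ 2 - m) K_v + G`, `4 ≤ m ≤ s + 1`, is realised when `v` is large -/
theorem window (k : ℕ) (hk : 3 ≤ k) : ∃ s₀ : ℕ, ∀ s : ℕ, s₀ ≤ s → ∃ v₀ : ℕ, ∀ v : ℕ, v₀ ≤ v →
    ∀ m : ℕ, 4 ≤ m → m ≤ s + 1 → ∀ (d : ℕ) (G : Matrix (Fin v) (Fin v) ℤ), Reg d G →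
    ((k : ℤ) - 1) ∣ ((s : ℤ) ^ 2 - m) * ((v : ℤ) - 1) + d →
    (k : ℤ) * ((k : ℤ) - 1) ∣ (v : ℤ) * (((s : ℤ) ^ 2 - m) * ((v : ℤ) - 1) + d) →
    Real k (fun x y => (s : ℤ) ^ 2 - m + G x y) := by
  obtain ⟨c, hc, H⟩ := des_main
  obtain ⟨n₀, hn⟩ := H k (by omega)
  refine ⟨max 4 ⌈4 * (k : ℝ) / c⌉₊, fun s hs => ?_⟩
  refine ⟨max (max n₀ (s * k + 2)) ⌈2 * (k : ℝ) / c⌉₊, fun v hv m hm4 hms d G hG hd1 hd2 => ?_⟩
  have hs4 : 4 ≤ s := le_trans (le_max_left _ _) hs
  have hsc : 4 * (k : ℝ) / c ≤ s := (Nat.le_ceil _).trans (by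
    exact_mod_cast le_trans (le_max_right _ _) hs)
  have hv0 : n₀ ≤ v := le_trans (le_trans (le_max_left _ _) (le_max_left _ _)) hv
  have hv1 : s * k + 2 ≤ v := le_trans (le_trans (le_max_right _ _) (le_max_left _ _)) hv
  have hvc : 2 * (k : ℝ) / c ≤ v := (Nat.le_ceil _).trans (by
    exact_mod_cast le_trans (le_max_right _ _) hv)
  -- the pattern sizes
  set h : Fin v → Fin v → ℕ := fun x y => ((m : ℤ) - 1 - G x y).toNat with hh
  have hhz : ∀ x y, ((h x y : ℕ) : ℤ) = (m : ℤ) - 1 - G x y := by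
    intro x y
    rw [hh]
    simp only
    rw [Int.toNat_of_nonneg]
    rcases hG.zo x y with h0 | h0 <;> rw [h0] <;> omega
  have hsym : ∀ x y, h x y = h y x := by
    intro x y
    have h1 : G x y = G y x := hG.symm.apply y x
    simp only [hh, h1]
  have h2 : ∀ x y, x ≠ y → 2 ≤ h x y ∧ h x y ≤ s := by
    intro x y _
    have h1 := hhz x y
    rcases hG.zo x y with h0 | h0 <;> rw [h0] at h1 <;> constructor <;> omega
  set A : Fin s → ℤ := fun a => if a.val < m - 1 then 1 else 0 with hA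
  set B : Fin s → ℤ := fun a => if a.val < m - 2 then 1 else 0 with hB
  have hcnt : ∀ t : ℕ, t ≤ s → (∑ a : Fin s, if a.val < t then (1 : ℤ) else 0) = t := by
    intro t ht
    have h1 : (univ.filter (fun a : Fin s => a.val < t)).card = t := by
      have h3 : univ.filter (fun a : Fin s => a.val < t) =
          (univ : Finset (Fin t)).map ⟨Fin.castLE ht, Fin.castLE_injective ht⟩ := by
        ext a
        simp only [mem_filter, mem_univ, true_and, mem_map, Function.Embedding.coeFn_mk]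
        constructor
        · intro h
          exact ⟨⟨a.val, h⟩, by ext; simp⟩
        · rintro ⟨b, rfl⟩
          simp
      rw [h3, card_map, card_univ, Fintype.card_fin]
    have h4 := card_filter (fun a : Fin s => a.val < t) univ
    rw [h1] at h4
    have h5 : ((∑ i : Fin s, if i.val < t then 1 else 0 : ℕ) : ℤ) = (t : ℤ) := by rw [← h4]
    rw [← h5]
    push_cast
    rfl
  have hsA : ∑ a, A a = (m : ℤ) - 1 := by
    have := hcnt (m - 1) (by omega)
    rw [hA]
    simp only
    rw [this]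
    push_cast [Nat.cast_sub (by omega : 1 ≤ m)]
    ring
  have hsB : ∑ a, B a = (m : ℤ) - 2 := by
    have := hcnt (m - 2) (by omega)
    rw [hB]
    simp only
    rw [this]
    push_cast [Nat.cast_sub (by omega : 2 ≤ m)]
    ring
  set e' : Fin s → ℤ := fun a => ((v : ℤ) - 1) * A a + (B a - A a) * d with he'
  have hcard : ∀ x : Fin v, ((univ.erase x).card : ℤ) = (v : ℤ) - 1 := by
    intro x
    rw [card_erase_of_mem (mem_univ x), card_univ, Fintype.card_fin]
    push_cast [Nat.cast_sub (by omega : 1 ≤ v)]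
    ring
  have hGs : ∀ x : Fin v, ∑ y ∈ univ.erase x, G x y = d := by
    intro x
    rw [← hG.row x, ← Finset.add_sum_erase univ (fun y => G x y) (mem_univ x), hG.diag, zero_add]
  have hE : ∀ (x : Fin v) (a : Fin s),
      (((univ.erase x).filter (fun y => a.val < h x y)).card : ℤ) = e' a := by
    intro x a
    rw [card_filter]
    push_cast
    have h1 : ∀ y ∈ univ.erase x, (if a.val < h x y then (1 : ℤ) else 0) =
        A a + (B a - A a) * G x y := by
      intro y _
      have h3 := hhz x y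
      simp only [hA, hB]
      rcases hG.zo x y with h0 | h0
      · rw [h0] at h3 ⊢
        have h4 : h x y = m - 1 := by omega
        rw [h4]
        ring
      · rw [h0] at h3 ⊢
        have h4 : h x y = m - 2 := by omega
        rw [h4]
        ring
    rw [sum_congr rfl h1, sum_add_distrib, ← mul_sum, hGs, sum_const, nsmul_eq_mul, hcard]
  -- residues
  obtain ⟨n, hn1, hn2⟩ := exists_residues k s (v - 1) hk (by omega) (by omega)
    (fun a => (s : ℤ) * ((v : ℤ) - 1) - e' a) (by
      have h1 : (∑ a : Fin s, ((s : ℤ) * ((v : ℤ) - 1) - e' a)) - ((v - 1 : ℕ) : ℤ) =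
          ((s : ℤ) ^ 2 - m) * ((v : ℤ) - 1) + d := by
        simp only [he', sum_sub_distrib, sum_add_distrib, ← mul_sum, ← sum_mul, hsA, hsB,
          sum_const, card_univ, Fintype.card_fin, nsmul_eq_mul]
        push_cast [Nat.cast_sub (by omega : 1 ≤ v)]
        ring
      rw [h1]
      exact hd1)
  have hfx : ∀ x : Fin v, ∃ f : Fin v → Fin s, ∀ a,
      ((univ.erase x).filter (fun y => f y = a)).card = n a := by
    intro x
    refine exists_fibres (by omega) (univ.erase x) n ?_
    rw [hn1, card_erase_of_mem (mem_univ x), card_univ, Fintype.card_fin]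
  choose f hf using hfx
  have hdeg : ∀ (x : Fin v) (a : Fin s), (Pool.Agent.Des.dg (Gam v s h f) {(x, a)} : ℤ) =
      (s : ℤ) * ((v : ℤ) - 1) - e' a - n a := by
    intro x a
    rw [Gam_deg h f hsym h2 x a, hE, hf]
    ring
  have hU := be_unif h f
  have hk2 : (2 : ℤ) * (k.choose 2 : ℤ) = (k : ℤ) * ((k : ℤ) - 1) := by
    have h1 : k.choose 2 * 2 = k * (k - 1) := by
      rw [Nat.choose_two_right]
      exact Nat.div_mul_cancel (Nat.even_mul_pred_self k).two_dvd
    have h3 : ((k.choose 2 * 2 : ℕ) : ℤ) = ((k * (k - 1) : ℕ) : ℤ) := by rw [h1]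
    push_cast [Nat.cast_sub (by omega : 1 ≤ k)] at h3
    linarith
  have hDiv : Pool.Agent.Des.Divis k 2 (Gam v s h f) := by
    intro T hT
    rcases Nat.lt_or_ge T.card 1 with h1 | h1
    · have hT0 : T = ∅ := card_eq_zero.1 (by omega)
      subst hT0
      have h3 : Pool.Agent.Des.dg (Gam v s h f) ∅ = (Gam v s h f).card := by
        unfold Pool.Agent.Des.dg
        congr 1
        ext e
        simp
      rw [h3, card_empty]
      have h4 := be_degsum (Gam v s h f) hU
      have h5 : (2 : ℤ) * (Gam v s h f).card =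
          (v : ℤ) * (((s : ℤ) ^ 2 - m) * ((v : ℤ) - 1) + d) := by
        have h6 : ((∑ p : Fin v × Fin s, (Pool.Agent.Des.dg (Gam v s h f) {p}) : ℕ) : ℤ) =
            2 * (Gam v s h f).card := by rw [h4]; push_cast; ring
        rw [← h6]
        push_cast
        rw [← univ_product_univ, sum_product]
        rw [sum_congr rfl (fun x _ => sum_congr rfl (fun a _ => hdeg x a))]
        have h7 : ∑ a, (n a : ℤ) = (v : ℤ) - 1 := by
          rw [← Nat.cast_sum, hn1]
          push_cast [Nat.cast_sub (by omega : 1 ≤ v)]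
          ring
        simp only [he', sum_sub_distrib, sum_add_distrib, ← mul_sum, ← sum_mul, hsA, hsB,
          sum_const, card_univ, Fintype.card_fin, nsmul_eq_mul, h7]
        ring
      have h8 : (2 : ℤ) * (k.choose 2 : ℤ) ∣ 2 * ((Gam v s h f).card : ℤ) := by
        rw [h5, hk2]; exact hd2
      have h9 : (k.choose 2 : ℤ) ∣ ((Gam v s h f).card : ℤ) :=
        (mul_dvd_mul_iff_left (by norm_num : (2 : ℤ) ≠ 0)).1 h8
      have h10 : k.choose 2 ∣ (Gam v s h f).card := by exact_mod_cast h9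
      simpa using h10
    · have hT1 : T.card = 1 := by omega
      obtain ⟨⟨x, a⟩, rfl⟩ := card_eq_one.1 hT1
      rw [card_singleton]
      have h3 : ((k - 1 : ℕ) : ℤ) ∣ (Pool.Agent.Des.dg (Gam v s h f) {(x, a)} : ℤ) := by
        rw [hdeg, Nat.cast_sub (by omega : 1 ≤ k)]
        exact hn2 a
      have h4 : k - 1 ∣ Pool.Agent.Des.dg (Gam v s h f) {(x, a)} := by exact_mod_cast h3
      simpa using h4
  have hDense : Pool.Agent.Des.Dense k 2 c (Gam v s h f) := by
    refine ⟨hU, fun S hS => ?_⟩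
    obtain ⟨⟨x, a⟩, rfl⟩ := card_eq_one.1 hS
    have hna : (n a : ℤ) ≤ (v : ℤ) - 1 := by
      have h1 : n a ≤ ∑ a, n a := single_le_sum (fun _ _ => Nat.zero_le _) (mem_univ a)
      rw [hn1] at h1
      omega
    have hd' : (d : ℤ) ≤ (v : ℤ) - 1 := by
      rw [← hGs x, ← hcard x]
      have : ∑ y ∈ univ.erase x, G x y ≤ ∑ y ∈ univ.erase x, (1 : ℤ) := by
        refine sum_le_sum (fun y _ => ?_)
        rcases hG.zo x y with h0 | h0 <;> rw [h0] <;> norm_num
      simpa using this
    have hea : e' a ≤ (v : ℤ) - 1 := by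
      simp only [he', hA, hB]
      have hd0 : (0 : ℤ) ≤ d := by positivity
      by_cases h1 : a.val < m - 2
      · have h3 : a.val < m - 1 := by omega
        simp [h1, h3]
      · by_cases h3 : a.val < m - 1
        · simp [h1, h3]
        · simp [h1, h3]
          omega
    have hdz := hdeg x a
    have h5 : (s : ℤ) * v - s - 2 * v ≤ (Pool.Agent.Des.dg (Gam v s h f) {(x, a)} : ℤ) := by
      rw [hdz]
      linarith
    have h6 : (s : ℝ) * v - s - 2 * v ≤ (Pool.Agent.Des.dg (Gam v s h f) {(x, a)} : ℝ) := by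
      exact_mod_cast h5
    refine le_trans ?_ h6
    have hkr : (0 : ℝ) < k := by exact_mod_cast (by omega : 0 < k)
    have hsr : (0 : ℝ) < s := by exact_mod_cast (by omega : 0 < s)
    have hvr : (0 : ℝ) < v := by exact_mod_cast (by omega : 0 < v)
    rw [Fintype.card_prod, Fintype.card_fin, Fintype.card_fin]
    push_cast
    simp only [Nat.reduceSub, pow_one]
    have h7 : (2 : ℝ) * v ≤ c / k * (v * s) / 2 := by
      have : 4 ≤ c / k * s := by
        rw [div_le_iff₀ hc] at hsc
        rw [div_mul_eq_mul_div, le_div_iff₀ hkr]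
        linarith
      nlinarith
    have h8 : (s : ℝ) ≤ c / k * (v * s) / 2 := by
      have : 2 ≤ c / k * v := by
        rw [div_le_iff₀ hc] at hvc
        rw [div_mul_eq_mul_div, le_div_iff₀ hkr]
        linarith
      nlinarith
    nlinarith
  have hcardV : n₀ ≤ Fintype.card (Fin v × Fin s) := by
    rw [Fintype.card_prod, Fintype.card_fin, Fintype.card_fin]
    nlinarith
  have hDec := hn (Fin v × Fin s) hcardV (Gam v s h f) hDense hDiv
  have hR := blowup (by omega) (Gam v s h f) (be_edge h f) hDec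
  refine real_congr k _ _ (fun x y hxy => ?_) hR
  have h9 := Gam_mult h f hsym h2 x y hxy
  rw [h9, hhz]
  ring

end HCR
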