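import Mathlib
import Pool.Agent.Lib_helper88.HCR.Defs
import Pool.Agent.Lib_helper88.HCR.be
import Pool.Agent.Lib_helper88.HCR.bf

set_option autoImplicit false

namespace HCR

open Finset Matrix

theorem bg_zero (v : ℕ) : Reg 0 (0 : Matrix (Fin v) (Fin v) ℤ) where
  symm := Matrix.transpose_zero
  row := by intro i; simp
  diag := by intro i; rfl
  zo := by intro i j; exact Or.inl rfl

/-- large `v` -/
theorem real_big (k : ℕ) (hk : 3 ≤ k) : ∃ C : ℕ, ∀ v : ℕ, C ≤ v → ∀ lam : ℤ, (C : ℤ) ≤ lam →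
    ∀ (d : ℕ) (G : Matrix (Fin v) (Fin v) ℤ), Reg d G →
    ((k : ℤ) - 1) ∣ lam * ((v : ℤ) - 1) + d →
    (k : ℤ) * ((k : ℤ) - 1) ∣ (v : ℤ) * (lam * ((v : ℤ) - 1) + d) →
    Real k (fun x y => lam + G x y) := by
  obtain ⟨s₀, hw⟩ := window k hk
  obtain ⟨s, hs0, hs4, c, hc⟩ : ∃ s : ℕ, s₀ ≤ s ∧ 4 ≤ s ∧
      ∃ c : ℤ, (s : ℤ) = (k : ℤ) * ((k : ℤ) - 1) * c := by
    refine ⟨(s₀ + 1) * (k * (k - 1)), ?_, ?_, ((s₀ : ℤ) + 1), ?_⟩
    · have h1 : 1 ≤ k * (k - 1) := Nat.one_le_iff_ne_zero.2 (by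
        have : 0 < k * (k - 1) := Nat.mul_pos (by omega) (by omega)
        omega)
      calc s₀ ≤ (s₀ + 1) * 1 := by omega
        _ ≤ (s₀ + 1) * (k * (k - 1)) := Nat.mul_le_mul_left _ h1
    · have h1 : 3 * 2 ≤ k * (k - 1) := Nat.mul_le_mul hk (by omega)
      calc 4 ≤ 1 * (k * (k - 1)) := by omega
        _ ≤ (s₀ + 1) * (k * (k - 1)) := Nat.mul_le_mul_right _ (by omega)
    · push_cast [Nat.cast_sub (show 1 ≤ k by omega)]
      ring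
  obtain ⟨va, hva⟩ := hw s hs0
  -- the period
  set Pi : ℕ := s * (s - 1) with hPi
  have hs4Z : (4 : ℤ) ≤ s := by exact_mod_cast hs4
  have hPiZ : (Pi : ℤ) = (s : ℤ) * ((s : ℤ) - 1) := by
    rw [hPi]
    push_cast [Nat.cast_sub (show 1 ≤ s by omega)]
    ring
  have hPipos : (0 : ℤ) < Pi := by
    rw [hPiZ]
    exact mul_pos (by linarith) (by linarith)
  obtain ⟨s1, hs1a, hs1b⟩ : ∃ s1 : ℕ, s₀ ≤ s1 ∧ Pi + 5 ≤ s1 :=
    ⟨max s₀ (Pi + 5), le_max_left _ _, le_max_right _ _⟩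
  obtain ⟨vb, hvb⟩ := hw s1 hs1a
  refine ⟨max (max va vb) (s1 ^ 2), ?_⟩
  intro v hv lam hlam d G hG hd1 hd2
  have hv1 : va ≤ v := (le_max_left _ _).trans ((le_max_left _ _).trans hv)
  have hv2 : vb ≤ v := (le_max_right _ _).trans ((le_max_left _ _).trans hv)
  have hlam1 : ((s1 : ℤ)) ^ 2 ≤ lam := by
    have h1 : ((s1 ^ 2 : ℕ) : ℤ) ≤ ((max (max va vb) (s1 ^ 2) : ℕ) : ℤ) := by
      exact_mod_cast le_max_right (max va vb) (s1 ^ 2)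
    push_cast at h1 hlam
    linarith
  -- Pi is realised
  have hkk : (k : ℤ) * ((k : ℤ) - 1) ∣ Pi := by
    rw [hPiZ, hc]
    exact ⟨c * ((k : ℤ) * ((k : ℤ) - 1) * c - 1), by ring⟩
  have hRPi : Real k (fun _ _ : Fin v => (Pi : ℤ)) := by
    have e1 : ((s : ℤ) ^ 2 - (s : ℤ)) = Pi := by
      rw [hPiZ]
      ring
    have h1 := hva v hv1 s hs4 (by omega) 0 0 (bg_zero v) (by
      rw [e1, Nat.cast_zero, add_zero]
      exact ((dvd_mul_left ((k : ℤ) - 1) (k : ℤ)).trans hkk).mul_right _) (by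
      rw [e1, Nat.cast_zero, add_zero]
      exact (hkk.mul_right _).mul_left _)
    refine real_congr k _ _ ?_ h1
    intro x y _
    rw [e1]
    simp
  -- the residue
  obtain ⟨m, hm⟩ : ∃ m : ℕ, (m : ℤ) = 4 + ((s1 : ℤ) ^ 2 - lam - 4) % Pi := by
    have h1 := Int.emod_nonneg ((s1 : ℤ) ^ 2 - lam - 4) hPipos.ne'
    exact ⟨(4 + ((s1 : ℤ) ^ 2 - lam - 4) % Pi).toNat, Int.toNat_of_nonneg (by linarith)⟩
  have hr0 := Int.emod_nonneg ((s1 : ℤ) ^ 2 - lam - 4) hPipos.ne'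
  have hr1 := Int.emod_lt_of_pos ((s1 : ℤ) ^ 2 - lam - 4) hPipos
  have hm4 : 4 ≤ m := by
    have : (4 : ℤ) ≤ m := by linarith
    exact_mod_cast this
  have hms : m ≤ s1 + 1 := by
    have h1 : (Pi : ℤ) + 5 ≤ s1 := by exact_mod_cast hs1b
    have : (m : ℤ) ≤ s1 + 1 := by linarith
    exact_mod_cast this
  obtain ⟨t, ht⟩ : (Pi : ℤ) ∣ lam - ((s1 : ℤ) ^ 2 - m) := by
    have h1 := Int.emod_add_mul_ediv ((s1 : ℤ) ^ 2 - lam - 4) Pi
    refine ⟨-(((s1 : ℤ) ^ 2 - lam - 4) / Pi), ?_⟩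
    rw [hm]
    linarith
  have ht0 : 0 ≤ t := by
    by_contra hneg
    push Not at hneg
    have h1 : (Pi : ℤ) * t < 0 := mul_neg_of_pos_of_neg hPipos hneg
    have h2 : (0 : ℤ) ≤ m := by positivity
    linarith
  have hlam2 : lam = (Pi : ℤ) * t + ((s1 : ℤ) ^ 2 - m) := by linarith
  have hdiff : (k : ℤ) * ((k : ℤ) - 1) ∣ (Pi : ℤ) * t * ((v : ℤ) - 1) :=
    (hkk.mul_right _).mul_right _
  have hreal := hvb v hv2 m hm4 hms d G hG (by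
    have h1 : ((k : ℤ) - 1) ∣ (Pi : ℤ) * t * ((v : ℤ) - 1) :=
      (dvd_mul_left ((k : ℤ) - 1) (k : ℤ)).trans hdiff
    have h2 : ((s1 : ℤ) ^ 2 - m) * ((v : ℤ) - 1) + d =
        (lam * ((v : ℤ) - 1) + d) - (Pi : ℤ) * t * ((v : ℤ) - 1) := by
      rw [hlam2]
      ring
    rw [h2]
    exact dvd_sub hd1 h1) (by
    have h2 : (v : ℤ) * (((s1 : ℤ) ^ 2 - m) * ((v : ℤ) - 1) + d) =
        (v : ℤ) * (lam * ((v : ℤ) - 1) + d) - (v : ℤ) * ((Pi : ℤ) * t * ((v : ℤ) - 1)) := by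
      rw [hlam2]
      ring
    rw [h2]
    exact dvd_sub hd2 (hdiff.mul_left _))
  obtain ⟨t', rfl⟩ := Int.eq_ofNat_of_zero_le ht0
  have h5 := real_add k _ _ (real_mul k t' _ hRPi) hreal
  refine real_congr k _ _ ?_ h5
  intro x y _
  show (t' : ℤ) * (Pi : ℤ) + ((s1 : ℤ) ^ 2 - m + G x y) = lam + G x y
  rw [hlam2]
  ring

end HCR
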