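import Mathlib
import Pool.Agent.Lib_helper88.HCR.Defs
import Pool.Agent.Lib_helper88.HCR.bf
import Pool.Agent.Lib_helper96.Des.Gjw

set_option autoImplicit false

namespace HCR

open Finset Matrix

/-- small `v`: the theorem of Graver-Jurkat and Wilson over `ℤ` (`Pool.Agent.Des.gjw`, restated) -/
theorem gjw2 {v : ℕ} (k : ℕ) (hk : 2 ≤ k) (hv : k + 2 ≤ v)
    (J : Finset (Fin v) → ℤ) (hJ : ∀ e, J e ≠ 0 → e.card = 2)
    (hdiv : Pool.Agent.Des.IsDiv 2 k J) :
    J ∈ Pool.Agent.Des.spn ℤ 2 ((univ : Finset (Fin v)).powersetCard k) :=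
  Pool.Agent.Des.gjw (R := ℤ) 2 k hk univ (by rw [card_univ, Fintype.card_fin]; exact hv) J
    (fun e he => mem_powersetCard.2 ⟨subset_univ _, hJ e he⟩) hdiv

end HCR
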