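import Mathlib
import Pool.Agent.Lib_helper88.HCR.Defs
import Pool.Agent.Lib_helper88.HCR.bh

set_option autoImplicit false

namespace HCR

open Finset Matrix

theorem bi_count {v : ℕ} (k : ℕ) (hk : 2 ≤ k) (x y : Fin v) (hxy : x ≠ y) :
    (((univ : Finset (Fin v)).powersetCard k).filter (fun Q => x ∈ Q ∧ y ∈ Q)).card =
      (v - 2).choose (k - 2) := by
  have hc2 : ({x, y} : Finset (Fin v)).card = 2 := Finset.card_pair hxy
  have h1 : (((univ : Finset (Fin v)) \ {x, y}).powersetCard (k - 2)).card =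
      (v - 2).choose (k - 2) := by
    rw [Finset.card_powersetCard, Finset.card_sdiff_of_subset (Finset.subset_univ _), hc2,
      Finset.card_univ, Fintype.card_fin]
  rw [← h1]
  refine Finset.card_nbij' (fun Q => Q \ {x, y}) (fun R => R ∪ {x, y}) ?_ ?_ ?_ ?_
  · intro Q hQ
    simp only [Finset.coe_filter, Finset.mem_powersetCard, Finset.subset_univ, true_and,
      Set.mem_ofPred_eq] at hQ
    have hs : ({x, y} : Finset (Fin v)) ⊆ Q := by
      intro a ha
      rw [Finset.mem_insert, Finset.mem_singleton] at ha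
      rcases ha with rfl | rfl
      · exact hQ.2.1
      · exact hQ.2.2
    rw [Finset.mem_coe, Finset.mem_powersetCard]
    refine ⟨Finset.sdiff_subset_sdiff (Finset.subset_univ _) (le_refl _), ?_⟩
    rw [Finset.card_sdiff_of_subset hs, hc2, hQ.1]
  · intro R hR
    rw [Finset.mem_coe, Finset.mem_powersetCard] at hR
    have hd : Disjoint R {x, y} := by
      rw [Finset.disjoint_left]
      intro a ha hb
      exact (Finset.mem_sdiff.1 (hR.1 ha)).2 hb
    simp only [Finset.coe_filter, Finset.mem_powersetCard, Finset.subset_univ, true_and,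
      Set.mem_ofPred_eq]
    refine ⟨?_, ?_, ?_⟩
    · rw [Finset.card_union_of_disjoint hd, hR.2, hc2]; omega
    · simp
    · simp
  · intro Q hQ
    simp only [Finset.coe_filter, Finset.mem_powersetCard, Finset.subset_univ, true_and,
      Set.mem_ofPred_eq] at hQ
    have hs : ({x, y} : Finset (Fin v)) ⊆ Q := by
      intro a ha
      rw [Finset.mem_insert, Finset.mem_singleton] at ha
      rcases ha with rfl | rfl
      · exact hQ.2.1
      · exact hQ.2.2
    exact Finset.sdiff_union_of_subset hs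
  · intro R hR
    rw [Finset.mem_coe, Finset.mem_powersetCard] at hR
    have hd : Disjoint R {x, y} := by
      rw [Finset.disjoint_left]
      intro a ha hb
      exact (Finset.mem_sdiff.1 (hR.1 ha)).2 hb
    show (R ∪ {x, y}) \ {x, y} = R
    rw [Finset.union_sdiff_right]
    exact Finset.sdiff_eq_self_of_disjoint hd

theorem bi_J {v d : ℕ} (lam : ℤ) (G : Matrix (Fin v) (Fin v) ℤ) (hG : Reg d G) :
    ∃ J : Finset (Fin v) → ℤ, (∀ e, J e ≠ 0 → e.card = 2) ∧
      ∀ x y, x ≠ y → J {x, y} = lam + G x y := by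
  refine ⟨fun e => if e.card = 2 then lam + ∑ x ∈ e, ∑ y ∈ e, (if x < y then G x y else 0)
    else 0, ?_, ?_⟩
  · intro e he
    by_contra hne
    exact he (if_neg hne)
  · have key : ∀ x y : Fin v, x < y →
        (∑ a ∈ ({x, y} : Finset (Fin v)), ∑ b ∈ ({x, y} : Finset (Fin v)),
          (if a < b then G a b else 0)) = G x y := by
      intro x y hxy
      have hne : x ≠ y := hxy.ne
      rw [Finset.sum_pair hne, Finset.sum_pair hne, Finset.sum_pair hne]
      simp [hxy, not_lt.2 hxy.le]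
    intro x y hxy
    have hc : ({x, y} : Finset (Fin v)).card = 2 := Finset.card_pair hxy
    show (if ({x, y} : Finset (Fin v)).card = 2 then _ else _) = _
    rw [if_pos hc]
    congr 1
    rcases lt_or_gt_of_ne hxy with h | h
    · exact key x y h
    · rw [Finset.pair_comm x y, key y x h]
      have := hG.symm
      exact this.apply x y

theorem bi_sol {k v d : ℕ} (hk : 2 ≤ k) (hv : k + 2 ≤ v) (lam : ℤ)
    (G : Matrix (Fin v) (Fin v) ℤ) (hG : Reg d G)
    (h1 : ((k : ℤ) - 1) ∣ lam * ((v : ℤ) - 1) + d)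
    (h2 : (k : ℤ) * ((k : ℤ) - 1) ∣ (v : ℤ) * (lam * ((v : ℤ) - 1) + d)) :
    ∃ z : Finset (Fin v) → ℤ, ∀ x y, x ≠ y →
      (∑ Q ∈ (univ : Finset (Fin v)).powersetCard k, if x ∈ Q ∧ y ∈ Q then z Q else 0) =
        lam + G x y := by
  obtain ⟨J, hJ, hJv⟩ := bi_J lam G hG
  have hs1 : ∀ x : Fin v, ∑ e ∈ ((univ : Finset (Fin v)).powersetCard 2).filter
      (fun e => x ∈ e), J e = lam * ((v : ℤ) - 1) + d := by
    intro x
    have himg : ((univ : Finset (Fin v)).powersetCard 2).filter (fun e => x ∈ e) =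
        (univ.erase x).image (fun y => ({x, y} : Finset (Fin v))) := by
      ext e
      simp only [Finset.mem_filter, Finset.mem_powersetCard, Finset.subset_univ, true_and,
        Finset.mem_image, Finset.mem_erase, Finset.mem_univ, and_true]
      constructor
      · rintro ⟨hc, hx⟩
        obtain ⟨a, b, hab, rfl⟩ := Finset.card_eq_two.1 hc
        rw [Finset.mem_insert, Finset.mem_singleton] at hx
        rcases hx with rfl | rfl
        · exact ⟨b, hab.symm, rfl⟩
        · exact ⟨a, hab, Finset.pair_comm _ _⟩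
      · rintro ⟨y, hy, rfl⟩
        exact ⟨Finset.card_pair hy.symm, by simp⟩
    rw [himg, Finset.sum_image]
    · rw [Finset.sum_congr rfl (fun y hy => hJv x y (Finset.ne_of_mem_erase hy).symm),
        Finset.sum_add_distrib, Finset.sum_const, Finset.card_erase_of_mem (Finset.mem_univ x),
        Finset.card_univ, Fintype.card_fin, nsmul_eq_mul]
      have h6 : ∑ y ∈ univ.erase x, G x y = d := by
        have := Finset.add_sum_erase univ (fun y => G x y) (Finset.mem_univ x)
        rw [hG.row x, hG.diag x, zero_add] at this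
        exact this
      rw [h6, Nat.cast_sub (by omega)]
      push_cast
      ring
    · intro a ha b hb hab
      have ha' : a ≠ x := Finset.ne_of_mem_erase ha
      have : a ∈ ({x, b} : Finset (Fin v)) := by
        have h3 : ({x, a} : Finset (Fin v)) = {x, b} := hab
        rw [← h3]; simp
      rw [Finset.mem_insert, Finset.mem_singleton] at this
      exact this.resolve_left ha'
  have hs2 : 2 * ∑ e ∈ (univ : Finset (Fin v)).powersetCard 2, J e =
      (v : ℤ) * (lam * ((v : ℤ) - 1) + d) := by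
    have h3 : ∑ x : Fin v, ∑ e ∈ ((univ : Finset (Fin v)).powersetCard 2).filter
        (fun e => x ∈ e), J e = 2 * ∑ e ∈ (univ : Finset (Fin v)).powersetCard 2, J e := by
      simp only [Finset.sum_filter]
      rw [Finset.sum_comm, Finset.mul_sum]
      refine Finset.sum_congr rfl fun e he => ?_
      rw [Finset.mem_powersetCard] at he
      rw [← Finset.sum_filter, Finset.filter_mem_eq_inter, Finset.univ_inter, Finset.sum_const,
        he.2, nsmul_eq_mul]
      norm_num
    rw [← h3, Finset.sum_congr rfl (fun x _ => hs1 x), Finset.sum_const, Finset.card_univ,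
      Fintype.card_fin, nsmul_eq_mul]
  have hdiv : Pool.Agent.Des.IsDiv 2 k J := by
    intro T hT
    unfold Pool.Agent.Des.dsum
    have hT3 : T.card = 0 ∨ T.card = 1 ∨ T.card = 2 := by omega
    rcases hT3 with h | h | h
    · rw [h]
      rw [Finset.card_eq_zero] at h
      subst h
      simp only [Finset.empty_subset, Finset.filter_true, Nat.sub_zero]
      have h4 : (2 : ℤ) * ((k.choose 2 : ℕ) : ℤ) = (k : ℤ) * ((k : ℤ) - 1) := by
        have h5 := Nat.choose_two_right k
        have h6 : 2 ∣ k * (k - 1) := (Nat.even_mul_pred_self k).two_dvd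
        have h7 : 2 * k.choose 2 = k * (k - 1) := by
          rw [h5]; exact Nat.mul_div_cancel' h6
        have h8 : ((2 * k.choose 2 : ℕ) : ℤ) = ((k * (k - 1) : ℕ) : ℤ) := by rw [h7]
        rw [Nat.cast_mul, Nat.cast_mul, Nat.cast_sub (by omega)] at h8
        exact_mod_cast h8
      rw [← h4, ← hs2] at h2
      exact (mul_dvd_mul_iff_left (by norm_num : (2 : ℤ) ≠ 0)).1 h2
    · rw [h]
      obtain ⟨x, rfl⟩ := Finset.card_eq_one.1 h
      simp only [Finset.singleton_subset_iff]
      rw [hs1 x]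
      have h4 : ((((k - 1).choose (2 - 1) : ℕ)) : ℤ) = (k : ℤ) - 1 := by
        rw [show 2 - 1 = 1 from rfl, Nat.choose_one_right, Nat.cast_sub (by omega)]
        norm_num
      rw [h4]
      exact h1
    · rw [h]
      simp
  have hspan := gjw2 k hk hv J hJ hdiv
  unfold Pool.Agent.Des.spn at hspan
  rw [Submodule.mem_span_image_finset_iff_exists_fun'] at hspan
  obtain ⟨z, hz⟩ := hspan
  refine ⟨z, fun x y hxy => ?_⟩
  rw [← hJv x y hxy, ← hz, Finset.sum_apply]
  refine Finset.sum_congr rfl fun Q hQ => ?_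
  simp only [Pi.smul_apply, smul_eq_mul, Pool.Agent.Des.ind, Finset.mem_powersetCard,
    Finset.card_pair hxy, and_true, mul_ite, mul_one, mul_zero]
  have : ({x, y} : Finset (Fin v)) ⊆ Q ↔ x ∈ Q ∧ y ∈ Q := by
    rw [Finset.insert_subset_iff, Finset.singleton_subset_iff]
  simp only [this]

theorem real_small (k v : ℕ) (hk : 2 ≤ k) (hv : k + 2 ≤ v) : ∃ C : ℕ, ∀ lam : ℤ, (C : ℤ) ≤ lam →
    ∀ (d : ℕ) (G : Matrix (Fin v) (Fin v) ℤ), Reg d G →
    ((k : ℤ) - 1) ∣ lam * ((v : ℤ) - 1) + d →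
    (k : ℤ) * ((k : ℤ) - 1) ∣ (v : ℤ) * (lam * ((v : ℤ) - 1) + d) →
    Real k (fun x y => lam + G x y) := by
  classical
  obtain ⟨L, hL⟩ : ∃ L, L = (v - 2).choose (k - 2) := ⟨_, rfl⟩
  have hL0 : 0 < L := by rw [hL]; exact Nat.choose_pos (by omega)
  have hcnt : ∀ (t : ℤ) (x y : Fin v), x ≠ y →
      (∑ Q ∈ (univ : Finset (Fin v)).powersetCard k, if x ∈ Q ∧ y ∈ Q then t else 0) = L * t := by
    intro t x y hxy
    rw [← Finset.sum_filter, Finset.sum_const, bi_count k hk x y hxy, ← hL, nsmul_eq_mul]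
  -- bounds for the finitely many solvable systems
  have hB : ∀ (ρ : ℕ) (g : Fin v → Fin v → Bool), ∃ B : ℕ,
      (∃ z : Finset (Fin v) → ℤ, ∀ x y, x ≠ y →
        (∑ Q ∈ (univ : Finset (Fin v)).powersetCard k, if x ∈ Q ∧ y ∈ Q then z Q else 0) =
          ρ + if g x y then 1 else 0) →
      ∃ z : Finset (Fin v) → ℤ, (∀ Q, -(B : ℤ) ≤ z Q) ∧ ∀ x y, x ≠ y →
        (∑ Q ∈ (univ : Finset (Fin v)).powersetCard k, if x ∈ Q ∧ y ∈ Q then z Q else 0) =
          ρ + if g x y then 1 else 0 := by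
    intro ρ g
    by_cases h : ∃ z : Finset (Fin v) → ℤ, ∀ x y, x ≠ y →
        (∑ Q ∈ (univ : Finset (Fin v)).powersetCard k, if x ∈ Q ∧ y ∈ Q then z Q else 0) =
          ρ + if g x y then 1 else 0
    · obtain ⟨z, hz⟩ := h
      refine ⟨∑ Q, (z Q).natAbs, fun _ => ⟨z, fun Q => ?_, hz⟩⟩
      have h1 : (z Q).natAbs ≤ ∑ Q, (z Q).natAbs :=
        Finset.single_le_sum (f := fun Q => (z Q).natAbs) (fun _ _ => Nat.zero_le _)
          (Finset.mem_univ Q)
      omega
    · exact ⟨0, fun h' => absurd h' h⟩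
  choose B hB using hB
  refine ⟨L * ∑ ρ ∈ Finset.range L, ∑ g : Fin v → Fin v → Bool, B ρ g, ?_⟩
  intro lam hlam d G hG h1 h2
  obtain ⟨t, ht⟩ : ∃ t, t = lam / (L : ℤ) := ⟨_, rfl⟩
  have hLZ : (0 : ℤ) < L := by exact_mod_cast hL0
  have hρ0 : 0 ≤ lam % (L : ℤ) := Int.emod_nonneg _ hLZ.ne'
  have hρ1 : lam % (L : ℤ) < L := Int.emod_lt_of_pos _ hLZ
  obtain ⟨ρ, hρ⟩ := Int.eq_ofNat_of_zero_le hρ0
  have hdm : lam = ρ + L * t := by
    rw [ht, ← hρ]
    exact (Int.emod_add_mul_ediv lam L).symm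
  have hρL : ρ < L := by
    rw [hρ] at hρ1
    exact_mod_cast hρ1
  let g : Fin v → Fin v → Bool := fun x y => decide (G x y = 1)
  have hg : ∀ x y, (if g x y then (1 : ℤ) else 0) = G x y := by
    intro x y
    rcases hG.zo x y with h | h
    · simp [g, h]
    · simp [g, h]
  have hBt : (B ρ g : ℤ) ≤ t := by
    have h3 : B ρ g ≤ ∑ ρ ∈ Finset.range L, ∑ g : Fin v → Fin v → Bool, B ρ g := by
      calc B ρ g ≤ ∑ g : Fin v → Fin v → Bool, B ρ g :=
            Finset.single_le_sum (f := fun g => B ρ g) (fun _ _ => Nat.zero_le _)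
              (Finset.mem_univ g)
        _ ≤ _ := Finset.single_le_sum (f := fun ρ => ∑ g : Fin v → Fin v → Bool, B ρ g)
              (fun _ _ => Nat.zero_le _) (Finset.mem_range.2 hρL)
    have h4 : ((∑ ρ ∈ Finset.range L, ∑ g : Fin v → Fin v → Bool, B ρ g : ℕ) : ℤ) ≤ t := by
      rw [ht, Int.le_ediv_iff_mul_le hLZ, mul_comm]
      exact_mod_cast hlam
    have h5 : (B ρ g : ℤ) ≤ ((∑ ρ ∈ Finset.range L, ∑ g : Fin v → Fin v → Bool, B ρ g : ℕ) : ℤ) := by
      exact_mod_cast h3
    exact h5.trans h4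
  obtain ⟨z, hz⟩ := bi_sol hk hv lam G hG h1 h2
  obtain ⟨z', hz'0, hz'⟩ := hB ρ g ⟨fun Q => z Q - t, fun x y hxy => by
    have h3 : ∀ Q : Finset (Fin v), (if x ∈ Q ∧ y ∈ Q then z Q - t else 0) =
        (if x ∈ Q ∧ y ∈ Q then z Q else 0) - (if x ∈ Q ∧ y ∈ Q then t else 0) := by
      intro Q
      split_ifs <;> simp
    rw [Finset.sum_congr rfl (fun Q _ => h3 Q), Finset.sum_sub_distrib, hz x y hxy,
      hcnt t x y hxy, hg, hdm]
    ring⟩
  refine real_congr k _ _ ?_ (real_of_int k (fun Q => z' Q + t) fun Q => by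
    have := hz'0 Q
    linarith)
  intro x y hxy
  have h3 : ∀ Q : Finset (Fin v), (if x ∈ Q ∧ y ∈ Q then z' Q + t else 0) =
      (if x ∈ Q ∧ y ∈ Q then z' Q else 0) + (if x ∈ Q ∧ y ∈ Q then t else 0) := by
    intro Q
    split_ifs <;> simp
  rw [Finset.sum_congr rfl (fun Q _ => h3 Q), Finset.sum_add_distrib, hz' x y hxy,
    hcnt t x y hxy, hg, hdm]
  ring

end HCR
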