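import Mathlib
import Pool.Agent.Lib_helper88.HCR.Defs
import Pool.Agent.Lib_helper88.HCR.bf

set_option autoImplicit false

namespace HCR

open Finset Matrix

theorem bj_count (k v : ℕ) (hk : 2 ≤ k) (hv : v = k + 1) (n : ℤ) (x y : Fin v) (hxy : x ≠ y) :
    (∑ Q ∈ (univ : Finset (Fin v)).powersetCard k, if x ∈ Q ∧ y ∈ Q then n else 0)
      = ((k : ℤ) - 1) * n := by
  have hcompl : (univ : Finset (Fin v)).powersetCard k =
      (univ : Finset (Fin v)).image (fun p => ({p}ᶜ : Finset (Fin v))) := by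
    ext Q
    rw [mem_powersetCard, mem_image]
    constructor
    · rintro ⟨_, hQ⟩
      have h1 : Qᶜ.card = 1 := by
        rw [card_compl, Fintype.card_fin, hQ]; omega
      obtain ⟨p, hp⟩ := card_eq_one.1 h1
      exact ⟨p, mem_univ _, by rw [← hp, compl_compl]⟩
    · rintro ⟨p, _, rfl⟩
      refine ⟨subset_univ _, ?_⟩
      rw [card_compl, Fintype.card_fin, card_singleton]; omega
  have hinj : Set.InjOn (fun p => ({p}ᶜ : Finset (Fin v))) ((univ : Finset (Fin v)) : Set (Fin v)) := by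
    intro p _ q _ h
    have h2 : ({p} : Finset (Fin v)) = {q} := compl_injective h
    exact singleton_injective h2
  rw [hcompl, sum_image hinj]
  have h3 : ∀ p : Fin v, (if x ∈ ({p}ᶜ : Finset (Fin v)) ∧ y ∈ ({p}ᶜ : Finset (Fin v)) then n else 0)
      = if p ∈ ({x, y}ᶜ : Finset (Fin v)) then n else 0 := by
    intro p
    have : (x ∈ ({p}ᶜ : Finset (Fin v)) ∧ y ∈ ({p}ᶜ : Finset (Fin v))) ↔
        p ∈ ({x, y}ᶜ : Finset (Fin v)) := by
      simp only [mem_compl, mem_singleton, mem_insert, not_or]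
      constructor
      · rintro ⟨a, b⟩; exact ⟨fun h => a h.symm, fun h => b h.symm⟩
      · rintro ⟨a, b⟩; exact ⟨fun h => a h.symm, fun h => b h.symm⟩
    simp only [this]
  rw [sum_congr rfl (fun p _ => h3 p), sum_ite_mem, univ_inter, sum_const, card_compl,
    Fintype.card_fin, card_pair hxy, nsmul_eq_mul]
  have : ((v - 2 : ℕ) : ℤ) = (k : ℤ) - 1 := by omega
  rw [this]

/-- `v = k + 1` -/
theorem real_succ (k v : ℕ) (hk : 2 ≤ k) (hv : v = k + 1) (lam : ℤ) (hl : 0 ≤ lam) (d : ℕ)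
    (hd : d + 2 ≤ v) (G : Matrix (Fin v) (Fin v) ℤ) (hG : Reg d G)
    (h1 : ((k : ℤ) - 1) ∣ lam * ((v : ℤ) - 1) + d)
    (h2 : (k : ℤ) * ((k : ℤ) - 1) ∣ (v : ℤ) * (lam * ((v : ℤ) - 1) + d)) :
    Real k (fun x y => lam + G x y) := by
  have hvz : (v : ℤ) = (k : ℤ) + 1 := by rw [hv]; push_cast; ring
  have hkd : (k : ℤ) ∣ (d : ℤ) := by
    have h3 : (k : ℤ) ∣ (v : ℤ) * (lam * ((v : ℤ) - 1) + d) := dvd_trans (dvd_mul_right _ _) h2
    have h4 : (v : ℤ) * (lam * ((v : ℤ) - 1) + d) = k * (lam * (k + 1) + d) + d := by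
      rw [hvz]; ring
    rw [h4] at h3
    exact (dvd_add_right (dvd_mul_right _ _)).1 h3
  have hd0 : d = 0 := by
    have h5 : k ∣ d := by exact_mod_cast hkd
    exact Nat.eq_zero_of_dvd_of_lt h5 (by omega)
  have hG0 : ∀ x y, G x y = 0 := by
    intro x y
    have hrow := hG.row x
    rw [hd0] at hrow
    have hnn : ∀ j ∈ (univ : Finset (Fin v)), 0 ≤ G x j := by
      intro j _
      rcases hG.zo x j with h | h <;> rw [h] <;> norm_num
    have := (sum_eq_zero_iff_of_nonneg hnn).1 (by simpa using hrow)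
    exact this y (mem_univ y)
  have hkl : ((k : ℤ) - 1) ∣ lam := by
    have h6 : lam * ((v : ℤ) - 1) + d = ((k : ℤ) - 1) * lam + lam := by
      rw [hvz, hd0]; push_cast; ring
    rw [h6] at h1
    exact (dvd_add_right (dvd_mul_right _ _)).1 h1
  obtain ⟨n, hn⟩ := hkl
  have hk1 : (0 : ℤ) < (k : ℤ) - 1 := by omega
  have hn0 : 0 ≤ n := by
    rw [hn] at hl
    exact nonneg_of_mul_nonneg_right hl hk1
  refine real_congr k _ _ ?_ (real_of_int (v := v) k (fun _ => n) (fun _ => hn0))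
  intro x y hxy
  show _ = lam + G x y
  rw [bj_count k v hk hv n x y hxy, hG0 x y, add_zero, hn]

end HCR
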