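import Mathlib
import Pool.Agent.Lib_helper88.HCR.Defs
import Pool.Agent.Lib_helper88.HCR.bf
import Pool.Agent.Lib_helper88.HCR.bg
import Pool.Agent.Lib_helper88.HCR.bi
import Pool.Agent.Lib_helper88.HCR.bj

set_option autoImplicit false

namespace HCR

open Finset Matrix

/-- the realisation theorem -/
theorem real_all (k : ℕ) (hk : 2 ≤ k) : ∃ C : ℕ, ∀ v : ℕ, k < v → ∀ lam : ℤ, (C : ℤ) ≤ lam →
    ∀ d : ℕ, d + 2 ≤ v → ∀ G : Matrix (Fin v) (Fin v) ℤ, Reg d G →
    ((k : ℤ) - 1) ∣ lam * ((v : ℤ) - 1) + d →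
    (k : ℤ) * ((k : ℤ) - 1) ∣ (v : ℤ) * (lam * ((v : ℤ) - 1) + d) →
    Real k (fun x y => lam + G x y) := by
  rcases Nat.lt_or_ge k 3 with hk3 | hk3
  · obtain rfl : k = 2 := by omega
    refine ⟨0, fun v _ lam hl d _ G hG _ _ => real_two _ (fun x y => ?_) (fun x y => ?_)⟩
    · have h1 : (0 : ℤ) ≤ lam := by simpa using hl
      rcases hG.zo x y with h | h <;> rw [h] <;> omega
    · show lam + G x y = lam + G y x
      rw [← hG.symm.apply x y]
  · obtain ⟨C1, hC1⟩ := real_big k hk3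
    have hsm : ∀ v : ℕ, ∃ C : ℕ, k + 2 ≤ v → ∀ lam : ℤ, (C : ℤ) ≤ lam →
        ∀ (d : ℕ) (G : Matrix (Fin v) (Fin v) ℤ), Reg d G →
        ((k : ℤ) - 1) ∣ lam * ((v : ℤ) - 1) + d →
        (k : ℤ) * ((k : ℤ) - 1) ∣ (v : ℤ) * (lam * ((v : ℤ) - 1) + d) →
        Real k (fun x y => lam + G x y) := by
      intro v
      by_cases hv : k + 2 ≤ v
      · obtain ⟨C, hC⟩ := real_small k v hk hv
        exact ⟨C, fun _ => hC⟩
      · exact ⟨0, fun h => absurd h hv⟩
    choose f hf using hsm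
    refine ⟨max C1 ((Finset.range C1).sup f), fun v hv lam hl d hd G hG h1 h2 => ?_⟩
    have hl1 : (C1 : ℤ) ≤ lam := le_trans (by exact_mod_cast le_max_left _ _) hl
    have hl2 : (((Finset.range C1).sup f : ℕ) : ℤ) ≤ lam :=
      le_trans (by exact_mod_cast le_max_right _ _) hl
    rcases Nat.lt_or_ge v C1 with hvC | hvC
    · rcases Nat.lt_or_ge v (k + 2) with hv2 | hv2
      · exact real_succ k v hk (by omega) lam (le_trans (by positivity) hl1) d hd G hG h1 h2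
      · refine hf v hv2 lam (le_trans ?_ hl2) d G hG h1 h2
        exact_mod_cast Finset.le_sup (f := f) (Finset.mem_range.2 hvC)
    · exact hC1 v hvC lam hl1 d G hG h1 h2

end HCR
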