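import Mathlib
import Pool.Agent.Lib_helper88.HCR.Defs
import Pool.Agent.Lib_helper88.HCR.dr
import Pool.Agent.Lib_helper88.HCR.bk

set_option autoImplicit false

namespace HCR

open Finset Matrix

/-- the count of the remaining design -/
theorem dt_count {v b k r d q k' r' : ℤ} (hk : k = k' + q * v) (hr : r = r' + q * b)
    (hc : v * r' = b * k') {lam : ℤ}
    (hp : r * k - ((2 * q + 1) * r - q * (q + 1) * b) = lam * (v - 1) + d) :
    (lam - (2 * q * (r - q * b) + q ^ 2 * b)) * (v - 1) + d = r' * (k' - 1) := by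
  subst hk hr
  linear_combination -hp - q * hc

/-- the bound for the multiplicity -/
theorem dt_bound {v d k' r' lam C : ℤ} (hv : 2 ≤ v) (hd : d + 2 ≤ v) (hk : 2 ≤ k')
    (hC : 0 ≤ C) (hr : C * v * k' ≤ r') (h : lam * (v - 1) + d = r' * (k' - 1)) : C ≤ lam := by
  by_contra hcon
  have h1 : lam ≤ C - 1 := by omega
  have h2 : lam * (v - 1) ≤ (C - 1) * (v - 1) := mul_le_mul_of_nonneg_right h1 (by omega)
  have h3 : 0 ≤ C * v := mul_nonneg hC (by omega)
  have h4 : C * v * 2 ≤ C * v * k' := mul_le_mul_of_nonneg_left hk h3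
  have h5 : r' * 1 ≤ r' * (k' - 1) := mul_le_mul_of_nonneg_left (by omega) (by omega)
  nlinarith

/-- all regular graphs are realised by designs when `b ≥ C v ^ 2` -/
theorem des_exists (k : ℕ) (hk : 2 ≤ k) : ∃ C : ℕ, ∀ v b r d : ℕ, 2 ≤ v → v * r = b * k →
    C * v ^ 2 ≤ b → ∀ lam : ℤ, (r : ℤ) * k - D0 v b k r = lam * ((v : ℤ) - 1) + d → d + 2 ≤ v →
    ∀ G : Matrix (Fin v) (Fin v) ℤ, Reg d G →
    ∃ N : Matrix (Fin v) (Fin b) ℕ, IsDes k r N ∧ Ex lam (D0 v b k r - lam) N = G := by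
  choose f hf using real_all
  refine ⟨(Finset.range (k + 1)).sup fun k' => if h : 2 ≤ k' then f k' h else 0,
    fun v b r d hv hc hb lam hp hd G hG => ?_⟩
  set C := (Finset.range (k + 1)).sup fun k' => if h : 2 ≤ k' then f k' h else 0 with hCdef
  rcases Nat.lt_or_ge (k % v) 2 with hk1 | hk2
  · exact des_triv hv (by omega) hc lam hp hd G hG
  · -- the remainder
    have hkv : k = k % v + k / v * v := by
      have := Nat.mod_add_div k v
      rw [mul_comm] at this
      omega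
    have hkle : k % v ≤ k := Nat.mod_le k v
    have hltv : k % v < v := Nat.mod_lt k (by omega)
    have hkvz : (k : ℤ) = ((k % v : ℕ) : ℤ) + ((k / v : ℕ) : ℤ) * (v : ℤ) := by
      exact_mod_cast hkv
    have hcz : (v : ℤ) * r = b * k := by exact_mod_cast hc
    have hc' : (v : ℤ) * ((r : ℤ) - ((k / v : ℕ) : ℤ) * b) = b * ((k % v : ℕ) : ℤ) := by
      linear_combination hcz + (b : ℤ) * hkvz
    have hcount : (lam - (2 * ((k / v : ℕ) : ℤ) * ((r : ℤ) - (k / v : ℕ) * b) +
        ((k / v : ℕ) : ℤ) ^ 2 * b)) * ((v : ℤ) - 1) + d =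
        ((r : ℤ) - ((k / v : ℕ) : ℤ) * b) * (((k % v : ℕ) : ℤ) - 1) := by
      refine dt_count (k := (k : ℤ)) hkvz (by ring) hc' ?_
      have := hp
      unfold D0 at this
      exact this
    have hCk : f (k % v) hk2 ≤ C := by
      have h1 := Finset.le_sup (f := fun k' => if h : 2 ≤ k' then f k' h else 0)
        (Finset.mem_range.2 (Nat.lt_succ_of_le hkle))
      simp only [dif_pos hk2] at h1
      exact h1
    have hvpos : (0 : ℤ) < v := by omega
    have hr' : (C : ℤ) * v * ((k % v : ℕ) : ℤ) ≤ (r : ℤ) - ((k / v : ℕ) : ℤ) * b := by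
      have hbz : (C : ℤ) * (v : ℤ) ^ 2 ≤ b := by exact_mod_cast hb
      have h1 : (v : ℤ) * ((C : ℤ) * v * ((k % v : ℕ) : ℤ)) ≤
          (v : ℤ) * ((r : ℤ) - ((k / v : ℕ) : ℤ) * b) := by
        rw [hc']
        have h2 := mul_le_mul_of_nonneg_right hbz (Int.natCast_nonneg (k % v))
        calc (v : ℤ) * ((C : ℤ) * v * ((k % v : ℕ) : ℤ)) =
            (C : ℤ) * (v : ℤ) ^ 2 * ((k % v : ℕ) : ℤ) := by ring
          _ ≤ _ := h2
      exact le_of_mul_le_mul_left h1 hvpos
    have hlow := dt_bound (by omega) (by omega) (by omega) (Int.natCast_nonneg C) hr' hcount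
    refine des_of_real hv hk2 hc lam hp G hG
      (hf (k % v) hk2 v hltv _ (le_trans (by exact_mod_cast hCk) hlow) d hd G hG ?_ ?_)
    · rw [hcount]
      exact Dvd.intro_left _ rfl
    · rw [hcount]
      have e : (v : ℤ) * (((r : ℤ) - ((k / v : ℕ) : ℤ) * b) * (((k % v : ℕ) : ℤ) - 1)) =
          b * (((k % v : ℕ) : ℤ) * (((k % v : ℕ) : ℤ) - 1)) := by
        rw [← mul_assoc, hc']
        ring
      rw [e]
      exact Dvd.intro_left _ rfl

end HCR
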