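import Mathlib
import Pool.Agent.Lib_helper88.HCR.Defs
import Pool.Agent.Lib_helper88.HCR.dr
import Pool.Agent.Lib_helper88.HCR.bf

set_option autoImplicit false

namespace HCR

open Finset Matrix

/-- block size two, explicit constant -/
theorem des_exists_two (v b r d : ℕ) (hv : 2 ≤ v) (hc : v * r = b * 2) (lam : ℤ)
    (hl : 0 ≤ lam) (hp : (r : ℤ) * (2 : ℕ) - D0 v b 2 r = lam * ((v : ℤ) - 1) + d)
    (hd : d + 2 ≤ v) (G : Matrix (Fin v) (Fin v) ℤ) (hG : Reg d G) :
    ∃ N : Matrix (Fin v) (Fin b) ℕ, IsDes 2 r N ∧ Ex lam (D0 v b 2 r - lam) N = G := by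
  rcases Nat.lt_or_ge v 3 with hv3 | hv3
  · obtain rfl : v = 2 := by omega
    exact des_triv le_rfl (by norm_num) hc lam hp hd G hG
  · have h1 : 2 % v = 2 := Nat.mod_eq_of_lt (by omega)
    have h2 : 2 / v = 0 := Nat.div_eq_of_lt (by omega)
    refine des_of_real hv (by rw [h1]) hc lam hp G hG ?_
    rw [h1, h2]
    refine real_two _ (fun x y => ?_) (fun x y => ?_)
    · have h3 : 0 ≤ G x y := by
        rcases hG.zo x y with h | h <;> rw [h] <;> norm_num
      simp only [Nat.cast_zero, mul_zero, zero_mul, ne_eq, OfNat.ofNat_ne_zero, not_false_eq_true,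
        zero_pow, add_zero, sub_zero]
      omega
    · show lam - _ + G x y = lam - _ + G y x
      rw [← hG.symm.apply x y]

end HCR
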