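import Mathlib
import Pool.Agent.Lib_helper88.HCR.Defs
import Pool.Agent.Lib_helper88.HCR.bw
import Pool.Agent.Lib_helper88.HCR.ex
import Pool.Agent.Lib_helper88.HCR.iv

set_option autoImplicit false

/-! Block dg (project HCR, helper53). -/

namespace HCR

open Finset Matrix

/-- difference of two unit vectors -/
def dg_u {v : ℕ} (i j : Fin v) (a : Fin v) : ℤ :=
  (if a = i then 1 else 0) - (if a = j then 1 else 0)

theorem dg_dmat {v : ℕ} (i j l p q : Fin v) :
    dmat i j l p q = dg_u i j p * dg_u i l q + dg_u i l p * dg_u i j q := rfl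

theorem dg_sum {v : ℕ} (i j : Fin v) : ∑ a, dg_u i j a = 0 := by
  unfold dg_u
  rw [Finset.sum_sub_distrib]
  simp

theorem dg_sq {v : ℕ} (i j : Fin v) (h : i ≠ j) : ∑ a, dg_u i j a * dg_u i j a = 2 := by
  have h1 : ∀ a, dg_u i j a * dg_u i j a = (if a = i then 1 else 0) + (if a = j then 1 else 0) := by
    intro a
    unfold dg_u
    by_cases hi : a = i
    · subst hi
      simp [h]
    · by_cases hj : a = j
      · subst hj
        simp [hi]
      · simp [hi, hj]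
  rw [Finset.sum_congr rfl (fun a _ => h1 a), Finset.sum_add_distrib]
  simp

theorem dg_pq {v : ℕ} (i j l : Fin v) (hij : i ≠ j) (hil : i ≠ l) (hjl : j ≠ l) (a : Fin v) :
    dg_u i j a * dg_u i l a = if a = i then 1 else 0 := by
  unfold dg_u
  by_cases hi : a = i
  · subst hi
    simp [hij, hil]
  · by_cases hj : a = j
    · subst hj
      simp [hi, hjl]
    · simp [hi, hj]

theorem dg_cross {v : ℕ} (i j l : Fin v) (hij : i ≠ j) (hil : i ≠ l) (hjl : j ≠ l) :
    ∑ a, dg_u i j a * dg_u i l a = 1 := by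
  rw [Finset.sum_congr rfl (fun a _ => dg_pq i j l hij hil hjl a)]
  simp

theorem dg_gen {v : ℕ} (p q : Fin v → ℤ) :
    ∑ a, ∑ b, (p a * q b + q a * p b) ^ 2 =
      2 * (∑ a, p a * p a) * (∑ b, q b * q b) + 2 * (∑ a, p a * q a) ^ 2 := by
  have h1 : ∀ a b, (p a * q b + q a * p b) ^ 2 =
      (p a * p a) * (q b * q b) + 2 * ((p a * q a) * (p b * q b)) + (q a * q a) * (p b * p b) := by
    intro a b; ring
  simp only [h1, Finset.sum_add_distrib, ← Finset.mul_sum, ← Finset.sum_mul]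
  ring

theorem dg_sqT {v : ℕ} (i j l : Fin v) (hij : i ≠ j) (hil : i ≠ l) (hjl : j ≠ l) :
    sq (dmat i j l) = 10 := by
  unfold sq
  simp only [dg_dmat]
  rw [dg_gen, dg_sq i j hij, dg_sq i l hil, dg_cross i j l hij hil hjl]
  norm_num

theorem dg_cls {v d : ℕ} (E : Matrix (Fin v) (Fin v) ℤ) (hE : Cls d E)
    (i j l : Fin v) (hij : i ≠ j) (hil : i ≠ l) (hjl : j ≠ l) (hi : E i i ≠ 0) :
    Cls d (E - dmat i j l) := by
  have hdiag : ∀ a, dmat i j l a a = if a = i then 2 else 0 := by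
    intro a
    rw [dg_dmat, mul_comm (dg_u i l a), dg_pq i j l hij hil hjl]
    split_ifs <;> rfl
  refine ⟨?_, ?_, ?_, ?_⟩
  · unfold Matrix.IsSymm
    ext a b
    rw [Matrix.transpose_apply, Matrix.sub_apply, Matrix.sub_apply, dg_dmat, dg_dmat,
      hE.symm.apply]
    ring
  · intro a
    simp only [Matrix.sub_apply, Finset.sum_sub_distrib, hE.row, dg_dmat, Finset.sum_add_distrib,
      ← Finset.mul_sum, dg_sum]
    ring
  · intro a
    rw [Matrix.sub_apply, hdiag]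
    have h1 := hE.nn a
    split_ifs with h
    · subst h
      obtain ⟨c, hc⟩ := hE.ev a
      omega
    · omega
  · intro a
    rw [Matrix.sub_apply, hdiag]
    refine (hE.ev a).sub ?_
    split_ifs
    · exact even_two
    · exact Even.zero

theorem dg_fro {v : ℕ} (E : Matrix (Fin v) (Fin v) ℤ) : fro (rl E) = (sq E : ℝ) := by
  unfold fro sq rl
  push_cast
  rfl

theorem dg_trace {v : ℕ} (Z : Matrix (Fin v) (Fin v) ℝ) (hZ : Z.IsSymm) (p q : Fin v → ℝ) :
    trace (Z * Z * (vecMulVec p q + vecMulVec q p)) =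
      (((Z *ᵥ (p + q)) ⬝ᵥ (Z *ᵥ (p + q))) - ((Z *ᵥ (p - q)) ⬝ᵥ (Z *ᵥ (p - q)))) / 2 := by
  have h1 : ∀ x y : Fin v → ℝ, trace (Z * Z * vecMulVec x y) = (Z *ᵥ x) ⬝ᵥ (Z *ᵥ y) := by
    intro x y
    rw [Matrix.mul_vecMulVec, Matrix.trace_vecMulVec, ← Matrix.mulVec_mulVec]
    rw [dotProduct_comm, Matrix.dotProduct_mulVec, ← Matrix.mulVec_transpose, hZ.eq,
      dotProduct_comm]
  rw [Matrix.mul_add, Matrix.trace_add, h1, h1, Matrix.mulVec_add, Matrix.mulVec_sub]
  simp only [add_dotProduct, dotProduct_add, sub_dotProduct, dotProduct_sub]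
  ring

theorem dg_rl {v : ℕ} (i j l : Fin v) : rl (dmat i j l) =
    vecMulVec (fun a => (dg_u i j a : ℝ)) (fun a => (dg_u i l a : ℝ)) +
    vecMulVec (fun a => (dg_u i l a : ℝ)) (fun a => (dg_u i j a : ℝ)) := by
  ext a b
  simp only [rl, Matrix.map_apply, dg_dmat, Matrix.add_apply, Matrix.vecMulVec_apply]
  push_cast
  ring

/-- a nonzero diagonal entry can be lowered, and this decreases `tr (M - E)⁻¹` -/
theorem diag_dec {v : ℕ} (hv : 4 ≤ v) (M : ℝ) (hM : 100 * (v : ℝ) ≤ M) (d : ℕ) (hd : d + 2 ≤ v)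
    (E : Matrix (Fin v) (Fin v) ℤ) (hE : Cls d E) (hs : 100 * sq E ≤ 104 * ((v : ℤ) * d))
    (i j l : Fin v) (hij : i ≠ j) (hil : i ≠ l) (hjl : j ≠ l) (hi : E i i ≠ 0) :
    Cls d (E - dmat i j l) ∧ sq (E - dmat i j l) ≤ 4 * (v : ℤ) ^ 2 ∧
      tr1 M (rl (E - dmat i j l)) < tr1 M (rl E) := by
  have hcls := dg_cls E hE i j l hij hil hjl hi
  have hv4 : (4 : ℤ) ≤ v := by exact_mod_cast hv
  have hdv : (d : ℤ) ≤ v - 2 := by
    have : (d : ℤ) + 2 ≤ v := by exact_mod_cast hd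
    linarith
  have hvd : (v : ℤ) * d ≤ v * (v - 2) := mul_le_mul_of_nonneg_left hdv (by linarith)
  have hsqT := dg_sqT i j l hij hil hjl
  have hsq1 : sq (E - dmat i j l) ≤ 2 * sq E + 20 := by
    have h1 : sq (E - dmat i j l) ≤ 2 * sq E + 2 * sq (dmat i j l) := by
      unfold sq
      rw [Finset.mul_sum, Finset.mul_sum, ← Finset.sum_add_distrib]
      refine Finset.sum_le_sum fun a _ => ?_
      rw [Finset.mul_sum, Finset.mul_sum, ← Finset.sum_add_distrib]
      refine Finset.sum_le_sum fun b _ => ?_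
      rw [Matrix.sub_apply]
      nlinarith [sq_nonneg (E a b + dmat i j l a b)]
    rw [hsqT] at h1
    linarith
  have hsqE : sq E ≤ 4 * (v : ℤ) ^ 2 := by nlinarith
  have hsqE' : sq (E - dmat i j l) ≤ 4 * (v : ℤ) ^ 2 := by nlinarith
  refine ⟨hcls, hsqE', ?_⟩
  -- the analytic part
  have hv0 : (4 : ℝ) ≤ v := by exact_mod_cast hv
  have hM400 : (400 : ℝ) ≤ M := by linarith
  have hMp : (0 : ℝ) < M := by linarith
  have hsymE : (rl E).IsSymm := by
    unfold Matrix.IsSymm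
    ext a b
    simp only [Matrix.transpose_apply, rl, Matrix.map_apply]
    rw [hE.symm.apply]
  have hsymE' : (rl (E - dmat i j l)).IsSymm := by
    unfold Matrix.IsSymm
    ext a b
    simp only [Matrix.transpose_apply, rl, Matrix.map_apply]
    rw [hcls.symm.apply]
  have hB1 : Btw (M - 2 * v) (M + 2 * v) (WM M (rl E)) := by
    refine btw_W M (2 * v) (by positivity) _ hsymE ?_
    rw [dg_fro]
    have : (sq E : ℝ) ≤ ((4 * (v : ℤ) ^ 2 : ℤ) : ℝ) := by exact_mod_cast hsqE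
    push_cast at this
    linarith
  have hB2 : Btw (M - 2 * v) (M + 2 * v) (WM M (rl (E - dmat i j l))) := by
    refine btw_W M (2 * v) (by positivity) _ hsymE' ?_
    rw [dg_fro]
    have : (sq (E - dmat i j l) : ℝ) ≤ ((4 * (v : ℤ) ^ 2 : ℤ) : ℝ) := by exact_mod_cast hsqE'
    push_cast at this
    linarith
  have hadd : WM M (rl (E - dmat i j l)) = WM M (rl E) + rl (dmat i j l) := by
    ext a b
    simp only [WM, rl, Matrix.sub_apply, Matrix.add_apply, Matrix.map_apply]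
    push_cast
    ring
  have hT : (rl (dmat i j l)).IsSymm := by
    unfold Matrix.IsSymm
    ext a b
    simp only [Matrix.transpose_apply, rl, Matrix.map_apply, dg_dmat]
    push_cast
    ring
  have hlow : (0.98 : ℝ) * M ≤ M - 2 * v := by linarith
  have hupp : M + 2 * v ≤ (1.02 : ℝ) * M := by linarith
  have ha : (0 : ℝ) < M - 2 * v := by linarith
  have hb : (0 : ℝ) < M + 2 * v := by positivity
  obtain ⟨R, hR, _, hR2⟩ := expand (M - 2 * v) (M + 2 * v) (M - 2 * v) (M + 2 * v) ha hb ha hb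
    (WM M (rl E)) (rl (dmat i j l)) hB1 hT (by rw [← hadd]; exact hB2)
  rw [← hadd] at hR
  rw [dg_fro, hsqT] at hR2
  set Z := (WM M (rl E))⁻¹ with hZdef
  have hZsymm : Z.IsSymm := (btw_inv _ _ ha hb _ hB1).1
  set p : Fin v → ℝ := fun a => (dg_u i j a : ℝ) with hp
  set q : Fin v → ℝ := fun a => (dg_u i l a : ℝ) with hq
  have hpp : p ⬝ᵥ p = 2 := by
    have := dg_sq i j hij
    simp only [dotProduct, hp]
    exact_mod_cast this
  have hqq : q ⬝ᵥ q = 2 := by
    have := dg_sq i l hil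
    simp only [dotProduct, hq]
    exact_mod_cast this
  have hpq : p ⬝ᵥ q = 1 := by
    have := dg_cross i j l hij hil hjl
    simp only [dotProduct, hp, hq]
    exact_mod_cast this
  have hqp : q ⬝ᵥ p = 1 := by rw [dotProduct_comm, hpq]
  have hsum : (p + q) ⬝ᵥ (p + q) = 6 := by
    simp only [add_dotProduct, dotProduct_add, hpp, hqq, hpq, hqp]
    norm_num
  have hdif : (p - q) ⬝ᵥ (p - q) = 2 := by
    simp only [sub_dotProduct, dotProduct_sub, hpp, hqq, hpq, hqp]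
    norm_num
  have htr : trace (Z * Z * rl (dmat i j l)) =
      (((Z *ᵥ (p + q)) ⬝ᵥ (Z *ᵥ (p + q))) - ((Z *ᵥ (p - q)) ⬝ᵥ (Z *ᵥ (p - q)))) / 2 := by
    rw [dg_rl, ← hp, ← hq]
    exact dg_trace Z hZsymm p q
  have hge := inv_norm_ge _ _ ha hb _ hB1 (p + q)
  have hle := inv_norm_le _ _ ha _ hB1 (p - q)
  rw [← hZdef, hsum] at hge
  rw [← hZdef, hdif] at hle
  unfold tr1
  rw [hR, ← hZdef, htr]
  -- numbers
  have n1 : (5.7 : ℝ) / M ^ 2 ≤ 1 / (M + 2 * v) ^ 2 * 6 := by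
    rw [div_mul_eq_mul_div, div_le_div_iff₀ (by positivity) (by positivity)]
    have : (M + 2 * v) ^ 2 ≤ ((1.02 : ℝ) * M) ^ 2 := pow_le_pow_left₀ hb.le hupp 2
    nlinarith [sq_nonneg M]
  have n2 : 1 / (M - 2 * v) ^ 2 * 2 ≤ (2.1 : ℝ) / M ^ 2 := by
    rw [div_mul_eq_mul_div, div_le_div_iff₀ (by positivity) (by positivity)]
    have : ((0.98 : ℝ) * M) ^ 2 ≤ (M - 2 * v) ^ 2 := pow_le_pow_left₀ (by positivity) hlow 2
    nlinarith [sq_nonneg M]
  have n3 : (((10 : ℤ) : ℝ)) / ((M - 2 * v) ^ 2 * (M - 2 * v)) ≤ (0.03 : ℝ) / M ^ 2 := by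
    rw [div_le_div_iff₀ (by positivity) (by positivity)]
    have h1 : ((0.98 : ℝ) * M) ^ 2 ≤ (M - 2 * v) ^ 2 := pow_le_pow_left₀ (by positivity) hlow 2
    have h2 : ((0.98 : ℝ) * M) ^ 2 * (0.98 * 400) ≤ (M - 2 * v) ^ 2 * (M - 2 * v) :=
      mul_le_mul h1 (by linarith) (by norm_num) (by positivity)
    push_cast
    nlinarith [sq_nonneg M]
  have n4 : (0 : ℝ) < 1 / M ^ 2 := by positivity
  have e1 : (5.7 : ℝ) / M ^ 2 = 5.7 * (1 / M ^ 2) := by ring
  have e2 : (2.1 : ℝ) / M ^ 2 = 2.1 * (1 / M ^ 2) := by ring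
  have e3 : (0.03 : ℝ) / M ^ 2 = 0.03 * (1 / M ^ 2) := by ring
  rw [e1] at n1
  rw [e2] at n2
  rw [e3] at n3
  linarith

end HCR
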