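import Mathlib
import Pool.Agent.Lib_helper88.HCR.Defs
import Pool.Agent.Lib_helper88.HCR.bw
import Pool.Agent.Lib_helper88.HCR.ex

set_option autoImplicit false

namespace HCR

open Finset Matrix

theorem av_fro_sub {v : ℕ} (X : Matrix (Fin v) (Fin v) ℝ) (σ : Equiv.Perm (Fin v)) :
    fro (X.submatrix σ σ) = fro X := by
  unfold fro
  simp only [Matrix.submatrix_apply]
  rw [← Equiv.sum_comp σ (fun i => ∑ j, X i j ^ 2)]
  refine Finset.sum_congr rfl fun i _ => ?_
  exact Equiv.sum_comp σ (fun j => X (σ i) j ^ 2)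

theorem av_fro_half {v : ℕ} (X Y : Matrix (Fin v) (Fin v) ℝ) :
    fro ((1 / 2 : ℝ) • (X + Y)) ≤ (fro X + fro Y) / 2 := by
  unfold fro
  rw [← Finset.sum_add_distrib, Finset.sum_div]
  refine Finset.sum_le_sum fun i _ => ?_
  rw [← Finset.sum_add_distrib, Finset.sum_div]
  refine Finset.sum_le_sum fun j _ => ?_
  simp only [Matrix.smul_apply, Matrix.add_apply, smul_eq_mul]
  nlinarith [sq_nonneg (X i j - Y i j)]

theorem av_fro_neg {v : ℕ} (X : Matrix (Fin v) (Fin v) ℝ) : fro (-X) = fro X := by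
  unfold fro
  simp

theorem av_trace_sub {v : ℕ} (X : Matrix (Fin v) (Fin v) ℝ) (σ : Equiv.Perm (Fin v)) :
    trace (X.submatrix σ σ) = trace X := by
  unfold Matrix.trace
  simp only [Matrix.diag_apply, Matrix.submatrix_apply]
  exact Equiv.sum_comp σ (fun i => X i i)

/-- Averaging over an involution `σ` of the vertices: `Xs = (X + σX)/2`, `H = (X - σX)/2`;
the first order term vanishes by symmetry. -/
theorem avg_bounds {v : ℕ} (M s : ℝ) (hs : 0 ≤ s) (hsM : s < M)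
    (X : Matrix (Fin v) (Fin v) ℝ) (hX : X.IsSymm) (hf : fro X ≤ s ^ 2)
    (σ : Equiv.Perm (Fin v)) (hσ : ∀ i, σ (σ i) = i) :
    tr1 M ((1 / 2 : ℝ) • (X + X.submatrix σ σ)) +
        fro ((1 / 2 : ℝ) • (X - X.submatrix σ σ)) / (M + s) ^ 3 ≤ tr1 M X ∧
      tr1 M X ≤ tr1 M ((1 / 2 : ℝ) • (X + X.submatrix σ σ)) +
        fro ((1 / 2 : ℝ) • (X - X.submatrix σ σ)) / (M - s) ^ 3 := by
  set Y := X.submatrix σ σ with hY
  set Xs := (1 / 2 : ℝ) • (X + Y) with hXs
  set H := (1 / 2 : ℝ) • (X - Y) with hH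
  have hYs : Y.IsSymm := hX.submatrix σ
  have hYY : Y.submatrix σ σ = X := by
    ext i j
    rw [hY, Matrix.submatrix_apply, Matrix.submatrix_apply, hσ, hσ]
  have hXsS : Xs.IsSymm := (hX.add hYs).smul _
  have hHS : H.IsSymm := (hX.sub hYs).smul _
  have hsum : X = Xs + H := by
    ext i j
    simp only [hXs, hH, Matrix.smul_apply, Matrix.add_apply, Matrix.sub_apply, smul_eq_mul]
    ring
  have hXssub : Xs.submatrix σ σ = Xs := by
    have : Xs.submatrix σ σ = (1 / 2 : ℝ) • (X.submatrix σ σ + Y.submatrix σ σ) := rfl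
    rw [this, hYY, ← hY, hXs, add_comm]
  have hHsub : H.submatrix σ σ = -H := by
    have : H.submatrix σ σ = (1 / 2 : ℝ) • (X.submatrix σ σ - Y.submatrix σ σ) := rfl
    rw [this, hYY, ← hY, hH, ← smul_neg, neg_sub]
  have hfs : fro Xs ≤ s ^ 2 := by
    have h1 := av_fro_half X Y
    have h2 : fro Y = fro X := av_fro_sub X σ
    rw [h2] at h1
    rw [hXs]
    linarith
  have hMs : 0 < M - s := by linarith
  have hMs' : 0 < M + s := by linarith
  have hB1 := btw_W M s hs Xs hXsS hfs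
  have hB2 := btw_W M s hs X hX hf
  have hW : WM M Xs + -H = WM M X := by
    unfold WM
    conv_rhs => rw [hsum]
    abel
  obtain ⟨R, hR1, hR2, hR3⟩ := expand (M - s) (M + s) (M - s) (M + s) hMs hMs' hMs hMs'
    (WM M Xs) (-H) hB1 hHS.neg (by rw [hW]; exact hB2)
  have hWsub : (WM M Xs).submatrix σ σ = WM M Xs := by
    have : (WM M Xs).submatrix σ σ =
        (M • (1 : Matrix (Fin v) (Fin v) ℝ).submatrix σ σ) - Xs.submatrix σ σ := rfl
    rw [this, hXssub, Matrix.submatrix_one_equiv]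
    rfl
  have hWi : ((WM M Xs)⁻¹).submatrix σ σ = (WM M Xs)⁻¹ := by
    rw [← Matrix.inv_submatrix_equiv, hWsub]
  have ht : trace ((WM M Xs)⁻¹ * (WM M Xs)⁻¹ * (-H)) = 0 := by
    have h1 := av_trace_sub ((WM M Xs)⁻¹ * (WM M Xs)⁻¹ * (-H)) σ
    have h2 : ((WM M Xs)⁻¹ * (WM M Xs)⁻¹ * (-H)).submatrix σ σ =
        (WM M Xs)⁻¹ * (WM M Xs)⁻¹ * H := by
      rw [← Matrix.submatrix_mul_equiv _ _ σ σ σ, ← Matrix.submatrix_mul_equiv _ _ σ σ σ, hWi]
      congr 1
      have : (-H).submatrix σ σ = -(H.submatrix σ σ) := rfl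
      rw [this, hHsub, neg_neg]
    rw [h2, Matrix.mul_neg, Matrix.trace_neg] at h1
    rw [Matrix.mul_neg, Matrix.trace_neg]
    linarith
  rw [hW, ht, sub_zero] at hR1
  rw [av_fro_neg] at hR2 hR3
  have e1 : (M + s) ^ 2 * (M + s) = (M + s) ^ 3 := by ring
  have e2 : (M - s) ^ 2 * (M - s) = (M - s) ^ 3 := by ring
  rw [e1] at hR2
  rw [e2] at hR3
  unfold tr1
  rw [hR1]
  constructor <;> linarith

end HCR
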