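import Mathlib
import Pool.Agent.Lib_helper88.HCR.Defs

set_option autoImplicit false

namespace HCR

open Finset Matrix

/-- the increments of the rounding -/
theorem rd_delta {v : ℕ} (D : Fin v → ℤ) (i i' : Fin v)
    (hsum : ∑ m ∈ (Finset.univ \ {i, i'} : Finset (Fin v)), D m = 0) :
    ∃ (dl s : Fin v → ℤ), dl i = 0 ∧ dl i' = 0 ∧ ∑ m, dl m = 0 ∧
      (∀ m, m ≠ i → m ≠ i' → 2 * dl m = s m - D m) ∧ (∀ m, s m ^ 2 ≤ 1) ∧
      ∀ m, m ≠ i → m ≠ i' → s m ^ 2 ≤ D m ^ 2 := by
  classical
  obtain ⟨M, hM⟩ : ∃ M : Finset (Fin v), M = Finset.univ \ {i, i'} := ⟨_, rfl⟩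
  rw [← hM] at hsum
  have hmem : ∀ m, m ∈ M ↔ m ≠ i ∧ m ≠ i' := by
    intro m
    rw [hM]
    simp
  obtain ⟨O, hO⟩ : ∃ O : Finset (Fin v), O = M.filter (fun m => Odd (D m)) := ⟨_, rfl⟩
  have hOM : O ⊆ M := by rw [hO]; exact Finset.filter_subset _ _
  have hOodd : ∀ m ∈ M, (m ∈ O ↔ Odd (D m)) := by
    intro m hm
    rw [hO, Finset.mem_filter]
    exact ⟨fun h => h.2, fun h => ⟨hm, h⟩⟩
  have hcardO : ∑ m ∈ M, (if m ∈ O then (1 : ℤ) else 0) = (O.card : ℤ) := by
    rw [Finset.sum_ite_mem, Finset.inter_eq_right.2 hOM, Finset.sum_const, nsmul_eq_mul, mul_one]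
  have heven : Even (O.card : ℤ) := by
    have h1 : Even (∑ m ∈ M, (D m - if m ∈ O then (1 : ℤ) else 0)) := by
      refine Finset.even_sum _ fun m hm => ?_
      by_cases h2 : m ∈ O
      · rw [if_pos h2]
        exact ((hOodd m hm).1 h2).sub_odd odd_one
      · rw [if_neg h2, sub_zero]
        exact Int.not_odd_iff_even.1 fun h => h2 ((hOodd m hm).2 h)
    rw [Finset.sum_sub_distrib, hsum, hcardO, zero_sub, even_neg] at h1
    exact h1
  obtain ⟨c, hc⟩ := heven
  obtain ⟨O1, hO1, hO1c⟩ := Finset.exists_subset_card_eq (s := O) (n := O.card / 2)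
    (Nat.div_le_self _ _)
  obtain ⟨s, hs⟩ : ∃ s : Fin v → ℤ, s = fun m => if m ∈ O1 then 1 else if m ∈ O then -1 else 0 :=
    ⟨_, rfl⟩
  have hs1 : ∀ m, s m ^ 2 ≤ 1 := by
    intro m
    rw [hs]
    dsimp only
    split_ifs <;> norm_num
  have hsO : ∀ m, m ∉ O → s m = 0 := by
    intro m hm
    rw [hs]
    dsimp only
    rw [if_neg fun h => hm (hO1 h), if_neg hm]
  have hsodd : ∀ m ∈ O, Odd (s m) := by
    intro m hm
    rw [hs]
    dsimp only
    by_cases h2 : m ∈ O1
    · rw [if_pos h2]; exact odd_one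
    · rw [if_neg h2, if_pos hm]; exact ⟨-1, by norm_num⟩
  have hssum : ∑ m ∈ M, s m = 0 := by
    have h1 : ∀ m ∈ M, s m = 2 * (if m ∈ O1 then (1 : ℤ) else 0) - (if m ∈ O then 1 else 0) := by
      intro m _
      rw [hs]
      dsimp only
      by_cases h2 : m ∈ O1
      · rw [if_pos h2, if_pos h2, if_pos (hO1 h2)]; norm_num
      · rw [if_neg h2, if_neg h2]
        by_cases h3 : m ∈ O
        · rw [if_pos h3, if_pos h3]; norm_num
        · rw [if_neg h3, if_neg h3]; norm_num
    rw [Finset.sum_congr rfl h1, Finset.sum_sub_distrib, hcardO, ← Finset.mul_sum,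
      Finset.sum_ite_mem, Finset.inter_eq_right.2 (hO1.trans hOM), Finset.sum_const, nsmul_eq_mul,
      mul_one, hO1c]
    have h3 : O.card = 2 * (O.card / 2) := by omega
    have h4 : ((O.card : ℕ) : ℤ) = 2 * ((O.card / 2 : ℕ) : ℤ) := by exact_mod_cast h3
    linarith
  have hdvd : ∀ m ∈ M, (2 : ℤ) ∣ s m - D m := by
    intro m hm
    rw [← even_iff_two_dvd]
    by_cases h2 : m ∈ O
    · exact (hsodd m h2).sub_odd ((hOodd m hm).1 h2)
    · rw [hsO m h2, zero_sub, even_neg]
      exact Int.not_odd_iff_even.1 fun h => h2 ((hOodd m hm).2 h)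
  obtain ⟨dl, hdl⟩ : ∃ dl : Fin v → ℤ, dl = fun m => if m ∈ M then (s m - D m) / 2 else 0 :=
    ⟨_, rfl⟩
  have hdl2 : ∀ m ∈ M, 2 * dl m = s m - D m := by
    intro m hm
    rw [hdl]
    dsimp only
    rw [if_pos hm]
    exact Int.mul_ediv_cancel' (hdvd m hm)
  have hdl0 : ∀ m, m ∉ M → dl m = 0 := by
    intro m hm
    rw [hdl]
    dsimp only
    rw [if_neg hm]
  refine ⟨dl, s, hdl0 i (by simp [hmem]), hdl0 i' (by simp [hmem]), ?_, ?_, hs1, ?_⟩
  · have h1 : ∑ m, dl m = ∑ m ∈ M, dl m := by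
      symm
      exact Finset.sum_subset (Finset.subset_univ M) fun m _ hm => hdl0 m hm
    have h2 : 2 * ∑ m ∈ M, dl m = 0 := by
      rw [Finset.mul_sum, Finset.sum_congr rfl hdl2, Finset.sum_sub_distrib, hssum, hsum, sub_zero]
    rw [h1]
    omega
  · intro m h1 h2
    exact hdl2 m ((hmem m).2 ⟨h1, h2⟩)
  · intro m h1 h2
    have hm : m ∈ M := (hmem m).2 ⟨h1, h2⟩
    by_cases h3 : m ∈ O
    · have h4 : D m ≠ 0 := by
        intro h5
        have h6 := (hOodd m hm).1 h3
        rw [h5] at h6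
        exact absurd h6 (by decide)
      have h5 : 0 < D m ^ 2 := by positivity
      have h6 := hs1 m
      omega
    · rw [hsO m h3]
      positivity

/-- balanced rounding of two rows: the average of rows `i` and `i'` is kept, the differences become
at most `1`, row sums are kept. -/
theorem round_rows {v : ℕ} (d : ℕ) (E : Matrix (Fin v) (Fin v) ℤ) (hE : Cls d E)
    (h0 : ∀ i, E i i = 0) (i i' : Fin v) (hi : i ≠ i') :
    ∃ E' : Matrix (Fin v) (Fin v) ℤ, Cls d E' ∧ (∀ m, E' m m = 0) ∧ sq E' ≤ sq E ∧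
      E' i i' = E i i' ∧
      (∀ m l, m ≠ i → m ≠ i' → l ≠ i → l ≠ i' → E' m l = E m l) ∧
      (∀ m, m ≠ i → m ≠ i' → E' i m + E' i' m = E i m + E i' m) ∧
      (∀ m, m ≠ i → m ≠ i' → (E' i m - E' i' m) ^ 2 ≤ 1) := by
  classical
  have hsymm : ∀ p q, E p q = E q p := fun p q => by
    have := congrFun (congrFun hE.symm q) p
    rwa [Matrix.transpose_apply] at this
  have hsum : ∑ m ∈ (Finset.univ \ {i, i'} : Finset (Fin v)), (E i m - E i' m) = 0 := by
    have h1 : ∑ m, (E i m - E i' m) = 0 := by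
      rw [Finset.sum_sub_distrib, hE.row i, hE.row i', sub_self]
    have h2 := Finset.sum_sdiff (s₁ := {i, i'}) (s₂ := (Finset.univ : Finset (Fin v)))
      (f := fun m => E i m - E i' m) (Finset.subset_univ _)
    rw [h1, Finset.sum_pair hi] at h2
    have h3 : (E i i - E i' i) + (E i i' - E i' i') = 0 := by
      rw [h0, h0, hsymm i' i]; ring
    rw [h3, add_zero] at h2
    exact h2
  obtain ⟨dl, s, hd1, hd2, hdsum, hd3, hs1, hs2⟩ := rd_delta (fun m => E i m - E i' m) i i' hsum
  obtain ⟨u, hu⟩ : ∃ u : Fin v → ℤ, u = fun p => (if p = i then 1 else 0) -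
    (if p = i' then 1 else 0) := ⟨_, rfl⟩
  have hui : u i = 1 := by rw [hu]; simp [hi]
  have hui' : u i' = -1 := by rw [hu]; simp [hi.symm]
  have hum : ∀ m, m ≠ i → m ≠ i' → u m = 0 := by
    intro m h1 h2; rw [hu]; simp [h1, h2]
  have husum : ∀ f : Fin v → ℤ, ∑ p, u p * f p = f i - f i' := by
    intro f
    have h1 : ∀ p, u p * f p = (if p = i then f p else 0) - (if p = i' then f p else 0) := by
      intro p
      rw [hu]
      dsimp only
      split_ifs <;> ring
    rw [Finset.sum_congr rfl fun p _ => h1 p, Finset.sum_sub_distrib]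
    simp
  have hu0 : ∑ p, u p = 0 := by
    have := husum (fun _ => 1)
    simpa using this
  refine ⟨fun p q => E p q + u p * dl q + u q * dl p, ?_, ?_, ?_, ?_, ?_, ?_, ?_⟩
  · refine ⟨?_, ?_, ?_, ?_⟩
    · ext p q
      show E q p + u q * dl p + u p * dl q = E p q + u p * dl q + u q * dl p
      rw [hsymm q p]; ring
    · intro p
      rw [Finset.sum_add_distrib, Finset.sum_add_distrib, hE.row p, ← Finset.mul_sum, hdsum,
        ← Finset.sum_mul, hu0]
      ring
    · intro p
      show 0 ≤ E p p + u p * dl p + u p * dl p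
      have : u p * dl p = 0 := by
        by_cases h1 : p = i
        · rw [h1, hd1, mul_zero]
        · by_cases h2 : p = i'
          · rw [h2, hd2, mul_zero]
          · rw [hum p h1 h2, zero_mul]
      rw [this, h0]; norm_num
    · intro p
      show Even (E p p + u p * dl p + u p * dl p)
      have : u p * dl p = 0 := by
        by_cases h1 : p = i
        · rw [h1, hd1, mul_zero]
        · by_cases h2 : p = i'
          · rw [h2, hd2, mul_zero]
          · rw [hum p h1 h2, zero_mul]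
      rw [this, h0]; simp
  · intro p
    show E p p + u p * dl p + u p * dl p = 0
    have : u p * dl p = 0 := by
      by_cases h1 : p = i
      · rw [h1, hd1, mul_zero]
      · by_cases h2 : p = i'
        · rw [h2, hd2, mul_zero]
        · rw [hum p h1 h2, zero_mul]
    rw [this, h0]; norm_num
  · -- the sum of the squares
    have hexp : ∀ p q, (E p q + u p * dl q + u q * dl p) ^ 2 = E p q ^ 2 +
        2 * (u p * (E p q * dl q)) + 2 * (u q * (E p q * dl p)) + (u p * u p) * (dl q ^ 2) +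
        (u q * u q) * (dl p ^ 2) + 2 * ((u p * dl p) * (u q * dl q)) := by
      intro p q; ring
    have hud : ∀ p, u p * dl p = 0 := by
      intro p
      by_cases h1 : p = i
      · rw [h1, hd1, mul_zero]
      · by_cases h2 : p = i'
        · rw [h2, hd2, mul_zero]
        · rw [hum p h1 h2, zero_mul]
    have huu : ∑ p, u p * u p = 2 := by
      rw [husum u, hui, hui']; norm_num
    have hA : ∑ p, ∑ q, 2 * (u p * (E p q * dl q)) = 2 * ∑ m, (E i m - E i' m) * dl m := by
      have h1 : ∀ p, ∑ q, 2 * (u p * (E p q * dl q)) = u p * (2 * ∑ q, E p q * dl q) := by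
        intro p
        rw [← Finset.mul_sum, ← Finset.mul_sum]
        ring
      rw [Finset.sum_congr rfl fun p _ => h1 p, husum fun p => 2 * ∑ q, E p q * dl q, ← mul_sub,
        ← Finset.sum_sub_distrib]
      congr 1
      refine Finset.sum_congr rfl fun m _ => ?_
      ring
    have hB : ∑ p, ∑ q, 2 * (u q * (E p q * dl p)) = 2 * ∑ m, (E i m - E i' m) * dl m := by
      rw [Finset.sum_comm, ← hA]
      refine Finset.sum_congr rfl fun p _ => Finset.sum_congr rfl fun q _ => ?_
      rw [hsymm q p]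
    have hC : ∑ p, ∑ q, (u p * u p) * (dl q ^ 2) = 2 * ∑ m, dl m ^ 2 := by
      rw [← Finset.sum_mul_sum, huu]
    have hD : ∑ p, ∑ q, (u q * u q) * (dl p ^ 2) = 2 * ∑ m, dl m ^ 2 := by
      rw [Finset.sum_comm]; exact hC
    have hsqE' : sq (fun p q => E p q + u p * dl q + u q * dl p) = sq E +
        4 * ∑ m, ((E i m - E i' m) * dl m + dl m ^ 2) := by
      unfold sq
      have h1 : ∀ p, ∑ q, (E p q + u p * dl q + u q * dl p) ^ 2 = ∑ q, E p q ^ 2 +
          ∑ q, 2 * (u p * (E p q * dl q)) + ∑ q, 2 * (u q * (E p q * dl p)) +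
          ∑ q, (u p * u p) * (dl q ^ 2) + ∑ q, (u q * u q) * (dl p ^ 2) := by
        intro p
        rw [← Finset.sum_add_distrib, ← Finset.sum_add_distrib, ← Finset.sum_add_distrib,
          ← Finset.sum_add_distrib]
        refine Finset.sum_congr rfl fun q _ => ?_
        rw [hexp, hud p]
        ring
      rw [Finset.sum_congr rfl fun p _ => h1 p, Finset.sum_add_distrib, Finset.sum_add_distrib,
        Finset.sum_add_distrib, Finset.sum_add_distrib, hA, hB, hC, hD, Finset.sum_add_distrib]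
      ring
    rw [hsqE']
    have hle : ∑ m, ((E i m - E i' m) * dl m + dl m ^ 2) ≤ 0 := by
      refine Finset.sum_nonpos fun m _ => ?_
      by_cases h1 : m = i
      · rw [h1, hd1]; norm_num
      · by_cases h2 : m = i'
        · rw [h2, hd2]; norm_num
        · have h3 := hd3 m h1 h2
          have h4 := hs2 m h1 h2
          have h5 : s m = 2 * dl m + (E i m - E i' m) := by linarith
          rw [h5] at h4
          nlinarith
    linarith
  · show E i i' + u i * dl i' + u i' * dl i = E i i'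
    rw [hd1, hd2]; ring
  · intro m l h1 h2 h3 h4
    show E m l + u m * dl l + u l * dl m = E m l
    rw [hum m h1 h2, hum l h3 h4]; ring
  · intro m h1 h2
    show (E i m + u i * dl m + u m * dl i) + (E i' m + u i' * dl m + u m * dl i') = E i m + E i' m
    rw [hui, hui', hum m h1 h2]; ring
  · intro m h1 h2
    show ((E i m + u i * dl m + u m * dl i) - (E i' m + u i' * dl m + u m * dl i')) ^ 2 ≤ 1
    rw [hui, hui', hum m h1 h2]
    have h3 := hd3 m h1 h2
    have h5 : (E i m + 1 * dl m + 0 * dl i) - (E i' m + -1 * dl m + 0 * dl i') = s m := by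
      linarith
    rw [h5]
    exact hs1 m

end HCR
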