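import Mathlib
import Pool.Agent.Lib_helper88.HCR.Defs
import Pool.Agent.Lib_helper88.HCR.av
import Pool.Agent.Lib_helper88.HCR.rd

set_option autoImplicit false

namespace HCR

open Finset Matrix

theorem rb_fro {v : ℕ} (E : Matrix (Fin v) (Fin v) ℤ) (hE : E.IsSymm) (h0 : ∀ i, E i i = 0)
    (i i' : Fin v) (hi : i ≠ i') :
    fro ((1 / 2 : ℝ) • (rl E - (rl E).submatrix (Equiv.swap i i') (Equiv.swap i i'))) =
      ∑ m, (if m = i ∨ m = i' then 0 else ((E i m : ℝ) - (E i' m : ℝ)) ^ 2) := by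
  have hs : ∀ a b, E a b = E b a := fun a b => (hE.apply b a)
  set G : Fin v → ℝ := fun m =>
    if m = i ∨ m = i' then 0 else (((E i m : ℝ) - (E i' m : ℝ)) / 2) ^ 2 with hG
  have hpt : ∀ m l, ((1 / 2 : ℝ) • (rl E - (rl E).submatrix (Equiv.swap i i')
      (Equiv.swap i i'))) m l ^ 2 = (if m = i then G l else 0) + (if m = i' then G l else 0) +
        (if l = i then G m else 0) + (if l = i' then G m else 0) := by
    intro m l
    have e : ((1 / 2 : ℝ) • (rl E - (rl E).submatrix (Equiv.swap i i')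
      (Equiv.swap i i'))) m l = 1 / 2 * ((E m l : ℝ) -
        (E (Equiv.swap i i' m) (Equiv.swap i i' l) : ℝ)) := rfl
    rw [e]
    have hi2 : i' ≠ i := hi.symm
    by_cases hm : m = i
    · subst hm
      by_cases hl : l = m
      · subst hl
        rw [Equiv.swap_apply_left, h0, h0]
        simp [hG, hi]
      · by_cases hl' : l = i'
        · subst hl'
          rw [Equiv.swap_apply_left, Equiv.swap_apply_right, hs l m]
          simp [hG, hi2]
        · rw [Equiv.swap_apply_left, Equiv.swap_apply_of_ne_of_ne hl hl']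
          simp only [hG, if_true, if_neg hl, if_neg hl', if_neg hi, hl, hl', or_self, if_false]
          ring
    · by_cases hm' : m = i'
      · subst hm'
        by_cases hl : l = i
        · subst hl
          rw [Equiv.swap_apply_left, Equiv.swap_apply_right, hs m l]
          simp [hG, hi]
        · by_cases hl' : l = m
          · subst hl'
            rw [Equiv.swap_apply_right, h0, h0]
            simp [hG, hi2]
          · rw [Equiv.swap_apply_right, Equiv.swap_apply_of_ne_of_ne hl hl']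
            simp only [hG, if_true, if_neg hl, if_neg hl', if_neg hi2, hl, hl', or_self, if_false]
            ring
      · rw [Equiv.swap_apply_of_ne_of_ne hm hm']
        by_cases hl : l = i
        · subst hl
          rw [Equiv.swap_apply_left, hs m l, hs m i']
          simp only [hG, if_true, if_neg hm, if_neg hm', if_neg hi, hm, hm', or_self, if_false]
          ring
        · by_cases hl' : l = i'
          · subst hl'
            rw [Equiv.swap_apply_right, hs m l, hs m i]
            simp only [hG, if_true, if_neg hm, if_neg hm', if_neg hi2, hm, hm', or_self, if_false]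
            ring
          · rw [Equiv.swap_apply_of_ne_of_ne hl hl']
            simp only [if_neg hm, if_neg hm', if_neg hl, if_neg hl']
            ring
  unfold fro
  simp_rw [hpt]
  simp only [Finset.sum_add_distrib, Finset.sum_ite_eq', Finset.mem_univ, if_true]
  have h1 : ∑ m : Fin v, ∑ l : Fin v, (if m = i then G l else 0) = ∑ l, G l := by
    rw [Finset.sum_comm]
    refine Finset.sum_congr rfl fun l _ => ?_
    simp
  have h2 : ∑ m : Fin v, ∑ l : Fin v, (if m = i' then G l else 0) = ∑ l, G l := by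
    rw [Finset.sum_comm]
    refine Finset.sum_congr rfl fun l _ => ?_
    simp
  rw [h1, h2, ← Finset.sum_add_distrib, ← Finset.sum_add_distrib, ← Finset.sum_add_distrib]
  refine Finset.sum_congr rfl fun m _ => ?_
  simp only [hG]
  split_ifs
  · ring
  · ring

theorem rb_avg {v : ℕ} (E E' : Matrix (Fin v) (Fin v) ℤ) (hE : E.IsSymm) (hE' : E'.IsSymm)
    (h0 : ∀ i, E i i = 0) (h0' : ∀ i, E' i i = 0) (i i' : Fin v)
    (h1 : E' i i' = E i i')
    (h2 : ∀ m l, m ≠ i → m ≠ i' → l ≠ i → l ≠ i' → E' m l = E m l)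
    (h3 : ∀ m, m ≠ i → m ≠ i' → E' i m + E' i' m = E i m + E i' m) :
    (1 / 2 : ℝ) • (rl E' + (rl E').submatrix (Equiv.swap i i') (Equiv.swap i i')) =
      (1 / 2 : ℝ) • (rl E + (rl E).submatrix (Equiv.swap i i') (Equiv.swap i i')) := by
  have hs : ∀ a b, E a b = E b a := fun a b => (hE.apply b a)
  have hs' : ∀ a b, E' a b = E' b a := fun a b => (hE'.apply b a)
  have key : ∀ m l, E' m l + E' (Equiv.swap i i' m) (Equiv.swap i i' l) =
      E m l + E (Equiv.swap i i' m) (Equiv.swap i i' l) := by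
    intro m l
    by_cases hm : m = i
    · subst hm
      by_cases hl : l = m
      · subst hl
        rw [Equiv.swap_apply_left, h0, h0, h0', h0']
      · by_cases hl' : l = i'
        · subst hl'
          rw [Equiv.swap_apply_left, Equiv.swap_apply_right, hs l m, hs' l m, h1]
        · rw [Equiv.swap_apply_left, Equiv.swap_apply_of_ne_of_ne hl hl']
          exact h3 l hl hl'
    · by_cases hm' : m = i'
      · subst hm'
        by_cases hl : l = i
        · subst hl
          rw [Equiv.swap_apply_left, Equiv.swap_apply_right, hs m l, hs' m l, h1]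
        · by_cases hl' : l = m
          · subst hl'
            rw [Equiv.swap_apply_right, h0, h0, h0', h0']
          · rw [Equiv.swap_apply_right, Equiv.swap_apply_of_ne_of_ne hl hl']
            have := h3 l hl hl'
            linarith
      · rw [Equiv.swap_apply_of_ne_of_ne hm hm']
        by_cases hl : l = i
        · subst hl
          rw [Equiv.swap_apply_left, hs m l, hs m i', hs' m l, hs' m i']
          exact h3 m hm hm'
        · by_cases hl' : l = i'
          · subst hl'
            rw [Equiv.swap_apply_right, hs m l, hs m i, hs' m l, hs' m i]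
            have := h3 m hm hm'
            linarith
          · rw [Equiv.swap_apply_of_ne_of_ne hl hl', h2 m l hm hm' hl hl']
  ext m l
  have e1 : ((1 / 2 : ℝ) • (rl E' + (rl E').submatrix (Equiv.swap i i') (Equiv.swap i i'))) m l =
      1 / 2 * ((E' m l : ℝ) + (E' (Equiv.swap i i' m) (Equiv.swap i i' l) : ℝ)) := rfl
  have e2 : ((1 / 2 : ℝ) • (rl E + (rl E).submatrix (Equiv.swap i i') (Equiv.swap i i'))) m l =
      1 / 2 * ((E m l : ℝ) + (E (Equiv.swap i i' m) (Equiv.swap i i' l) : ℝ)) := rfl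
  rw [e1, e2]
  have := key m l
  have h4 : (E' m l : ℝ) + (E' (Equiv.swap i i' m) (Equiv.swap i i' l) : ℝ) =
      (E m l : ℝ) + (E (Equiv.swap i i' m) (Equiv.swap i i' l) : ℝ) := by exact_mod_cast this
  rw [h4]

theorem rb_frosq {v : ℕ} (E : Matrix (Fin v) (Fin v) ℤ) : fro (rl E) = (sq E : ℝ) := by
  unfold fro sq rl
  push_cast
  rfl

theorem rb_symm {v : ℕ} {E : Matrix (Fin v) (Fin v) ℤ} (hE : E.IsSymm) : (rl E).IsSymm := by
  unfold rl
  exact hE.map _

/-- in a minimiser all rows are short -/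
theorem row_bound {v : ℕ} (hv : 4 ≤ v) (M : ℝ) (hM : 100 * (v : ℝ) ≤ M) (d : ℕ) (hd : d + 2 ≤ v)
    (E : Matrix (Fin v) (Fin v) ℤ) (hE : Cls d E) (h0 : ∀ i, E i i = 0)
    (hs : 100 * sq E ≤ 104 * ((v : ℤ) * d))
    (hmin : ∀ E' : Matrix (Fin v) (Fin v) ℤ, Cls d E' → sq E' ≤ 4 * (v : ℤ) ^ 2 →
      tr1 M (rl E) ≤ tr1 M (rl E')) (i : Fin v) :
    ∑ j, E i j ^ 2 ≤ 5 * (v : ℤ) := by
  have hvZ : (4 : ℤ) ≤ v := by exact_mod_cast hv
  have hdZ : (d : ℤ) + 2 ≤ v := by exact_mod_cast hd
  have hd0 : (0 : ℤ) ≤ d := by positivity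
  -- a row with a small square sum
  obtain ⟨i', hi'⟩ : ∃ i', 100 * ∑ j, E i' j ^ 2 ≤ 104 * (d : ℤ) := by
    by_contra hcon
    push Not at hcon
    have h1 : ∑ _i' : Fin v, 104 * (d : ℤ) < ∑ i' : Fin v, 100 * ∑ j, E i' j ^ 2 := by
      apply Finset.sum_lt_sum_of_nonempty
      · exact ⟨i, Finset.mem_univ _⟩
      · intro m _
        exact hcon m
    rw [Finset.sum_const, Finset.card_univ, Fintype.card_fin, nsmul_eq_mul, ← Finset.mul_sum] at h1
    have h2 : ∑ i', ∑ j, E i' j ^ 2 = sq E := rfl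
    rw [h2] at h1
    linarith
  by_cases hii : i = i'
  · subst hii
    nlinarith
  obtain ⟨E', hC', h0', hsq', hx1, hx2, hx3, hx4⟩ := round_rows d E hE h0 i i' hii
  have hsq4 : sq E ≤ 4 * (v : ℤ) ^ 2 := by nlinarith
  have hmin' := hmin E' hC' (hsq'.trans hsq4)
  have hvR : (4 : ℝ) ≤ v := by exact_mod_cast hv
  have hσ : ∀ m, Equiv.swap i i' (Equiv.swap i i' m) = m := fun m => Equiv.swap_apply_self i i' m
  have hsq4R : (sq E : ℝ) ≤ 4 * (v : ℝ) ^ 2 := by exact_mod_cast hsq4
  have hsq4R' : (sq E' : ℝ) ≤ 4 * (v : ℝ) ^ 2 := by exact_mod_cast hsq'.trans hsq4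
  have a1 := (avg_bounds M (2 * v) (by positivity) (by linarith) (rl E) (rb_symm hE.symm)
    (by rw [rb_frosq]; linarith) (Equiv.swap i i') hσ).1
  have a2 := (avg_bounds M (2 * v) (by positivity) (by linarith) (rl E') (rb_symm hC'.symm)
    (by rw [rb_frosq]; linarith) (Equiv.swap i i') hσ).2
  rw [rb_avg E E' hE.symm hC'.symm h0 h0' i i' hx1 hx2 hx3, rb_fro E' hC'.symm h0' i i' hii] at a2
  rw [rb_fro E hE.symm h0 i i' hii] at a1
  set D : ℝ := ∑ m, (if m = i ∨ m = i' then 0 else ((E i m : ℝ) - (E i' m : ℝ)) ^ 2) with hD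
  set D' : ℝ := ∑ m, (if m = i ∨ m = i' then 0 else ((E' i m : ℝ) - (E' i' m : ℝ)) ^ 2) with hD'
  have hD'v : D' ≤ v := by
    have h1 : D' ≤ ∑ _m : Fin v, (1 : ℝ) := by
      rw [hD']
      refine Finset.sum_le_sum fun m _ => ?_
      split_ifs with hm
      · norm_num
      · rw [not_or] at hm
        have := hx4 m hm.1 hm.2
        exact_mod_cast this
    rw [Finset.sum_const, Finset.card_univ, Fintype.card_fin, nsmul_eq_mul, mul_one] at h1
    exact h1
  have hD'0 : 0 ≤ D' := by
    rw [hD']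
    refine Finset.sum_nonneg fun m _ => ?_
    split_ifs
    · exact le_refl _
    · positivity
  have hDD : D / (M + 2 * v) ^ 3 ≤ D' / (M - 2 * v) ^ 3 := by linarith
  have hMm : (0 : ℝ) < M - 2 * v := by linarith
  have hMp : (0 : ℝ) < M + 2 * v := by linarith
  have hr : (M + 2 * v) ^ 3 ≤ 1.13 * (M - 2 * v) ^ 3 := by
    have h1 : M + 2 * v ≤ 102 / 98 * (M - 2 * v) := by linarith
    calc (M + 2 * v) ^ 3 ≤ (102 / 98 * (M - 2 * v)) ^ 3 := by gcongr
      _ = (102 / 98) ^ 3 * (M - 2 * v) ^ 3 := by ring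
      _ ≤ 1.13 * (M - 2 * v) ^ 3 := by
        have : (0 : ℝ) < (M - 2 * v) ^ 3 := by positivity
        nlinarith
  have hDv : D ≤ 1.13 * v := by
    rw [div_le_div_iff₀ (by positivity) (by positivity)] at hDD
    have h3 : (0 : ℝ) < (M - 2 * v) ^ 3 := by positivity
    have h4 : D * (M - 2 * v) ^ 3 ≤ (1.13 * v) * (M - 2 * v) ^ 3 := by
      calc D * (M - 2 * v) ^ 3 ≤ D' * (M + 2 * v) ^ 3 := hDD
        _ ≤ v * (1.13 * (M - 2 * v) ^ 3) := by
          apply mul_le_mul hD'v hr (by positivity) (by positivity)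
        _ = _ := by ring
    exact le_of_mul_le_mul_right h4 h3
  -- compare the rows
  have hrow : (∑ j, (E i j : ℝ) ^ 2) ≤ 2 * (∑ j, (E i' j : ℝ) ^ 2) + 2 * D := by
    rw [hD, Finset.mul_sum, Finset.mul_sum, ← Finset.sum_add_distrib]
    have hswap : ∑ j, (E i j : ℝ) ^ 2 = ∑ j, (E i (Equiv.swap i i' j) : ℝ) ^ 2 :=
      (Equiv.sum_comp (Equiv.swap i i') (fun j => (E i j : ℝ) ^ 2)).symm
    rw [hswap]
    refine Finset.sum_le_sum fun m _ => ?_
    by_cases hm : m = i
    · subst hm
      rw [Equiv.swap_apply_left, if_pos (Or.inl rfl), hE.symm.apply i' m]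
      have := sq_nonneg (E i' m : ℝ)
      nlinarith
    · by_cases hm' : m = i'
      · subst hm'
        rw [Equiv.swap_apply_right, if_pos (Or.inr rfl), h0, h0]
        norm_num
      · rw [Equiv.swap_apply_of_ne_of_ne hm hm', if_neg (not_or.2 ⟨hm, hm'⟩)]
        nlinarith [sq_nonneg ((E i m : ℝ) - 2 * (E i' m : ℝ))]
  have hi'R : (∑ j, (E i' j : ℝ) ^ 2) ≤ 104 / 100 * d := by
    have h1 : ((100 * ∑ j, E i' j ^ 2 : ℤ) : ℝ) ≤ ((104 * (d : ℤ) : ℤ) : ℝ) := by
      exact_mod_cast hi'
    push_cast at h1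
    linarith
  have hdR : (d : ℝ) + 2 ≤ v := by exact_mod_cast hd
  have hfin : (∑ j, (E i j : ℝ) ^ 2) ≤ 5 * (v : ℝ) := by linarith
  exact_mod_cast hfin

end HCR
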