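import Mathlib
import Pool.Agent.Lib_helper88.HCR.Defs
import Pool.Agent.Lib_helper88.HCR.bw
import Pool.Agent.Lib_helper88.HCR.iv

set_option autoImplicit false

namespace HCR

open Finset Matrix

theorem en_quad {v : ℕ} (X Z : Matrix (Fin v) (Fin v) ℝ) (hX : X.IsSymm) (a b : Fin v) :
    (X * Z * X) a b = X a ⬝ᵥ (Z *ᵥ X b) := by
  rw [Matrix.mul_assoc, Matrix.mul_apply]
  unfold dotProduct
  apply Finset.sum_congr rfl
  intro i _
  congr 1
  rw [Matrix.mul_apply]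
  unfold mulVec dotProduct
  apply Finset.sum_congr rfl
  intro j _
  rw [hX.apply b j]

theorem en_cs {v : ℕ} (x y : Fin v → ℝ) (p q : ℝ) (hp : 0 ≤ p) (hq : 0 ≤ q)
    (hx : x ⬝ᵥ x ≤ p) (hy : y ⬝ᵥ y ≤ p * q ^ 2) : |x ⬝ᵥ y| ≤ p * q := by
  apply abs_le_of_sq_le_sq _ (mul_nonneg hp hq)
  have h := Finset.sum_mul_sq_le_sq_mul_sq Finset.univ x y
  have e1 : x ⬝ᵥ y = ∑ i, x i * y i := rfl
  have e2 : x ⬝ᵥ x = ∑ i, x i ^ 2 := by
    unfold dotProduct
    apply Finset.sum_congr rfl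
    intro i _
    ring
  have e3 : y ⬝ᵥ y = ∑ i, y i ^ 2 := by
    unfold dotProduct
    apply Finset.sum_congr rfl
    intro i _
    ring
  rw [e1]
  rw [e2] at hx
  rw [e3] at hy
  refine h.trans ?_
  calc (∑ i, x i ^ 2) * (∑ i, y i ^ 2) ≤ p * (p * q ^ 2) := by
        apply mul_le_mul hx hy (Finset.sum_nonneg fun i _ => sq_nonneg _) hp
    _ = (p * q) ^ 2 := by ring

theorem en_cs2 {v : ℕ} (x y : Fin v → ℝ) (p q : ℝ) (hp : 0 ≤ p)
    (hx : x ⬝ᵥ x ≤ p * q ^ 2) (hy : y ⬝ᵥ y ≤ p * q ^ 2) : |x ⬝ᵥ y| ≤ p * q ^ 2 := by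
  have := en_cs x y (p * q ^ 2) 1 (by positivity) (by norm_num) hx (by simpa using hy)
  simpa using this

/-- the identity for the square of the inverse -/
theorem en_id {v : ℕ} (M : ℝ) (hM : M ≠ 0) (X R : Matrix (Fin v) (Fin v) ℝ)
    (h1 : WM M X * R = 1) (h2 : R * WM M X = 1) :
    R * R = (1 / M ^ 2) • (1 : Matrix (Fin v) (Fin v) ℝ) + (2 / M ^ 3) • X +
      ((2 / M ^ 3) • (X * R * X) + (1 / M ^ 2) • (X * (R * R) * X)) := by
  unfold WM at h1 h2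
  rw [Matrix.sub_mul, Matrix.smul_mul, Matrix.one_mul] at h1
  rw [Matrix.mul_sub, Matrix.mul_smul, Matrix.mul_one] at h2
  have a1 : X * R = M • R - 1 := by
    rw [← h1]
    abel
  have a2 : R * X = M • R - 1 := by
    rw [← h2]
    abel
  have b1 : X * R * X = M ^ 2 • R - M • 1 - X := by
    rw [a1, Matrix.sub_mul, Matrix.smul_mul, a2, Matrix.one_mul, smul_sub, smul_smul]
    congr 2
    ring_nf
  have b2 : X * (R * R) * X = M ^ 2 • (R * R) - (2 * M) • R + 1 := by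
    have : X * (R * R) * X = (X * R) * (R * X) := by
      simp only [Matrix.mul_assoc]
    rw [this, a1, a2, Matrix.sub_mul, Matrix.mul_sub, Matrix.mul_sub, Matrix.smul_mul,
      Matrix.mul_smul, smul_smul, Matrix.mul_one, Matrix.one_mul, Matrix.mul_one]
    have e : M * M = M ^ 2 := by ring
    rw [e]
    rw [two_mul, add_smul]
    abel
  rw [b1, b2]
  ext i j
  simp only [Matrix.add_apply, Matrix.sub_apply, Matrix.smul_apply, smul_eq_mul]
  field_simp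
  ring

/-- off-diagonal entries of `(M - X)⁻²` -/
theorem inv_sq_entry {v : ℕ} (M s ρ : ℝ) (hs : 0 ≤ s) (hsM : s < M)
    (X : Matrix (Fin v) (Fin v) ℝ) (hX : X.IsSymm) (hf : fro X ≤ s ^ 2)
    (hρ : ∀ i, ∑ j, X i j ^ 2 ≤ ρ) (a b : Fin v) (hab : a ≠ b) :
    |((WM M X)⁻¹ * (WM M X)⁻¹) a b - 2 * X a b / M ^ 3| ≤
      (2 / (M ^ 3 * (M - s)) + 1 / (M ^ 2 * (M - s) ^ 2)) * ρ := by
  have hM : 0 < M := by linarith
  have hMs : 0 < M - s := by linarith
  have hρ0 : 0 ≤ ρ := (Finset.sum_nonneg fun j _ => sq_nonneg _).trans (hρ a)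
  have hb := btw_W M s hs X hX hf
  have hdet := btw_det (M - s) (M + s) hMs _ hb
  set R := (WM M X)⁻¹ with hR
  have hRs : R.IsSymm := (WM_symm M X hX).inv
  have r1 : WM M X * R = 1 := Matrix.mul_nonsing_inv _ hdet
  have r2 : R * WM M X = 1 := Matrix.nonsing_inv_mul _ hdet
  have hid := en_id M hM.ne' X R r1 r2
  have hself : ∀ i, X i ⬝ᵥ X i ≤ ρ := by
    intro i
    refine le_trans (le_of_eq ?_) (hρ i)
    unfold dotProduct
    apply Finset.sum_congr rfl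
    intro j _
    ring
  have hinv : ∀ i, (R *ᵥ X i) ⬝ᵥ (R *ᵥ X i) ≤ ρ * (1 / (M - s)) ^ 2 := by
    intro i
    refine (inv_norm_le (M - s) (M + s) hMs _ hb (X i)).trans ?_
    rw [mul_comm, _root_.one_div_pow]
    apply mul_le_mul_of_nonneg_right (hself i) (by positivity)
  have q1 : |(X * R * X) a b| ≤ ρ * (1 / (M - s)) := by
    rw [en_quad X R hX]
    exact en_cs _ _ _ _ hρ0 (by positivity) (hself a) (hinv b)
  have q2 : |(X * (R * R) * X) a b| ≤ ρ * (1 / (M - s)) ^ 2 := by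
    rw [en_quad X (R * R) hX, ← Matrix.mulVec_mulVec, Matrix.dotProduct_mulVec,
      ← Matrix.mulVec_transpose, hRs.eq]
    exact en_cs2 _ _ _ _ hρ0 (hinv a) (hinv b)
  rw [hid]
  have e : ((1 / M ^ 2) • (1 : Matrix (Fin v) (Fin v) ℝ) + (2 / M ^ 3) • X +
      ((2 / M ^ 3) • (X * R * X) + (1 / M ^ 2) • (X * (R * R) * X))) a b - 2 * X a b / M ^ 3 =
      (2 / M ^ 3) * (X * R * X) a b + (1 / M ^ 2) * (X * (R * R) * X) a b := by
    simp only [Matrix.add_apply, Matrix.smul_apply, smul_eq_mul, Matrix.one_apply_ne hab]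
    ring
  rw [e]
  refine (abs_add_le _ _).trans ?_
  rw [abs_mul, abs_mul, abs_of_pos (by positivity : (0 : ℝ) < 2 / M ^ 3),
    abs_of_pos (by positivity : (0 : ℝ) < 1 / M ^ 2)]
  calc 2 / M ^ 3 * |(X * R * X) a b| + 1 / M ^ 2 * |(X * (R * R) * X) a b|
      ≤ 2 / M ^ 3 * (ρ * (1 / (M - s))) + 1 / M ^ 2 * (ρ * (1 / (M - s)) ^ 2) := by gcongr
    _ = (2 / (M ^ 3 * (M - s)) + 1 / (M ^ 2 * (M - s) ^ 2)) * ρ := by
        field_simp

end HCR
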