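import Mathlib
import Pool.Agent.Lib_helper88.HCR.Defs

set_option autoImplicit false

namespace HCR

open Finset Matrix

theorem sm_uni {v : ℕ} {x y : Fin v} (h : x ≠ y) (i j : Fin v) :
    uni x y i j = (if i = x then (if j = y then 1 else 0) else 0) +
      (if i = y then (if j = x then 1 else 0) else 0) := by
  unfold uni
  by_cases h1 : i = x
  · subst h1
    by_cases h2 : j = y
    · subst h2
      simp [h]
    · simp [h, h2]
  · by_cases h3 : i = y
    · subst h3
      by_cases h4 : j = x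
      · subst h4
        simp [h1]
      · simp [h1, h4]
    · simp [h1, h3]

theorem sm_sum {v : ℕ} {R : Type*} [CommRing R] {x y : Fin v} (h : x ≠ y)
    (f : Fin v → Fin v → R) :
    ∑ i, ∑ j, f i j * ((uni x y i j : ℤ) : R) = f x y + f y x := by
  have e : ∀ i j, f i j * ((uni x y i j : ℤ) : R) =
      (if i = x then (if j = y then f i j else 0) else 0) +
      (if i = y then (if j = x then f i j else 0) else 0) := by
    intro i j
    rw [sm_uni h]
    push_cast
    split_ifs <;> ring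
  simp only [e, Finset.sum_add_distrib]
  congr 1
  · rw [Finset.sum_eq_single x]
    · simp
    · intro i _ hi
      simp [hi]
    · simp
  · rw [Finset.sum_eq_single y]
    · simp
    · intro i _ hi
      simp [hi]
    · simp

theorem sm_row {v : ℕ} {x y : Fin v} (h : x ≠ y) (i : Fin v) :
    ∑ j, uni x y i j = (if i = x then 1 else 0) + (if i = y then 1 else 0) := by
  simp only [sm_uni h, Finset.sum_add_distrib]
  congr 1
  · split_ifs <;> simp
  · split_ifs <;> simp

theorem sm_uni_comm {v : ℕ} (x y i j : Fin v) : uni x y i j = uni x y j i := by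
  unfold uni
  congr 1
  apply propext
  tauto

theorem sm_swi_comm {v : ℕ} (x y w u i j : Fin v) : swi x y w u i j = swi x y w u j i := by
  unfold swi
  simp only [Matrix.sub_apply, Matrix.add_apply]
  rw [sm_uni_comm y w, sm_uni_comm u x, sm_uni_comm x y, sm_uni_comm w u]

/-- sums against the switch -/
theorem sm_swi_sum {v : ℕ} {R : Type*} [CommRing R] {x y w u : Fin v}
    (h1 : x ≠ y) (h3 : x ≠ u) (h4 : y ≠ w) (h6 : w ≠ u) (f : Fin v → Fin v → R) :
    ∑ i, ∑ j, f i j * ((swi x y w u i j : ℤ) : R) =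
      (f y w + f w y) + (f u x + f x u) - (f x y + f y x) - (f w u + f u w) := by
  have e : ∀ i j, f i j * ((swi x y w u i j : ℤ) : R) =
      f i j * ((uni y w i j : ℤ) : R) + f i j * ((uni u x i j : ℤ) : R) -
      f i j * ((uni x y i j : ℤ) : R) - f i j * ((uni w u i j : ℤ) : R) := by
    intro i j
    unfold swi
    simp only [Matrix.sub_apply, Matrix.add_apply]
    push_cast
    ring
  simp only [e, Finset.sum_sub_distrib, Finset.sum_add_distrib]
  rw [sm_sum h4, sm_sum h3.symm, sm_sum h1, sm_sum h6]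

theorem sm_uni_val {v : ℕ} (x y : Fin v) : uni x y x y = 1 := by
  unfold uni
  simp

theorem sm_uni_zero {v : ℕ} {x y i j : Fin v} (h : ¬ ((i = x ∧ j = y) ∨ (i = y ∧ j = x))) :
    uni x y i j = 0 := by
  unfold uni
  rw [if_neg h]

theorem swi_symm {v : ℕ} (x y w u : Fin v) : (swi x y w u).IsSymm := by
  ext i j
  rw [Matrix.transpose_apply]
  exact sm_swi_comm x y w u j i

theorem swi_cls {v : ℕ} (d : ℕ) (E : Matrix (Fin v) (Fin v) ℤ) (hE : Cls d E) (x y w u : Fin v)
    (h1 : x ≠ y) (h2 : x ≠ w) (h3 : x ≠ u) (h4 : y ≠ w) (h5 : y ≠ u) (h6 : w ≠ u) :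
    Cls d (E + swi x y w u) := by
  have hdiag : ∀ i, swi x y w u i i = 0 := by
    intro i
    unfold swi
    simp only [Matrix.sub_apply, Matrix.add_apply]
    rw [sm_uni_zero (x := y) (y := w), sm_uni_zero (x := u) (y := x),
      sm_uni_zero (x := x) (y := y), sm_uni_zero (x := w) (y := u)]
    · ring
    · rintro (⟨a, b⟩ | ⟨a, b⟩)
      · exact h6 (a.symm.trans b)
      · exact h6 (b.symm.trans a)
    · rintro (⟨a, b⟩ | ⟨a, b⟩)
      · exact h1 (a.symm.trans b)
      · exact h1 (b.symm.trans a)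
    · rintro (⟨a, b⟩ | ⟨a, b⟩)
      · exact h3 (b.symm.trans a)
      · exact h3 (a.symm.trans b)
    · rintro (⟨a, b⟩ | ⟨a, b⟩)
      · exact h4 (a.symm.trans b)
      · exact h4 (b.symm.trans a)
  refine ⟨?_, ?_, ?_, ?_⟩
  · exact hE.symm.add (swi_symm x y w u)
  · intro i
    simp only [Matrix.add_apply, Finset.sum_add_distrib]
    rw [hE.row i]
    have : ∑ j, swi x y w u i j = 0 := by
      unfold swi
      simp only [Matrix.sub_apply, Matrix.add_apply, Finset.sum_sub_distrib,
        Finset.sum_add_distrib]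
      rw [sm_row h4, sm_row h3.symm, sm_row h1, sm_row h6]
      ring
    rw [this, add_zero]
  · intro i
    rw [Matrix.add_apply, hdiag i, add_zero]
    exact hE.nn i
  · intro i
    rw [Matrix.add_apply, hdiag i, add_zero]
    exact hE.ev i

/-- the sum of the squares of the entries of the switch -/
theorem sm_swi_self {v : ℕ} (x y w u : Fin v)
    (h1 : x ≠ y) (h2 : x ≠ w) (h3 : x ≠ u) (h4 : y ≠ w) (h5 : y ≠ u) (h6 : w ≠ u) :
    ∑ i, ∑ j, swi x y w u i j * swi x y w u i j = 8 := by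
  have h := sm_swi_sum (R := ℤ) h1 h3 h4 h6 (swi x y w u)
  simp only [Int.cast_id] at h
  rw [h]
  have c1 : swi x y w u y w = 1 := by
    unfold swi
    simp [uni, h1, h2, h3, h4, h5, h6, h1.symm, h2.symm, h3.symm, h4.symm, h5.symm, h6.symm]
  have c2 : swi x y w u u x = 1 := by
    unfold swi
    simp [uni, h1, h2, h3, h4, h5, h6, h1.symm, h2.symm, h3.symm, h4.symm, h5.symm, h6.symm]
  have c3 : swi x y w u x y = -1 := by
    unfold swi
    simp [uni, h1, h2, h3, h4, h5, h6, h1.symm, h2.symm, h3.symm, h4.symm, h5.symm, h6.symm]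
  have c4 : swi x y w u w u = -1 := by
    unfold swi
    simp [uni, h1, h2, h3, h4, h5, h6, h1.symm, h2.symm, h3.symm, h4.symm, h5.symm, h6.symm]
  rw [sm_swi_comm x y w u w y, sm_swi_comm x y w u x u, sm_swi_comm x y w u y x,
    sm_swi_comm x y w u u w, c1, c2, c3, c4]
  norm_num

theorem swi_sq {v : ℕ} (E : Matrix (Fin v) (Fin v) ℤ) (hE : E.IsSymm) (x y w u : Fin v)
    (h1 : x ≠ y) (h2 : x ≠ w) (h3 : x ≠ u) (h4 : y ≠ w) (h5 : y ≠ u) (h6 : w ≠ u) :
    sq (E + swi x y w u) = sq E + 2 * (4 - 2 * (E x y + E w u - E y w - E u x)) := by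
  unfold sq
  have e : ∀ i j, (E + swi x y w u) i j ^ 2 =
      E i j ^ 2 + 2 * (E i j * swi x y w u i j) + swi x y w u i j * swi x y w u i j := by
    intro i j
    rw [Matrix.add_apply]
    ring
  simp only [e, Finset.sum_add_distrib, ← Finset.mul_sum]
  have h := sm_swi_sum (R := ℤ) h1 h3 h4 h6 E
  simp only [Int.cast_id] at h
  rw [h, sm_swi_self x y w u h1 h2 h3 h4 h5 h6]
  rw [hE.apply y w, hE.apply u x, hE.apply x y, hE.apply w u]
  ring

theorem swi_fro {v : ℕ} (x y w u : Fin v)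
    (h1 : x ≠ y) (h2 : x ≠ w) (h3 : x ≠ u) (h4 : y ≠ w) (h5 : y ≠ u) (h6 : w ≠ u) :
    fro (rl (swi x y w u)) = 8 := by
  unfold fro rl
  have h := sm_swi_self x y w u h1 h2 h3 h4 h5 h6
  have e : ∑ i, ∑ j, ((swi x y w u).map (fun x => (x : ℝ))) i j ^ 2 =
      ((∑ i, ∑ j, swi x y w u i j * swi x y w u i j : ℤ) : ℝ) := by
    push_cast
    apply Finset.sum_congr rfl
    intro i _
    apply Finset.sum_congr rfl
    intro j _
    rw [Matrix.map_apply]
    ring
  rw [e, h]
  norm_num

theorem swi_trace {v : ℕ} (Z : Matrix (Fin v) (Fin v) ℝ) (hZ : Z.IsSymm) (x y w u : Fin v)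
    (h1 : x ≠ y) (h2 : x ≠ w) (h3 : x ≠ u) (h4 : y ≠ w) (h5 : y ≠ u) (h6 : w ≠ u) :
    trace (Z * rl (swi x y w u)) = 2 * (Z y w + Z u x - Z x y - Z w u) := by
  have h := sm_swi_sum (R := ℝ) h1 h3 h4 h6 Z
  have e : trace (Z * rl (swi x y w u)) =
      ∑ i, ∑ j, Z i j * ((swi x y w u i j : ℤ) : ℝ) := by
    unfold Matrix.trace
    apply Finset.sum_congr rfl
    intro i _
    rw [Matrix.diag_apply, Matrix.mul_apply]
    apply Finset.sum_congr rfl
    intro j _
    unfold rl
    rw [Matrix.map_apply, sm_swi_comm x y w u j i]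
  rw [e, h, hZ.apply y w, hZ.apply u x, hZ.apply x y, hZ.apply w u]
  ring

end HCR
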