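import Mathlib
import Pool.Agent.Lib_helper88.HCR.Defs
import Pool.Agent.Lib_helper88.HCR.bw
import Pool.Agent.Lib_helper88.HCR.en
import Pool.Agent.Lib_helper88.HCR.sm
import Pool.Agent.Lib_helper88.HCR.ex

set_option autoImplicit false

namespace HCR

open Finset Matrix

theorem sd_fro {v : ℕ} (E : Matrix (Fin v) (Fin v) ℤ) : fro (rl E) = (sq E : ℝ) := by
  unfold fro sq rl
  push_cast
  rfl

theorem sd_fro_neg {v : ℕ} (X : Matrix (Fin v) (Fin v) ℝ) : fro (-X) = fro X := by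
  unfold fro
  refine sum_congr rfl fun i _ => sum_congr rfl fun j _ => ?_
  rw [Matrix.neg_apply, neg_sq]

theorem sd_rl_symm {v : ℕ} {E : Matrix (Fin v) (Fin v) ℤ} (hE : E.IsSymm) : (rl E).IsSymm := by
  unfold rl
  exact hE.map _

theorem sd_WM {v : ℕ} (M : ℝ) (E T : Matrix (Fin v) (Fin v) ℤ) :
    WM M (rl (E + T)) = WM M (rl E) + -rl T := by
  have h : rl (E + T) = rl E + rl T := by
    ext i j
    change ((E i j + T i j : ℤ) : ℝ) = (E i j : ℝ) + (T i j : ℝ)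
    push_cast
    ring
  rw [WM, WM, h]
  abel

/-- the numbers -/
theorem sd_num (M V : ℝ) (hV : 4 ≤ V) (hM : 100 * V ≤ M) :
    0 < M ∧ 2 * V < M ∧ (49 / 50) * M ≤ M - 2 * V ∧
    (2 / (M ^ 3 * (M - 2 * V)) + 1 / (M ^ 2 * (M - 2 * V) ^ 2)) * (5 * V) ≤ (4 / 25) / M ^ 3 ∧
    8 / ((M - 2 * V) ^ 2 * (M - 2 * V)) ≤ (17 / 2) / M ^ 3 := by
  have hM0 : 0 < M := by linarith
  have h1 : 2 * V < M := by linarith
  have h2 : (49 / 50) * M ≤ M - 2 * V := by linarith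
  have h3 : 0 < M - 2 * V := by linarith
  have h4 : 0 < (49 / 50) * M := by positivity
  refine ⟨hM0, h1, h2, ?_, ?_⟩
  · have e1 : 2 / (M ^ 3 * (M - 2 * V)) ≤ 2 / (M ^ 3 * ((49 / 50) * M)) :=
      div_le_div_of_nonneg_left (by norm_num) (by positivity)
        (mul_le_mul_of_nonneg_left h2 (by positivity))
    have e2 : 1 / (M ^ 2 * (M - 2 * V) ^ 2) ≤ 1 / (M ^ 2 * ((49 / 50) * M) ^ 2) :=
      div_le_div_of_nonneg_left (by norm_num) (by positivity)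
        (mul_le_mul_of_nonneg_left (pow_le_pow_left₀ h4.le h2 2) (by positivity))
    have e3 : 5 * V ≤ M / 20 := by linarith
    have e4 : 0 ≤ 2 / (M ^ 3 * ((49 / 50) * M)) + 1 / (M ^ 2 * ((49 / 50) * M) ^ 2) := by
      positivity
    calc (2 / (M ^ 3 * (M - 2 * V)) + 1 / (M ^ 2 * (M - 2 * V) ^ 2)) * (5 * V)
        ≤ (2 / (M ^ 3 * ((49 / 50) * M)) + 1 / (M ^ 2 * ((49 / 50) * M) ^ 2)) * (M / 20) := by
          refine mul_le_mul (add_le_add e1 e2) e3 (by positivity) e4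
      _ = (7400 / 48020) / M ^ 3 := by
          field_simp
          norm_num
      _ ≤ (4 / 25) / M ^ 3 := by
          refine div_le_div_of_nonneg_right (by norm_num) (by positivity)
  · have e1 : (M - 2 * V) ^ 2 * (M - 2 * V) = (M - 2 * V) ^ 3 := by ring
    rw [e1]
    have e2 : ((49 / 50) * M) ^ 3 ≤ (M - 2 * V) ^ 3 := pow_le_pow_left₀ h4.le h2 3
    calc 8 / (M - 2 * V) ^ 3 ≤ 8 / ((49 / 50) * M) ^ 3 :=
          div_le_div_of_nonneg_left (by norm_num) (by positivity) e2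
      _ = (8 * 125000 / 117649) / M ^ 3 := by
          field_simp
          norm_num
      _ ≤ (17 / 2) / M ^ 3 := by
          refine div_le_div_of_nonneg_right (by norm_num) (by positivity)

/-- the switch decreases `tr (M - E)⁻¹` -/
theorem switch_dec {v : ℕ} (hv : 4 ≤ v) (M : ℝ) (hM : 100 * (v : ℝ) ≤ M) (d : ℕ)
    (E : Matrix (Fin v) (Fin v) ℤ) (hE : Cls d E)
    (hs : sq E ≤ 4 * (v : ℤ) ^ 2) (hrow : ∀ i, ∑ j, E i j ^ 2 ≤ 5 * (v : ℤ))
    (x y w u : Fin v)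
    (h1 : x ≠ y) (h2 : x ≠ w) (h3 : x ≠ u) (h4 : y ≠ w) (h5 : y ≠ u) (h6 : w ≠ u)
    (h : 3 ≤ E x y + E w u - E y w - E u x) :
    Cls d (E + swi x y w u) ∧ sq (E + swi x y w u) ≤ 4 * (v : ℤ) ^ 2 ∧
      tr1 M (rl (E + swi x y w u)) < tr1 M (rl E) := by
  have hv' : (4:ℝ) ≤ (v : ℝ) := by exact_mod_cast hv
  obtain ⟨hM0, n1, n2, n3, n4⟩ := sd_num M v hv' hM
  have hcls := swi_cls d E hE x y w u h1 h2 h3 h4 h5 h6
  have hsq := swi_sq E hE.symm x y w u h1 h2 h3 h4 h5 h6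
  have hsq' : sq (E + swi x y w u) ≤ 4 * (v : ℤ) ^ 2 := by
    rw [hsq]; linarith
  refine ⟨hcls, hsq', ?_⟩
  have hf1 : fro (rl E) ≤ (2 * (v : ℝ)) ^ 2 := by
    rw [sd_fro]
    have : (sq E : ℝ) ≤ ((4 * (v : ℤ) ^ 2 : ℤ) : ℝ) := by exact_mod_cast hs
    push_cast at this
    linarith
  have hf2 : fro (rl (E + swi x y w u)) ≤ (2 * (v : ℝ)) ^ 2 := by
    rw [sd_fro]
    have : (sq (E + swi x y w u) : ℝ) ≤ ((4 * (v : ℤ) ^ 2 : ℤ) : ℝ) := by exact_mod_cast hsq'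
    push_cast at this
    linarith
  have hs0 : (0:ℝ) ≤ 2 * (v : ℝ) := by positivity
  have hES := sd_rl_symm hE.symm
  have hES2 := sd_rl_symm hcls.symm
  have hTS : (rl (swi x y w u)).IsSymm := sd_rl_symm (swi_symm x y w u)
  have b1 := btw_W M (2 * (v : ℝ)) hs0 (rl E) hES hf1
  have b2 := btw_W M (2 * (v : ℝ)) hs0 (rl (E + swi x y w u)) hES2 hf2
  rw [sd_WM] at b2
  have hpos : 0 < M - 2 * (v : ℝ) := by linarith
  have hpos2 : 0 < M + 2 * (v : ℝ) := by linarith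
  obtain ⟨R, hR, -, hR2⟩ := expand (M - 2 * (v : ℝ)) (M + 2 * (v : ℝ)) (M - 2 * (v : ℝ))
    (M + 2 * (v : ℝ)) hpos hpos2 hpos hpos2 (WM M (rl E)) (-rl (swi x y w u)) b1 hTS.neg b2
  rw [sd_fro_neg, swi_fro x y w u h1 h2 h3 h4 h5 h6] at hR2
  set Z := (WM M (rl E))⁻¹ * (WM M (rl E))⁻¹ with hZ
  have hZS : Z.IsSymm := by
    have hW : (WM M (rl E))⁻¹.IsSymm := by
      have := WM_symm M (rl E) hES
      unfold Matrix.IsSymm at this ⊢
      rw [Matrix.transpose_nonsing_inv, this]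
    unfold Matrix.IsSymm
    rw [hZ, transpose_mul, hW.eq]
  have htr := swi_trace Z hZS x y w u h1 h2 h3 h4 h5 h6
  have hneg : trace (Z * -rl (swi x y w u)) = -trace (Z * rl (swi x y w u)) := by
    rw [Matrix.mul_neg, trace_neg]
  rw [hneg, htr] at hR
  have hrow' : ∀ i, ∑ j, (rl E) i j ^ 2 ≤ 5 * (v : ℝ) := by
    intro i
    have : ((∑ j, E i j ^ 2 : ℤ) : ℝ) ≤ ((5 * (v : ℤ) : ℤ) : ℝ) := by exact_mod_cast hrow i
    push_cast at this
    exact this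
  have ent : ∀ a b, a ≠ b → |Z a b - 2 * (E a b : ℝ) / M ^ 3| ≤ (4 / 25) / M ^ 3 := by
    intro a b hab
    have := inv_sq_entry M (2 * (v : ℝ)) (5 * (v : ℝ)) hs0 n1 (rl E) hES hf1 hrow' a b hab
    exact this.trans n3
  have t1 := abs_le.1 (ent y w h4)
  have t2 := abs_le.1 (ent u x h3.symm)
  have t3 := abs_le.1 (ent x y h1)
  have t4 := abs_le.1 (ent w u h6)
  have hE3 : (3:ℝ) ≤ (E x y : ℝ) + E w u - E y w - E u x := by exact_mod_cast h
  have hM3 : 0 < M ^ 3 := by positivity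
  have hi : 0 < 1 / M ^ 3 := by positivity
  have c1 : ∀ q : ℝ, 2 * q / M ^ 3 = 2 * q * (1 / M ^ 3) := by intro q; ring
  have c2 : (4 / 25 : ℝ) / M ^ 3 = 4 / 25 * (1 / M ^ 3) := by ring
  have c3 : (17 / 2 : ℝ) / M ^ 3 = 17 / 2 * (1 / M ^ 3) := by ring
  rw [c1, c2] at t1 t2 t3 t4
  rw [c3] at n4
  have hR3 := hR2.trans n4
  unfold tr1
  rw [sd_WM, hR]
  have key : 3 * (1 / M ^ 3) ≤ ((E x y : ℝ) + E w u - E y w - E u x) * (1 / M ^ 3) :=
    mul_le_mul_of_nonneg_right hE3 hi.le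
  have key2 : ((E x y : ℝ) + E w u - E y w - E u x) * (1 / M ^ 3) =
      E x y * (1 / M ^ 3) + E w u * (1 / M ^ 3) - E y w * (1 / M ^ 3) - E u x * (1 / M ^ 3) := by
    ring
  rw [key2] at key
  nlinarith [t1.1, t1.2, t2.1, t2.2, t3.1, t3.2, t4.1, t4.2, key, hR3, hi]

end HCR
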