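import Mathlib
import Pool.Agent.Lib_helper88.HCR.Defs

set_option autoImplicit false

namespace HCR

open Finset Matrix

/-- the large entries of a row -/
def sw_P {v : ℕ} (E : Matrix (Fin v) (Fin v) ℤ) (x : Fin v) : Finset (Fin v) :=
  univ.filter (fun y => 1 ≤ E x y)

theorem sw_mem {v : ℕ} {E : Matrix (Fin v) (Fin v) ℤ} {x y : Fin v} :
    y ∈ sw_P E x ↔ 1 ≤ E x y := by
  unfold sw_P; simp

/-- the conclusion -/
def sw_Q {v : ℕ} (E : Matrix (Fin v) (Fin v) ℤ) : Prop :=
  ∃ x y w u : Fin v, x ≠ y ∧ x ≠ w ∧ x ≠ u ∧ y ≠ w ∧ y ≠ u ∧ w ≠ u ∧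
      1 ≤ E x y ∧ 1 ≤ E w u ∧ E y w ≤ 0 ∧ E u x ≤ 0 ∧
      3 ≤ E x y + E w u - E y w - E u x

theorem sw_core {v : ℕ} (E : Matrix (Fin v) (Fin v) ℤ) (hs : ∀ i j, E i j = E j i)
    (s : ℤ) (hr : ∀ i, ∑ j, E i j = s) (h0 : ∀ i, E i i = 0) (hd : 1 ≤ s) (x : Fin v)
    (hmax : ∀ w, (sw_P E w).card ≤ (sw_P E x).card) (y : Fin v) (hxy : E x y ≤ -1) :
    sw_Q E := by
  classical
  have hne : x ≠ y := by
    rintro rfl
    rw [h0] at hxy
    omega
  obtain ⟨w, hw⟩ : ∃ w, 1 ≤ E y w := by
    by_contra hc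
    push Not at hc
    have h1 : ∑ j, E y j ≤ 0 := Finset.sum_nonpos fun j _ => by
      have := hc j
      omega
    rw [hr] at h1
    omega
  have hwx : w ≠ x := by
    rintro rfl
    rw [hs] at hw
    omega
  have hwy : w ≠ y := by
    rintro rfl
    rw [h0] at hw
    omega
  obtain ⟨u, hu, huw, hwu⟩ : ∃ u, 1 ≤ E x u ∧ u ≠ w ∧ E w u ≤ 0 := by
    by_contra hc
    push Not at hc
    have hyP : y ∉ sw_P E x := by
      rw [sw_mem]; omega
    have hxP : x ∉ sw_P E x := by
      rw [sw_mem, h0]; omega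
    by_cases hwP : w ∈ sw_P E x
    · have hsub : insert x (insert y ((sw_P E x).erase w)) ⊆ sw_P E w := by
        intro z hz
        rw [Finset.mem_insert, Finset.mem_insert, Finset.mem_erase] at hz
        rw [sw_mem]
        rcases hz with rfl | rfl | ⟨hz1, hz2⟩
        · rw [hs]; exact sw_mem.1 hwP
        · rw [hs]; exact hw
        · have := hc z (sw_mem.1 hz2) hz1
          omega
      have hcard := Finset.card_le_card hsub
      rw [Finset.card_insert_of_notMem, Finset.card_insert_of_notMem,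
        Finset.card_erase_of_mem hwP] at hcard
      · have := hmax w
        have : 0 < (sw_P E x).card := Finset.card_pos.2 ⟨w, hwP⟩
        omega
      · intro h
        exact hyP (Finset.mem_of_mem_erase h)
      · rw [Finset.mem_insert]
        rintro (h | h)
        · exact hne h
        · exact hxP (Finset.mem_of_mem_erase h)
    · have hsub : insert y (sw_P E x) ⊆ sw_P E w := by
        intro z hz
        rw [Finset.mem_insert] at hz
        rw [sw_mem]
        rcases hz with rfl | hz2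
        · rw [hs]; exact hw
        · have hzw : z ≠ w := by
            rintro rfl
            exact hwP hz2
          have := hc z (sw_mem.1 hz2) hzw
          omega
      have hcard := Finset.card_le_card hsub
      rw [Finset.card_insert_of_notMem hyP] at hcard
      have := hmax w
      omega
  have hux : u ≠ x := by
    rintro rfl
    rw [h0] at hu
    omega
  have huy : u ≠ y := by
    rintro rfl
    omega
  refine ⟨y, w, u, x, hwy.symm, huy.symm, hne.symm, huw.symm, hwx, hux, hw, ?_, hwu, ?_, ?_⟩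
  · rw [hs]; exact hu
  · omega
  · rw [hs u x]; omega

theorem sw_row {v : ℕ} (E : Matrix (Fin v) (Fin v) ℤ) (x : Fin v) (s : ℤ)
    (hr : ∑ j, E x j = s) (hn : ∀ y, 0 ≤ E x y) : ((sw_P E x).card : ℤ) ≤ s := by
  rw [← hr]
  calc ((sw_P E x).card : ℤ) = ∑ j ∈ sw_P E x, (1 : ℤ) := by simp
    _ ≤ ∑ j ∈ sw_P E x, E x j := Finset.sum_le_sum fun j hj => sw_mem.1 hj
    _ ≤ ∑ j, E x j := Finset.sum_le_sum_of_subset_of_nonneg (Finset.subset_univ _)
        fun j _ _ => hn j

theorem sw_row2 {v : ℕ} (E : Matrix (Fin v) (Fin v) ℤ) (x : Fin v) (s : ℤ)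
    (hr : ∑ j, E x j = s) (hn : ∀ y, 0 ≤ E x y) (y : Fin v) (hy : 2 ≤ E x y) :
    ((sw_P E x).card : ℤ) + 1 ≤ s := by
  rw [← hr]
  have hyP : y ∈ sw_P E x := sw_mem.2 (by omega)
  calc ((sw_P E x).card : ℤ) + 1 = ∑ j ∈ sw_P E x, (1 : ℤ) + 1 := by simp
    _ ≤ ∑ j ∈ sw_P E x, E x j := by
        rw [← Finset.add_sum_erase _ _ hyP, ← Finset.add_sum_erase (sw_P E x) (fun j => E x j) hyP]
        have : ∑ j ∈ (sw_P E x).erase y, (1 : ℤ) ≤ ∑ j ∈ (sw_P E x).erase y, E x j :=
          Finset.sum_le_sum fun j hj => sw_mem.1 (Finset.mem_of_mem_erase hj)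
        omega
    _ ≤ ∑ j, E x j := Finset.sum_le_sum_of_subset_of_nonneg (Finset.subset_univ _)
        fun j _ _ => hn j

theorem sw_big {v : ℕ} (E : Matrix (Fin v) (Fin v) ℤ) (hs : ∀ i j, E i j = E j i)
    (s : ℤ) (hr : ∀ i, ∑ j, E i j = s) (h0 : ∀ i, E i i = 0) (hd : 1 ≤ s)
    (x0 : Fin v) (hx0 : s < (sw_P E x0).card) : sw_Q E := by
  obtain ⟨x, _, hx⟩ := Finset.exists_max_image (univ : Finset (Fin v)) (fun x => (sw_P E x).card)
    ⟨x0, Finset.mem_univ _⟩
  have hxs : s < (sw_P E x).card := by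
    have := hx x0 (Finset.mem_univ _)
    omega
  obtain ⟨y, hy⟩ : ∃ y, E x y ≤ -1 := by
    by_contra hc
    push Not at hc
    have := sw_row E x s (hr x) (fun y => by have := hc y; omega)
    omega
  exact sw_core E hs s hr h0 hd x (fun w => hx w (Finset.mem_univ _)) y hy

theorem exists_switch {v d : ℕ} (E : Matrix (Fin v) (Fin v) ℤ) (hs : E.IsSymm)
    (hr : ∀ i, ∑ j, E i j = (d : ℤ)) (h0 : ∀ i, E i i = 0) (hd : 1 ≤ d) (hd' : d + 2 ≤ v)
    (hne : ∃ i j, E i j ≠ 0 ∧ E i j ≠ 1) :
    ∃ x y w u : Fin v, x ≠ y ∧ x ≠ w ∧ x ≠ u ∧ y ≠ w ∧ y ≠ u ∧ w ≠ u ∧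
      1 ≤ E x y ∧ 1 ≤ E w u ∧ E y w ≤ 0 ∧ E u x ≤ 0 ∧
      3 ≤ E x y + E w u - E y w - E u x := by
  classical
  have hsy : ∀ i j, E i j = E j i := fun i j => hs.apply j i
  show sw_Q E
  by_cases hb : ∃ x, (d : ℤ) < (sw_P E x).card
  · obtain ⟨x, hx⟩ := hb
    exact sw_big E hsy d hr h0 (by exact_mod_cast hd) x hx
  push Not at hb
  by_cases hb' : ∃ x, ((sw_P E x).card : ℤ) < d
  · obtain ⟨x, hx⟩ := hb'
    let F : Matrix (Fin v) (Fin v) ℤ := fun i j => if i = j then 0 else 1 - E i j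
    have hF : ∀ i j, i ≠ j → F i j = 1 - E i j := fun i j h => if_neg h
    have hF0 : ∀ i, F i i = 0 := fun i => if_pos rfl
    have hFs : ∀ i j, F i j = F j i := by
      intro i j
      by_cases h : i = j
      · rw [h]
      · rw [hF i j h, hF j i (Ne.symm h), hsy]
    have hFr : ∀ i, ∑ j, F i j = (v : ℤ) - 1 - d := by
      intro i
      have h1 : ∑ j, F i j = ∑ j, ((1 - E i j) - if i = j then 1 else 0) := by
        refine Finset.sum_congr rfl fun j _ => ?_
        by_cases h : i = j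
        · subst h
          rw [hF0, h0]; simp
        · rw [hF i j h, if_neg h, sub_zero]
      rw [h1, Finset.sum_sub_distrib, Finset.sum_sub_distrib, hr]
      simp
      ring
    have hcard : ((sw_P F x).card : ℤ) = (v : ℤ) - 1 - (sw_P E x).card := by
      have h1 : sw_P F x = (univ.erase x) \ sw_P E x := by
        ext y
        rw [sw_mem, Finset.mem_sdiff, Finset.mem_erase, sw_mem]
        by_cases h : x = y
        · subst h
          rw [hF0]; simp
        · rw [hF x y h]
          constructor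
          · intro h2
            exact ⟨⟨Ne.symm h, Finset.mem_univ _⟩, by omega⟩
          · rintro ⟨_, h2⟩
            omega
      have h2 : sw_P E x ⊆ univ.erase x := by
        intro y hy
        rw [sw_mem] at hy
        refine Finset.mem_erase.2 ⟨?_, Finset.mem_univ _⟩
        rintro rfl
        rw [h0] at hy
        omega
      rw [h1, Finset.card_sdiff_of_subset h2, Finset.card_erase_of_mem (Finset.mem_univ _),
        Finset.card_univ, Fintype.card_fin]
      have h3 := Finset.card_le_card h2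
      rw [Finset.card_erase_of_mem (Finset.mem_univ _), Finset.card_univ, Fintype.card_fin] at h3
      push_cast [Nat.cast_sub h3]
      have : 1 ≤ v := by omega
      push_cast [Nat.cast_sub this]
      ring
    obtain ⟨a, b, c, e, h1, h2, h3, h4, h5, h6, g1, g2, g3, g4, g5⟩ :=
      sw_big F hFs ((v : ℤ) - 1 - d) hFr hF0 (by omega) x (by rw [hcard]; omega)
    rw [hF a b h1] at g1 g5
    rw [hF c e h6] at g2 g5
    rw [hF b c h4] at g3 g5
    rw [hF e a (Ne.symm h3)] at g4 g5
    refine ⟨b, c, e, a, h4, h5, Ne.symm h1, h6, Ne.symm h2, Ne.symm h3, by omega, by omega,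
      by omega, by omega, by omega⟩
  · push Not at hb'
    have hall : ∀ x, ((sw_P E x).card : ℤ) = d := fun x => le_antisymm (hb x) (hb' x)
    obtain ⟨i, j, hij0, hij1⟩ := hne
    obtain ⟨y, hy⟩ : ∃ y, E i y ≤ -1 := by
      by_contra hc
      push Not at hc
      have hn : ∀ y, 0 ≤ E i y := fun y => by have := hc y; omega
      have h2 : 2 ≤ E i j := by have := hn j; omega
      have := sw_row2 E i d (hr i) hn j h2
      rw [hall] at this
      omega
    exact sw_core E hsy d hr h0 (by exact_mod_cast hd) i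
      (fun w => by have h1 := hall w; have h2 := hall i; omega) y hy

end HCR
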