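import Mathlib
import Pool.Agent.Lib_helper88.HCR.Defs
import Pool.Agent.Lib_helper88.HCR.dg
import Pool.Agent.Lib_helper88.HCR.rb
import Pool.Agent.Lib_helper88.HCR.sd
import Pool.Agent.Lib_helper88.HCR.sw
import Pool.Agent.Lib_helper88.HCR.fn
import Pool.Agent.Lib_helper88.HCR.f0
import Pool.Agent.Lib_helper88.HCR.bw

set_option autoImplicit false

namespace HCR

open Finset Matrix

/-- step 1: the minimiser has few nonzero entries -/
theorem mr_step1 {v : ℕ} (hv : 4 ≤ v) (M : ℝ) (hM : 100 * (v : ℝ) ≤ M) (d : ℕ)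
    (hd : d + 2 ≤ v) (G0 : Matrix (Fin v) (Fin v) ℤ) (hG0 : Reg d G0)
    (E : Matrix (Fin v) (Fin v) ℤ) (hE : Cls d E) (hs : sq E ≤ 4 * (v : ℤ) ^ 2)
    (hmin : tr1 M (rl E) ≤ tr1 M (rl G0)) : 100 * sq E ≤ 104 * ((v : ℤ) * d) := by
  have hv4 : (4 : ℝ) ≤ (v : ℝ) := by exact_mod_cast hv
  have hv0 : (0 : ℝ) < (v : ℝ) := by linarith
  have hM0 : (0 : ℝ) < M := by nlinarith
  have hdv : (d : ℝ) ≤ (v : ℝ) := by
    have : d ≤ v := by omega
    exact_mod_cast this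
  have hd0 : (0 : ℝ) ≤ (d : ℝ) := Nat.cast_nonneg _
  -- the matrix E
  have hsR : ((sq E : ℤ) : ℝ) ≤ 4 * (v : ℝ) ^ 2 := by exact_mod_cast hs
  have hfE : fro (rl E) ≤ (2 * (v : ℝ)) ^ 2 := by rw [fro_rl]; nlinarith
  have hbE := btw_W M (2 * (v : ℝ)) (by linarith) (rl E) (rl_symm E hE.symm) hfE
  have hFE := (F_bounds M (M - 2 * v) (M + 2 * v) hM0 (by linarith) (by linarith) (rl E)
    (rl_symm E hE.symm) hbE).1
  -- the matrix G0
  have hfG : fro (rl G0) = (v : ℝ) * d := by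
    rw [fro_rl, reg_sq d G0 hG0]; push_cast; ring
  have hfG' : fro (rl G0) ≤ (v : ℝ) ^ 2 := by rw [hfG]; nlinarith
  have hbG := btw_W M (v : ℝ) hv0.le (rl G0) (rl_symm G0 hG0.symm) hfG'
  have hFG := (F_bounds M (M - v) (M + v) hM0 (by linarith) (by linarith) (rl G0)
    (rl_symm G0 hG0.symm) hbG).2
  have htG : trace (rl G0) = 0 := by
    simp [Matrix.trace, rl, hG0.diag]
  have htE : 0 ≤ trace (rl E) := by
    unfold Matrix.trace
    refine Finset.sum_nonneg fun i _ => ?_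
    have := hE.nn i
    simp only [Matrix.diag_apply, rl, Matrix.map_apply]
    exact_mod_cast this
  rw [htG, zero_div, add_zero, hfG] at hFG
  rw [fro_rl] at hFE
  have h1 : 0 ≤ trace (rl E) / M ^ 2 := div_nonneg htE (sq_nonneg M)
  have h2 : ((sq E : ℤ) : ℝ) / ((M + 2 * v) * M ^ 2) ≤ ((v : ℝ) * d) / ((M - v) * M ^ 2) := by
    linarith
  have hp1 : (0 : ℝ) < (M + 2 * v) * M ^ 2 := by
    have : (0 : ℝ) < M + 2 * v := by linarith
    positivity
  have hp2 : (0 : ℝ) < (M - v) * M ^ 2 := by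
    have : (0 : ℝ) < M - v := by linarith
    positivity
  rw [div_le_div_iff₀ hp1 hp2] at h2
  have hMM : (0 : ℝ) < M ^ 2 := by positivity
  have h3 : ((sq E : ℤ) : ℝ) * (M - v) ≤ ((v : ℝ) * d) * (M + 2 * v) := by
    have : (((sq E : ℤ) : ℝ) * (M - v)) * M ^ 2 ≤ (((v : ℝ) * d) * (M + 2 * v)) * M ^ 2 := by
      nlinarith [h2]
    exact le_of_mul_le_mul_right this hMM
  have hvd : (0 : ℝ) ≤ (v : ℝ) * d := mul_nonneg hv0.le hd0
  have h4 : (100 * ((sq E : ℤ) : ℝ)) * (M - v) ≤ (104 * ((v : ℝ) * d)) * (M - v) := by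
    have h5 : ((v : ℝ) * d) * (100 * (M + 2 * v)) ≤ ((v : ℝ) * d) * (104 * (M - v)) :=
      mul_le_mul_of_nonneg_left (by linarith) hvd
    nlinarith [h3, h5]
  have h6 : 100 * ((sq E : ℤ) : ℝ) ≤ 104 * ((v : ℝ) * d) :=
    le_of_mul_le_mul_right h4 (by linarith)
  exact_mod_cast h6

/-- a minimiser of `tr (M - E)⁻¹` over the class is a regular graph -/
theorem min_reg {v : ℕ} (hv : 4 ≤ v) (M : ℝ) (hM : 100 * (v : ℝ) ≤ M) (d : ℕ) (hd1 : 1 ≤ d)
    (hd : d + 2 ≤ v) (G0 : Matrix (Fin v) (Fin v) ℤ) (hG0 : Reg d G0)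
    (E : Matrix (Fin v) (Fin v) ℤ) (hE : Cls d E) (hs : sq E ≤ 4 * (v : ℤ) ^ 2)
    (hmin : ∀ E' : Matrix (Fin v) (Fin v) ℤ, Cls d E' → sq E' ≤ 4 * (v : ℤ) ^ 2 →
      tr1 M (rl E) ≤ tr1 M (rl E')) : Reg d E := by
  have hG0s : sq G0 ≤ 4 * (v : ℤ) ^ 2 := by
    rw [reg_sq d G0 hG0]
    have h1 : (d : ℤ) ≤ (v : ℤ) := by
      have : d ≤ v := by omega
      exact_mod_cast this
    have h2 : (0 : ℤ) ≤ (v : ℤ) := Int.natCast_nonneg v
    nlinarith
  have hs1 := mr_step1 hv M hM d hd G0 hG0 E hE hs (hmin G0 (reg_cls d G0 hG0) hG0s)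
  have h0 : ∀ i, E i i = 0 := by
    intro i
    by_contra hi
    have hcard : (Finset.univ : Finset (Fin v)).card = v := by simp
    obtain ⟨j, hj⟩ : ((Finset.univ : Finset (Fin v)).erase i).Nonempty := by
      rw [← Finset.card_pos, Finset.card_erase_of_mem (Finset.mem_univ i), hcard]
      omega
    obtain ⟨l, hl⟩ : (((Finset.univ : Finset (Fin v)).erase i).erase j).Nonempty := by
      rw [← Finset.card_pos, Finset.card_erase_of_mem hj,
        Finset.card_erase_of_mem (Finset.mem_univ i), hcard]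
      omega
    have hij : i ≠ j := (Finset.ne_of_mem_erase hj).symm
    have hjl : j ≠ l := (Finset.ne_of_mem_erase hl).symm
    have hil : i ≠ l := (Finset.ne_of_mem_erase (Finset.mem_of_mem_erase hl)).symm
    obtain ⟨hc, hq, hlt⟩ := diag_dec hv M hM d hd E hE hs1 i j l hij hil hjl hi
    exact absurd (hmin _ hc hq) (not_le.2 hlt)
  have hrow : ∀ i, ∑ j, E i j ^ 2 ≤ 5 * (v : ℤ) :=
    fun i => row_bound hv M hM d hd E hE h0 hs1 hmin i
  refine ⟨hE.symm, hE.row, h0, ?_⟩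
  by_contra hne
  have hne' : ∃ i j, E i j ≠ 0 ∧ E i j ≠ 1 := by
    by_contra hcon
    apply hne
    intro i j
    by_contra hij
    exact hcon ⟨i, j, not_or.1 hij⟩
  obtain ⟨x, y, w, u, h1, h2, h3, h4, h5, h6, _, _, _, _, h⟩ :=
    exists_switch E hE.symm hE.row h0 hd1 hd hne'
  obtain ⟨hc, hq, hlt⟩ := switch_dec hv M hM d E hE hs hrow x y w u h1 h2 h3 h4 h5 h6 h
  exact absurd (hmin _ hc hq) (not_le.2 hlt)

end HCR
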