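import Mathlib
import Pool.Agent.Lib_helper88.HCR.Defs
import Pool.Agent.Lib_helper88.HCR.f0
import Pool.Agent.Lib_helper88.HCR.fn
import Pool.Agent.Lib_helper88.HCR.mr
import Pool.Agent.Lib_helper88.HCR.pd
import Pool.Agent.Lib_helper88.HCR.rg
import Pool.Agent.Lib_helper88.HCR.bw

set_option autoImplicit false

/-! Block om (project HCR, helper53). -/

namespace HCR

open Finset Matrix

theorem om_trace_nonneg {v d : ℕ} (E : Matrix (Fin v) (Fin v) ℤ) (hE : Cls d E) :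
    0 ≤ trace (rl E) := by
  unfold trace
  refine Finset.sum_nonneg fun i _ => ?_
  have := hE.nn i
  simp only [Matrix.diag_apply, rl, Matrix.map_apply]
  exact_mod_cast this

theorem om_trace_reg {v d : ℕ} (G : Matrix (Fin v) (Fin v) ℤ) (hG : Reg d G) :
    trace (rl G) = 0 := by
  unfold trace
  refine Finset.sum_eq_zero fun i _ => ?_
  simp [rl, hG.diag i]

/-- Main analytic theorem. If `E` is in the class, `0 < M - E ≤ 2 M` and `tr (M - E)⁻¹` is at most
the value of every `d`-regular graph, then `E` is a `d`-regular graph. -/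
theorem opt_main {v : ℕ} (hv : 2 ≤ v) (M : ℝ) (hM : 100 * (v : ℝ) ≤ M) (d : ℕ) (hd : d + 2 ≤ v)
    (h2 : 2 ∣ v * d) (E : Matrix (Fin v) (Fin v) ℤ) (hE : Cls d E)
    (h0 : ∀ x : Fin v → ℝ, 0 ≤ x ⬝ᵥ (WM M (rl E) *ᵥ x)) (hdet : (WM M (rl E)).det ≠ 0)
    (hb : ∀ x : Fin v → ℝ, x ⬝ᵥ (WM M (rl E) *ᵥ x) ≤ 2 * M * (x ⬝ᵥ x))
    (hopt : ∀ G : Matrix (Fin v) (Fin v) ℤ, Reg d G → tr1 M (rl E) ≤ tr1 M (rl G)) :
    Reg d E := by
  have hv2 : (2 : ℝ) ≤ v := by exact_mod_cast hv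
  have hMp : (0 : ℝ) < M := by linarith
  have hsymE := rl_symm E hE.symm
  obtain ⟨a, ha, hBE⟩ := exists_btw (WM M (rl E)) (WM_symm M _ hsymE) h0 hdet (2 * M) hb
  have hFE := (F_bounds M a (2 * M) hMp ha (by positivity) (rl E) hsymE hBE).1
  have htE := om_trace_nonneg E hE
  obtain ⟨G0, hG0⟩ := exists_reg v d (by omega) h2
  -- bounds for the graph
  have hG0c := reg_cls d G0 hG0
  have hG0s := reg_sq d G0 hG0
  have hsymG := rl_symm G0 hG0c.symm
  have hdv : (d : ℝ) ≤ v - 2 := by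
    have : (d : ℝ) + 2 ≤ v := by exact_mod_cast hd
    linarith
  have hvdR : (v : ℝ) * d ≤ (v : ℝ) ^ 2 := by
    have h1 : (v : ℝ) * d ≤ v * (v - 2) := mul_le_mul_of_nonneg_left hdv (by linarith)
    nlinarith
  have hBG : Btw (M - v) (M + v) (WM M (rl G0)) := by
    refine btw_W M v (by positivity) _ hsymG ?_
    rw [fro_rl, hG0s]
    push_cast
    exact hvdR
  have hMv : (0 : ℝ) < M - v := by linarith
  have hFG := (F_bounds M (M - v) (M + v) hMp hMv (by positivity) (rl G0) hsymG hBG).2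
  rw [om_trace_reg G0 hG0, fro_rl, hG0s] at hFG
  have hEG := hopt G0 hG0
  rw [fro_rl] at hFE
  push_cast at hFG
  have hkey : (sq E : ℝ) / (2 * M * M ^ 2) ≤ (v : ℝ) * d / ((M - v) * M ^ 2) := by
    have h1 : 0 ≤ trace (rl E) / M ^ 2 := by positivity
    have h3 : (0 : ℝ) / M ^ 2 = 0 := zero_div _
    linarith
  have hsq1 : (sq E : ℝ) ≤ 2.03 * ((v : ℝ) * d) := by
    rw [div_le_div_iff₀ (by positivity) (by positivity)] at hkey
    have h1 : (sq E : ℝ) * (M - v) ≤ (v : ℝ) * d * (2 * M) := by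
      have hM2 : (0 : ℝ) < M ^ 2 := by positivity
      refine le_of_mul_le_mul_right ?_ hM2
      calc (sq E : ℝ) * (M - v) * M ^ 2 = (sq E : ℝ) * ((M - v) * M ^ 2) := by ring
        _ ≤ (v : ℝ) * d * (2 * M * M ^ 2) := hkey
        _ = (v : ℝ) * d * (2 * M) * M ^ 2 := by ring
    have h3 : 0.99 * M ≤ M - v := by linarith
    have h4 : (0 : ℝ) ≤ sq E := by
      rw [← fro_rl]; exact fro_nonneg _
    have h5 : (sq E : ℝ) * (0.99 * M) ≤ (v : ℝ) * d * (2 * M) :=
      (mul_le_mul_of_nonneg_left h3 h4).trans h1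
    have h6 : (sq E : ℝ) * 0.99 ≤ (v : ℝ) * d * 2 := by
      refine le_of_mul_le_mul_right ?_ hMp
      linarith
    have h7 : (0 : ℝ) ≤ (v : ℝ) * d := by positivity
    linarith
  rcases Nat.eq_zero_or_pos d with hd0 | hd1
  · -- `d = 0`
    subst hd0
    have h3 : (sq E : ℝ) ≤ 0 := by
      push_cast at hsq1
      linarith
    have h4 : sq E ≤ 0 := by exact_mod_cast h3
    have h5 := sq_ge 0 E hE
    have h6 : sq E = (v : ℤ) * ((0 : ℕ) : ℤ) := by
      push_cast at h5 ⊢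
      linarith [h5.1]
    refine h5.2 h6 ?_
    intro i
    have h7 : E i i ^ 2 ≤ sq E := by
      unfold sq
      calc E i i ^ 2 ≤ ∑ j, E i j ^ 2 :=
            Finset.single_le_sum (f := fun j => E i j ^ 2) (fun j _ => sq_nonneg _)
              (Finset.mem_univ i)
        _ ≤ ∑ i, ∑ j, E i j ^ 2 :=
            Finset.single_le_sum (f := fun i => ∑ j, E i j ^ 2)
              (fun j _ => Finset.sum_nonneg fun _ _ => sq_nonneg _) (Finset.mem_univ i)
    have h8 : E i i ^ 2 ≤ 0 := h7.trans h4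
    have h9 : E i i ^ 2 = 0 := le_antisymm h8 (sq_nonneg _)
    exact pow_eq_zero_iff (two_ne_zero) |>.1 h9
  · -- `d ≥ 1`
    have hv4 : 4 ≤ v := by
      by_contra hcon
      have hv3 : v = 3 := by omega
      have hd1' : d = 1 := by omega
      subst hv3 hd1'
      omega
    have hsqE : sq E ≤ 4 * (v : ℤ) ^ 2 := by
      have h3 : (sq E : ℝ) ≤ ((4 * (v : ℤ) ^ 2 : ℤ) : ℝ) := by
        push_cast
        nlinarith [sq_nonneg (v : ℝ)]
      exact_mod_cast h3
    obtain ⟨E1, ⟨hE1, hE1s⟩, hE1m⟩ := exists_min d (fun X => tr1 M (rl X)) ⟨E, hE, hsqE⟩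
    have hR1 := min_reg hv4 M hM d hd1 hd G0 hG0 E1 hE1 hE1s hE1m
    exact min_reg hv4 M hM d hd1 hd G0 hG0 E hE hsqE
      (fun E' hE' hs' => (hopt E1 hR1).trans (hE1m E' hE' hs'))

end HCR
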