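import Mathlib
import Pool.Agent.Lib_helper88.HCR.Defs
import Pool.Agent.Lib_helper88.HCR.da

set_option autoImplicit false

namespace HCR

open Finset Matrix

lemma rr_diag {v b k r : ℕ} (lam : ℤ)
    (N : Matrix (Fin v) (Fin b) ℕ) (hN : IsDes k r N)
    (h0 : ∀ i, Ex lam (D0 v b k r - lam) N i i = 0) (i : Fin v) :
    ∑ l, ((N i l : ℤ) - ((k / v : ℕ) : ℤ)) * ((N i l : ℤ) - ((k / v : ℕ) : ℤ) - 1) = 0 := by
  have h := h0 i
  unfold Ex D0 at h
  simp only [if_true] at h
  have h2 : (∑ j, (N i j : ℤ)) = (r : ℤ) := by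
    have := hN.2 i
    exact_mod_cast this
  have h3 : ∀ l, ((N i l : ℤ) - ((k / v : ℕ) : ℤ)) * ((N i l : ℤ) - ((k / v : ℕ) : ℤ) - 1) =
      (N i l : ℤ) * (N i l : ℤ) - (2 * ((k / v : ℕ) : ℤ) + 1) * (N i l : ℤ) +
        ((k / v : ℕ) : ℤ) * (((k / v : ℕ) : ℤ) + 1) := by
    intro l; ring
  simp only [h3]
  rw [Finset.sum_add_distrib, Finset.sum_sub_distrib, ← Finset.mul_sum, h2]
  simp only [Finset.sum_const, Finset.card_univ, Fintype.card_fin, nsmul_eq_mul]
  linarith

lemma rr_val {v b k r : ℕ} (lam : ℤ)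
    (N : Matrix (Fin v) (Fin b) ℕ) (hN : IsDes k r N)
    (h0 : ∀ i, Ex lam (D0 v b k r - lam) N i i = 0) (i : Fin v) (j : Fin b) :
    (N i j : ℤ) = ((k / v : ℕ) : ℤ) ∨ (N i j : ℤ) = ((k / v : ℕ) : ℤ) + 1 := by
  have h := rr_diag lam N hN h0 i
  have hnn : ∀ l ∈ (Finset.univ : Finset (Fin b)),
      0 ≤ ((N i l : ℤ) - ((k / v : ℕ) : ℤ)) * ((N i l : ℤ) - ((k / v : ℕ) : ℤ) - 1) := by
    intro l _
    rcases le_or_gt ((N i l : ℤ) - ((k / v : ℕ) : ℤ)) 0 with h1 | h1
    · nlinarith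
    · have : 0 ≤ (N i l : ℤ) - ((k / v : ℕ) : ℤ) - 1 := by omega
      positivity
  have hz := (Finset.sum_eq_zero_iff_of_nonneg hnn).1 h j (Finset.mem_univ j)
  rcases mul_eq_zero.1 hz with h1 | h1
  · left; omega
  · right; omega

/-- `k ≤ v` and the diagonal of `E` vanishes: the design is binary -/
theorem binary_of_diag {v b k r : ℕ} (hv : 1 ≤ v) (hk : 1 ≤ k) (hkv : k ≤ v) (lam : ℤ)
    (N : Matrix (Fin v) (Fin b) ℕ) (hN : IsDes k r N)
    (h0 : ∀ i, Ex lam (D0 v b k r - lam) N i i = 0) (i : Fin v) (j : Fin b) :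
    N i j = 0 ∨ N i j = 1 := by
  rcases lt_or_eq_of_le hkv with h | h
  · have hq : k / v = 0 := Nat.div_eq_of_lt h
    have := rr_val lam N hN h0 i j
    rw [hq] at this
    omega
  · subst h
    have hq : k / k = 1 := Nat.div_self (by omega)
    have hval : ∀ l, 1 ≤ N i l := by
      intro l
      have := rr_val lam N hN h0 i l
      rw [hq] at this
      omega
    have hrb : r = b := by
      have := des_count N hN
      rw [mul_comm b k] at this
      exact Nat.eq_of_mul_eq_mul_left (by omega) this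
    have hs : ∑ l, (N i l - 1) = 0 := by
      have h1 : ∑ l, N i l = ∑ l, (N i l - 1) + ∑ l : Fin b, 1 := by
        rw [← Finset.sum_add_distrib]
        refine Finset.sum_congr rfl (fun l _ => ?_)
        have := hval l
        omega
      rw [hN.2 i] at h1
      simp only [Finset.sum_const, Finset.card_univ, Fintype.card_fin, smul_eq_mul,
        mul_one] at h1
      omega
    have := (Finset.sum_eq_zero_iff.1 hs) j (Finset.mem_univ j)
    have h2 := hval j
    omega

/-- concurrences -/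
theorem conc_of_reg {v b k r d : ℕ} (lam : ℤ) (N : Matrix (Fin v) (Fin b) ℕ)
    (hR : Reg d (Ex lam (D0 v b k r - lam) N)) (i i' : Fin v) (h : i ≠ i') :
    (∑ l, (N i l : ℤ) * (N i' l : ℤ)) = lam ∨ (∑ l, (N i l : ℤ) * (N i' l : ℤ)) = lam + 1 := by
  have := hR.zo i i'
  unfold Ex at this
  rw [if_neg h] at this
  rcases this with h1 | h1
  · left; omega
  · right; omega

end HCR
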