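import Mathlib
import Pool.Agent.Lib_helper88.HCR.Defs
import Pool.Agent.Lib_helper88.HCR.om
import Pool.Agent.Lib_helper88.HCR.dd
import Pool.Agent.Lib_helper88.HCR.df
import Pool.Agent.Lib_helper88.HCR.ds
import Pool.Agent.Lib_helper88.HCR.dt
import Pool.Agent.Lib_helper88.HCR.dw
import Pool.Agent.Lib_helper88.HCR.ee
import Pool.Agent.Lib_helper88.HCR.rr
import Pool.Agent.Lib_helper88.HCR.k2
import Pool.Agent.Lib_helper88.HCR.fn
import Pool.Agent.Lib_helper88.HCR.bw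
import Pool.Agent.Lib_helper88.HCR.iv

set_option autoImplicit false

namespace HCR

open Finset Matrix

/-- a regular graph design is connected in the high concurrence range -/
theorem conn_of_reg {v b k r d : ℕ} (hv : 2 ≤ v) (hk : 2 ≤ k) (lam : ℤ)
    (hl : 100 ≤ lam) (hp : (r : ℤ) * k - D0 v b k r = lam * ((v : ℤ) - 1) + d) (hd : d + 2 ≤ v)
    (N : Matrix (Fin v) (Fin b) ℕ) (hN : IsDes k r N)
    (hR : Reg d (Ex lam (D0 v b k r - lam) N)) : Conn k r N := by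
  rw [conn_iff (by omega) (by omega) lam (by omega) N hN hp]
  have hvr : (2 : ℝ) ≤ v := by exact_mod_cast hv
  have hlr : (100 : ℝ) ≤ lam := by exact_mod_cast hl
  have hdr : (d : ℝ) ≤ v := by exact_mod_cast (by omega : d ≤ v)
  have h1 : fro (rl (Ex lam (D0 v b k r - lam) N)) ≤ (v : ℝ) ^ 2 := by
    rw [fro_rl, reg_sq d _ hR]
    push_cast
    nlinarith
  have h2 := btw_W ((lam : ℝ) * v + d) v (by positivity) _ (rl_symm _ hR.symm) h1
  have h3 := btw_det _ _ (by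
    have : (0 : ℝ) ≤ d := by positivity
    nlinarith) _ h2
  exact h3.ne_zero

/-- the core for given parameters -/
theorem core {v b k r d : ℕ} (hv : 2 ≤ v) (hk : 2 ≤ k) (hc : v * r = b * k) (lam : ℤ)
    (hl : 100 ≤ lam) (hp : (r : ℤ) * k - D0 v b k r = lam * ((v : ℤ) - 1) + d) (hd : d + 2 ≤ v)
    (hex : ∀ G : Matrix (Fin v) (Fin v) ℤ, Reg d G →
      ∃ N : Matrix (Fin v) (Fin b) ℕ, IsDes k r N ∧ Ex lam (D0 v b k r - lam) N = G)
    (N : Matrix (Fin v) (Fin b) ℕ) (hN : Aopt k r N) :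
    Reg d (Ex lam (D0 v b k r - lam) N) ∧
      ∀ G : Matrix (Fin v) (Fin v) ℤ, Reg d G →
        tr1 ((lam : ℝ) * v + d) (rl (Ex lam (D0 v b k r - lam) N)) ≤
          tr1 ((lam : ℝ) * v + d) (rl G) := by
  obtain ⟨hD, hC, hmin⟩ := hN
  have hlr : (100 : ℝ) ≤ lam := by exact_mod_cast hl
  have hvr : (2 : ℝ) ≤ v := by exact_mod_cast hv
  have hd0 : (0 : ℝ) ≤ d := by positivity
  have hk0 : (0 : ℝ) < k := by exact_mod_cast (by omega : 0 < k)
  have hopt : ∀ G : Matrix (Fin v) (Fin v) ℤ, Reg d G →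
        tr1 ((lam : ℝ) * v + d) (rl (Ex lam (D0 v b k r - lam) N)) ≤
          tr1 ((lam : ℝ) * v + d) (rl G) := by
    intro G hG
    obtain ⟨N', hN', hE⟩ := hex G hG
    have hC' : Conn k r N' := conn_of_reg hv hk lam hl hp hd N' hN' (by rw [hE]; exact hG)
    have h1 := hmin N' hN' hC'
    rw [PhiA_eq (by omega) (by omega) lam (by omega) N hD hp hC,
      PhiA_eq (by omega) (by omega) lam (by omega) N' hN' hp hC', hE] at h1
    have h2 : (k : ℝ) * tr1 ((lam : ℝ) * v + d) (rl (Ex lam (D0 v b k r - lam) N)) ≤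
        k * tr1 ((lam : ℝ) * v + d) (rl G) := by linarith
    exact le_of_mul_le_mul_left h2 hk0
  refine ⟨?_, hopt⟩
  refine opt_main hv ((lam : ℝ) * v + d) (by nlinarith) d hd (vd_even hv hc lam hp) _
    (Ex_cls lam N hD hp) (fun x => (W_des hv hk lam (by omega) N hD hp hd x).1)
    ((conn_iff (by omega) (by omega) lam (by omega) N hD hp).1 hC)
    (fun x => (W_des hv hk lam (by omega) N hD hp hd x).2) hopt

/-- `A`-optimality is a problem on regular graphs -/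
theorem core_iff {v b k r d : ℕ} (hv : 2 ≤ v) (hk : 2 ≤ k) (hc : v * r = b * k) (lam : ℤ)
    (hl : 100 ≤ lam) (hp : (r : ℤ) * k - D0 v b k r = lam * ((v : ℤ) - 1) + d) (hd : d + 2 ≤ v)
    (hex : ∀ G : Matrix (Fin v) (Fin v) ℤ, Reg d G →
      ∃ N : Matrix (Fin v) (Fin b) ℕ, IsDes k r N ∧ Ex lam (D0 v b k r - lam) N = G)
    (N : Matrix (Fin v) (Fin b) ℕ) :
    Aopt k r N ↔ IsDes k r N ∧ Reg d (Ex lam (D0 v b k r - lam) N) ∧
      ∀ G : Matrix (Fin v) (Fin v) ℤ, Reg d G →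
        tr1 ((lam : ℝ) * v + d) (rl (Ex lam (D0 v b k r - lam) N)) ≤
          tr1 ((lam : ℝ) * v + d) (rl G) := by
  have hk0 : (0 : ℝ) < k := by exact_mod_cast (by omega : 0 < k)
  constructor
  · intro h
    exact ⟨h.1, core hv hk hc lam hl hp hd hex N h⟩
  · rintro ⟨hD, hR, hG⟩
    have hC : Conn k r N := conn_of_reg hv hk lam hl hp hd N hD hR
    obtain ⟨N₁, hN₁⟩ := exists_Aopt N hD hC
    have h1 := core hv hk hc lam hl hp hd hex N₁ hN₁
    refine ⟨hD, hC, fun N' hN' hC' => ?_⟩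
    refine le_trans ?_ (hN₁.2.2 N' hN' hC')
    rw [PhiA_eq (by omega) (by omega) lam (by omega) N hD hp hC,
      PhiA_eq (by omega) (by omega) lam (by omega) N₁ hN₁.1 hp hN₁.2.1]
    have h2 := mul_le_mul_of_nonneg_left (hG _ h1.1) hk0.le
    linarith

/-- Q1 and the strong form from the realisation of all regular graphs -/
theorem q1_of_real {v b k r d : ℕ} (hv : 2 ≤ v) (hk : 2 ≤ k) (hc : v * r = b * k) (lam : ℤ)
    (hl : 100 ≤ lam) (hp : (r : ℤ) * k - D0 v b k r = lam * ((v : ℤ) - 1) + d) (hd : d + 2 ≤ v)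
    (hex : ∀ G : Matrix (Fin v) (Fin v) ℤ, Reg d G →
      ∃ N : Matrix (Fin v) (Fin b) ℕ, IsDes k r N ∧ Ex lam (D0 v b k r - lam) N = G) :
    Q1 v b k r ∧ ∀ N : Matrix (Fin v) (Fin b) ℕ, Aopt k r N → MSopt k r N := by
  have hA : ∀ N : Matrix (Fin v) (Fin b) ℕ, Aopt k r N → MSopt k r N := fun N hN =>
    ms_of_reg (by omega) (by omega) lam N hN.1 hp (core hv hk hc lam hl hp hd hex N hN).1
  refine ⟨?_, hA⟩
  intro N hMS hC hmin N' hN' hC'
  obtain ⟨N₁, hN₁⟩ := exists_Aopt N hMS.1 hC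
  exact (hmin N₁ (hA N₁ hN₁) hN₁.2.1).trans (hN₁.2.2 N' hN' hC')

/-- the parameters `lam`, `d` -/
theorem params {v b k r : ℕ} (hv : 2 ≤ v) : ∃ (lam : ℤ) (d : ℕ),
    (r : ℤ) * k - D0 v b k r = lam * ((v : ℤ) - 1) + d ∧ d + 2 ≤ v := by
  have hv' : (0 : ℤ) < (v : ℤ) - 1 := by omega
  refine ⟨((r : ℤ) * k - D0 v b k r) / ((v : ℤ) - 1),
    (((r : ℤ) * k - D0 v b k r) % ((v : ℤ) - 1)).toNat, ?_, ?_⟩
  · rw [Int.toNat_of_nonneg (Int.emod_nonneg _ hv'.ne')]
    have h := Int.mul_ediv_add_emod ((r : ℤ) * k - D0 v b k r) ((v : ℤ) - 1)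
    linarith [mul_comm ((v : ℤ) - 1) (((r : ℤ) * k - D0 v b k r) / ((v : ℤ) - 1))]
  · have h1 := Int.emod_lt_of_pos ((r : ℤ) * k - D0 v b k r) hv'
    have h2 := Int.emod_nonneg ((r : ℤ) * k - D0 v b k r) hv'.ne'
    omega

theorem aopt_one {b k r : ℕ} (N : Matrix (Fin 1) (Fin b) ℕ) (h : Aopt k r N) : MSopt k r N :=
  one_treatment N h.1

/-- the direct range -/
theorem range_direct (k : ℕ) (hk : 1 ≤ k) : ∃ C : ℕ, ∀ v b r : ℕ, 1 ≤ v → v * r = b * k →
    C * v ^ 2 ≤ b → Q1 v b k r ∧ ∀ N : Matrix (Fin v) (Fin b) ℕ, Aopt k r N → MSopt k r N := by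
  rcases Nat.lt_or_ge k 2 with hk2 | hk2
  · have hk1 : k = 1 := by omega
    subst hk1
    refine ⟨1, fun v b r hv hc hb => ?_⟩
    rcases Nat.lt_or_ge v 2 with hv2 | hv2
    · have : v = 1 := by omega
      subst this
      exact ⟨Q1_one b 1 r, fun N hN => aopt_one N hN⟩
    · exact ⟨fun N hN hC => absurd hC (conn_one hv2 N hN.1),
        fun N hN => absurd hN.2.1 (conn_one hv2 N hN.1)⟩
  · obtain ⟨C, hC⟩ := des_exists k hk2
    refine ⟨C + 101, fun v b r hv hc hb => ?_⟩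
    rcases Nat.lt_or_ge v 2 with hv2 | hv2
    · have : v = 1 := by omega
      subst this
      exact ⟨Q1_one b k r, fun N hN => aopt_one N hN⟩
    · obtain ⟨lam, d, hp, hd⟩ := params (b := b) (k := k) (r := r) hv2
      have hl := lam_ge (C + 101) hv2 hk2 hc hb lam hp hd
      have hl' : (100 : ℤ) ≤ lam := by
        push_cast at hl
        linarith [Int.natCast_nonneg C]
      exact q1_of_real hv2 hk2 hc lam hl' hp hd (fun G hG =>
        hC v b r d hv2 hc (le_trans (Nat.mul_le_mul_right _ (by omega)) hb) lam hp hd G hG)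

theorem q1_vac {v b k r : ℕ} (h : v * r ≠ b * k) :
    Q1 v b k r ∧ ∀ N : Matrix (Fin v) (Fin b) ℕ, Aopt k r N → MSopt k r N :=
  ⟨fun N hN => absurd (des_count N hN.1) h, fun N hN => absurd (des_count N hN.1) h⟩

theorem range_direct' (k : ℕ) (hk : 1 ≤ k) : ∃ C : ℕ, ∀ v b r : ℕ, 1 ≤ v →
    C * v ^ 2 ≤ b → Q1 v b k r ∧ ∀ N : Matrix (Fin v) (Fin b) ℕ, Aopt k r N → MSopt k r N := by
  obtain ⟨C, hC⟩ := range_direct k hk
  refine ⟨C, fun v b r hv hb => ?_⟩
  by_cases h : v * r = b * k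
  · exact hC v b r hv h hb
  · exact q1_vac h

/-- the dual range -/
theorem range_dual (r : ℕ) (hr : 1 ≤ r) : ∃ C : ℕ, ∀ v b k : ℕ, 1 ≤ v → 1 ≤ b → 1 ≤ k →
    C * b ^ 2 ≤ v → Q1 v b k r ∧ ∀ N : Matrix (Fin v) (Fin b) ℕ, Aopt k r N → MSopt k r N := by
  obtain ⟨C, hC⟩ := range_direct' r hr
  refine ⟨C, fun v b k hv hb hk h => ?_⟩
  obtain ⟨h1, h2⟩ := hC b v k hb h
  refine ⟨dual_Q1 hv hb hk hr h1, fun N hN => ?_⟩
  have h3 := h2 _ ((dual_Aopt hv hb hk hr N).1 hN)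
  exact (dual_ms hk hr N).2 h3

/-- block size two -/
theorem range_two (v b r : ℕ) (hv : 1 ≤ v) (hb : 51 * v ^ 2 ≤ b) :
    Q1 v b 2 r ∧ ∀ N : Matrix (Fin v) (Fin b) ℕ, Aopt 2 r N → MSopt 2 r N := by
  by_cases hc : v * r = b * 2
  · rcases Nat.lt_or_ge v 2 with hv2 | hv2
    · have : v = 1 := by omega
      subst this
      exact ⟨Q1_one b 2 r, fun N hN => aopt_one N hN⟩
    · obtain ⟨lam, d, hp, hd⟩ := params (b := b) (k := 2) (r := r) hv2
      have hl := lam_ge 51 hv2 le_rfl hc hb lam hp hd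
      have hl' : (100 : ℤ) ≤ lam := by
        push_cast at hl
        linarith
      exact q1_of_real hv2 le_rfl hc lam hl' hp hd (fun G hG =>
        des_exists_two v b r d hv2 hc lam (by linarith) hp hd G hG)
  · exact q1_vac hc

/-- `N` is a binary design in which the pair `i ≠ i'` occurs in `lam + G i i'` blocks -/
def HasGraph {v b : ℕ} (k r lam : ℕ) (N : Matrix (Fin v) (Fin b) ℕ)
    (G : Matrix (Fin v) (Fin v) ℤ) : Prop :=
  IsDes k r N ∧ (∀ i j, N i j = 0 ∨ N i j = 1) ∧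
    ∀ i i', i ≠ i' → ((∑ l, N i l * N i' l : ℕ) : ℤ) = (lam : ℤ) + G i i'

theorem D0_eq {v b k r : ℕ} (hv : 1 ≤ v) (hkv : k ≤ v) (hc : v * r = b * k) :
    D0 v b k r = r := by
  unfold D0
  rcases Nat.lt_or_ge k v with h | h
  · rw [Nat.div_eq_of_lt h]
    push_cast
    ring
  · have hkv' : k = v := le_antisymm hkv h
    subst hkv'
    rw [Nat.div_self (by omega)]
    have : r = b := Nat.eq_of_mul_eq_mul_left (by omega : 0 < k) (by rw [hc, mul_comm])
    rw [this]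
    push_cast
    ring

theorem hasGraph_iff {v b k r d lam : ℕ} (hv : 1 ≤ v) (hk : 1 ≤ k) (hkv : k ≤ v)
    (hc : v * r = b * k) (N : Matrix (Fin v) (Fin b) ℕ) (G : Matrix (Fin v) (Fin v) ℤ)
    (hG : Reg d G) :
    HasGraph k r lam N G ↔ IsDes k r N ∧ Ex (lam : ℤ) (D0 v b k r - (lam : ℤ)) N = G := by
  constructor
  · rintro ⟨hD, hb, hl⟩
    refine ⟨hD, ?_⟩
    ext i j
    by_cases hij : i = j
    · subst hij
      have h1 : (∑ l, (N i l : ℤ) * (N i l : ℤ)) = r := by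
        have h2 : ∀ l, (N i l : ℤ) * (N i l : ℤ) = N i l := by
          intro l
          rcases hb i l with h | h <;> rw [h] <;> simp
        rw [Finset.sum_congr rfl (fun l _ => h2 l), ← Nat.cast_sum, hD.2 i]
      simp only [Ex, if_true]
      rw [h1, D0_eq hv hkv hc, hG.diag]
      ring
    · have h1 := hl i j hij
      push_cast at h1
      simp only [Ex, if_neg hij]
      rw [h1]
      ring
  · rintro ⟨hD, hE⟩
    have h0 : ∀ i, Ex (lam : ℤ) (D0 v b k r - (lam : ℤ)) N i i = 0 := fun i => by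
      rw [hE]; exact hG.diag i
    refine ⟨hD, fun i j => binary_of_diag hv hk hkv lam N hD h0 i j, fun i i' hi => ?_⟩
    have h1 : Ex (lam : ℤ) (D0 v b k r - (lam : ℤ)) N i i' = G i i' := by rw [hE]
    simp only [Ex, if_neg hi] at h1
    push_cast
    linarith

/-- the structure of the `A`-optimal designs -/
theorem range_struct (k : ℕ) (hk : 2 ≤ k) : ∃ C : ℕ, ∀ v b r : ℕ, k ≤ v → v * r = b * k →
    C * v ^ 2 ≤ b → ∃ lam d : ℕ, r * (k - 1) = lam * (v - 1) + d ∧ d < v - 1 ∧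
      (∀ G : Matrix (Fin v) (Fin v) ℤ, Reg d G →
        ∃ N : Matrix (Fin v) (Fin b) ℕ, HasGraph k r lam N G) ∧
      ∀ N : Matrix (Fin v) (Fin b) ℕ, Aopt k r N ↔
        ∃ G : Matrix (Fin v) (Fin v) ℤ, Reg d G ∧ HasGraph k r lam N G ∧
          ∀ G' : Matrix (Fin v) (Fin v) ℤ, Reg d G' →
            tr1 ((lam : ℝ) * v + d) (rl G) ≤ tr1 ((lam : ℝ) * v + d) (rl G') := by
  obtain ⟨C, hC⟩ := des_exists k hk
  refine ⟨C + 101, fun v b r hkv hc hb => ?_⟩
  have hv2 : 2 ≤ v := by omega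
  obtain ⟨lamz, d, hp, hd⟩ := params (b := b) (k := k) (r := r) hv2
  have hl := lam_ge (C + 101) hv2 hk hc hb lamz hp hd
  have hl' : (100 : ℤ) ≤ lamz := by
    push_cast at hl
    linarith [Int.natCast_nonneg C]
  obtain ⟨lam, rfl⟩ := Int.eq_ofNat_of_zero_le (by omega : 0 ≤ lamz)
  have hex := fun (G : Matrix (Fin v) (Fin v) ℤ) (hG : Reg d G) =>
    hC v b r d hv2 hc (le_trans (Nat.mul_le_mul_right _ (by omega)) hb) (lam : ℤ) hp hd G hG
  refine ⟨lam, d, ?_, by omega, ?_, ?_⟩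
  · rw [D0_eq (by omega) hkv hc] at hp
    have h1 : ((r * (k - 1) : ℕ) : ℤ) = ((lam * (v - 1) + d : ℕ) : ℤ) := by
      push_cast [Nat.cast_sub (by omega : 1 ≤ k), Nat.cast_sub (by omega : 1 ≤ v)]
      linarith
    exact_mod_cast h1
  · intro G hG
    obtain ⟨N, hN⟩ := hex G hG
    exact ⟨N, (hasGraph_iff (by omega) (by omega) hkv hc N G hG).2 hN⟩
  · intro N
    rw [core_iff hv2 hk hc (lam : ℤ) hl' hp hd hex N]
    constructor
    · rintro ⟨h1, h2, h3⟩
      refine ⟨_, h2, (hasGraph_iff (by omega) (by omega) hkv hc N _ h2).2 ⟨h1, rfl⟩, ?_⟩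
      intro G' hG'
      have := h3 G' hG'
      simpa using this
    · rintro ⟨G, hG, hH, hmin⟩
      obtain ⟨h1, h2⟩ := (hasGraph_iff (by omega) (by omega) hkv hc N G hG).1 hH
      refine ⟨h1, by rw [h2]; exact hG, ?_⟩
      intro G' hG'
      rw [h2]
      have := hmin G' hG'
      simpa using this

end HCR
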